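import Mathlib

/-!
Sums of the polynomials `X^i (1+X)^j` with `2i+j = d`, and the Eulerian polynomials.
-/

set_option autoImplicit false

namespace Pool.Agent.Helper31K9.Ehr

open Polynomial

/-- sums of `X^i (1+X)^j` with `2 i + j = d` -/
noncomputable def S (d : ℕ) : AddSubmonoid ℤ[X] :=
  AddSubmonoid.closure {p | ∃ i j : ℕ, 2 * i + j = d ∧ p = X ^ i * (1 + X) ^ j}

lemma gen_mem (i j d : ℕ) (h : 2 * i + j = d) : (X : ℤ[X]) ^ i * (1 + X) ^ j ∈ S d :=
  AddSubmonoid.subset_closure ⟨i, j, h, rfl⟩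

lemma one_mem_S : (1 : ℤ[X]) ∈ S 0 := by
  have := gen_mem 0 0 0 rfl
  simpa using this

lemma mul_mem_S {c d : ℕ} {p q : ℤ[X]} (hp : p ∈ S c) (hq : q ∈ S d) : p * q ∈ S (c + d) := by
  induction hp using AddSubmonoid.closure_induction with
  | mem p hp =>
    obtain ⟨i, j, h, rfl⟩ := hp
    induction hq using AddSubmonoid.closure_induction with
    | mem q hq =>
      obtain ⟨k, l, h', rfl⟩ := hq
      exact AddSubmonoid.subset_closure ⟨i + k, j + l, by omega, by ring⟩
    | zero => simp [zero_mem]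
    | add q₁ q₂ _ _ h1 h2 => rw [mul_add]; exact add_mem h1 h2
  | zero => simp [zero_mem]
  | add p₁ p₂ _ _ h1 h2 => rw [add_mul]; exact add_mem h1 h2

lemma op_mem_S {d : ℕ} {p : ℤ[X]} (hp : p ∈ S d) :
    (1 + ((d : ℤ[X]) + 1) * X) * p + X * (1 - X) * derivative p ∈ S (d + 1) := by
  induction hp using AddSubmonoid.closure_induction with
  | mem p hp =>
    obtain ⟨i, j, h, rfl⟩ := hp
    subst h
    have key : (1 + (((2 * i + j : ℕ) : ℤ[X]) + 1) * X) * (X ^ i * (1 + X) ^ j) +
        X * (1 - X) * derivative (X ^ i * (1 + X) ^ j : ℤ[X]) =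
        (i + 1) • (X ^ i * (1 + X) ^ (j + 1)) + (2 * j) • (X ^ (i + 1) * (1 + X) ^ (j - 1)) := by
      rw [derivative_mul, derivative_X_pow, derivative_pow]
      simp only [derivative_add, derivative_one, derivative_X, zero_add, mul_one]
      rcases i with _ | i <;> rcases j with _ | j <;>
      · simp only [Nat.succ_sub_one, nsmul_eq_mul, Nat.cast_zero, map_natCast, map_zero]
        push_cast
        ring
    rw [key]
    refine add_mem (AddSubmonoid.nsmul_mem _ (gen_mem _ _ _ (by omega)) _) ?_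
    rcases Nat.eq_zero_or_pos j with hj | hj
    · subst hj; simp [zero_mem]
    · exact AddSubmonoid.nsmul_mem _ (gen_mem _ _ _ (by omega)) _
  | zero => simp [zero_mem]
  | add p₁ p₂ _ _ h1 h2 =>
    have : (1 + ((d : ℤ[X]) + 1) * X) * (p₁ + p₂) + X * (1 - X) * derivative (p₁ + p₂) =
      ((1 + ((d : ℤ[X]) + 1) * X) * p₁ + X * (1 - X) * derivative p₁) +
      ((1 + ((d : ℤ[X]) + 1) * X) * p₂ + X * (1 - X) * derivative p₂) := by
      rw [derivative_add]; ring
    rw [this]
    exact add_mem h1 h2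

/-- `∑ (p+1)^r X^p` -/
noncomputable def F (r : ℕ) : PowerSeries ℤ := PowerSeries.mk fun p => ((p : ℤ) + 1) ^ r

lemma F_succ (r : ℕ) : F (r + 1) = PowerSeries.derivative ℤ (PowerSeries.X * F r) := by
  ext n
  rw [PowerSeries.coeff_derivative, mul_comm PowerSeries.X, PowerSeries.coeff_succ_mul_X]
  simp only [F, PowerSeries.coeff_mk]
  ring

lemma F_zero : F 0 * (1 - PowerSeries.X) = 1 := by
  have : F 0 = PowerSeries.mk 1 := by
    ext n; simp [F]
  rw [this]
  exact PowerSeries.mk_one_mul_one_sub_eq_one ℤ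

lemma eulerian (r : ℕ) : ∃ A ∈ S r, F (r + 1) * (1 - PowerSeries.X) ^ (r + 2) =
    ((A : ℤ[X]) : PowerSeries ℤ) := by
  induction r with
  | zero =>
    refine ⟨1, one_mem_S, ?_⟩
    rw [F_succ]
    have h := F_zero
    have h2 := congrArg (PowerSeries.derivative ℤ) h
    rw [Derivation.leibniz, map_sub, PowerSeries.derivative_one, PowerSeries.derivative_X] at h2
    rw [Derivation.leibniz, PowerSeries.derivative_X]
    simp only [smul_eq_mul] at h2 ⊢
    have e : PowerSeries.derivative ℤ (F 0) * (1 - PowerSeries.X) = F 0 := by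
      linear_combination h2
    rw [Polynomial.coe_one]
    linear_combination (PowerSeries.X * (1 - PowerSeries.X)) * e + h
  | succ r ih =>
    obtain ⟨A, hA, hE⟩ := ih
    refine ⟨_, op_mem_S hA, ?_⟩
    rw [F_succ (r + 1)]
    have h2 := congrArg (PowerSeries.derivative ℤ) hE
    rw [Derivation.leibniz, PowerSeries.derivative_coe, PowerSeries.derivative_pow, map_sub,
      PowerSeries.derivative_one, PowerSeries.derivative_X] at h2
    rw [Derivation.leibniz, PowerSeries.derivative_X]
    simp only [smul_eq_mul] at h2 ⊢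
    have e2 : r + 2 - 1 = r + 1 := by omega
    rw [e2] at h2
    have e3 : (((r : ℕ) : ℤ[X]) : PowerSeries ℤ) = (r : PowerSeries ℤ) :=
      map_natCast (Polynomial.coeToPowerSeries.ringHom (R := ℤ)) r
    push_cast at h2 ⊢
    rw [← hE, e3]
    linear_combination ((1 - PowerSeries.X) * PowerSeries.X) * h2

end Pool.Agent.Helper31K9.Ehr
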