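import Mathlib
import Pool.Agent.Helper31K9.EhrA

/-!
Maps from a finite set, divided into levels, to `{0, …, s}` which are weakly increasing from one
level to the next.
-/

set_option autoImplicit false

namespace Pool.Agent.Helper31K9.Ehr

open Polynomial Finset

/-- the maps `I → {0, …, s}` which are weakly increasing along the levels -/
noncomputable def Mf {I : Type} [Fintype I] [DecidableEq I] (lev : I → ℕ) (s : ℕ) :
    Finset (I → ℕ) :=
  open Classical in
  (Fintype.piFinset fun _ => range (s + 1)).filter (fun f => ∀ x y, lev x < lev y → f x ≤ f y)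

lemma mem_Mf {I : Type} [Fintype I] [DecidableEq I] (lev : I → ℕ) (s : ℕ) (f : I → ℕ) :
    f ∈ Mf lev s ↔ (∀ x, f x ≤ s) ∧ ∀ x y, lev x < lev y → f x ≤ f y := by
  unfold Mf
  rw [mem_filter, Fintype.mem_piFinset]
  simp only [mem_range, Nat.lt_succ_iff]

/-- those with maximum `v` -/
noncomputable def Df {I : Type} [Fintype I] [DecidableEq I] (lev : I → ℕ) (v : ℕ) :
    Finset (I → ℕ) := (Mf lev v).filter (fun f => univ.sup f = v)

lemma mem_Df {I : Type} [Fintype I] [DecidableEq I] (lev : I → ℕ) (v : ℕ) (f : I → ℕ) :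
    f ∈ Df lev v ↔ (∀ x y, lev x < lev y → f x ≤ f y) ∧ univ.sup f = v := by
  unfold Df
  rw [mem_filter, mem_Mf]
  constructor
  · rintro ⟨⟨_, h1⟩, h2⟩
    exact ⟨h1, h2⟩
  · rintro ⟨h1, h2⟩
    refine ⟨⟨fun x => ?_, h1⟩, h2⟩
    rw [← h2]
    exact le_sup (f := f) (mem_univ x)

lemma sum_Mf {I : Type} [Fintype I] [DecidableEq I] (lev : I → ℕ) (s : ℕ) (φ : ℕ → ℤ) :
    ∑ f ∈ Mf lev s, φ (univ.sup f) = ∑ v ∈ range (s + 1), ((Df lev v).card : ℤ) * φ v := by
  have hmap : ∀ f ∈ Mf lev s, univ.sup f ∈ range (s + 1) := by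
    intro f hf
    rw [mem_Mf] at hf
    rw [mem_range, Nat.lt_succ_iff]
    exact Finset.sup_le fun x _ => hf.1 x
  rw [← sum_fiberwise_of_maps_to hmap]
  refine sum_congr rfl fun v hv => ?_
  rw [mem_range, Nat.lt_succ_iff] at hv
  have h1 : (Mf lev s).filter (fun f => univ.sup f = v) = Df lev v := by
    ext f
    rw [mem_filter, mem_Mf, mem_Df]
    constructor
    · rintro ⟨⟨_, h1⟩, h2⟩
      exact ⟨h1, h2⟩
    · rintro ⟨h1, h2⟩
      refine ⟨⟨fun x => ?_, h1⟩, h2⟩
      refine le_trans ?_ hv
      rw [← h2]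
      exact le_sup (f := f) (mem_univ x)
  rw [h1, ← nsmul_eq_mul, ← sum_const]
  refine sum_congr rfl fun f hf => ?_
  rw [mem_Df] at hf
  rw [hf.2]

lemma card_Mf_step {I : Type} [Fintype I] [DecidableEq I] (lev : I → ℕ) (K s : ℕ)
    (hlt : ∀ x, lev x < K + 1) :
    ((Mf lev s).card : ℤ) = ∑ f ∈ Mf (fun x : {x // lev x < K} => lev x.1) s,
      ((s : ℤ) + 1 - (univ.sup f : ℕ)) ^ (Fintype.card {x // ¬ lev x < K}) := by
  have h1 : (Mf lev s).card = ((Mf (fun x : {x // lev x < K} => lev x.1) s).sigma
      (fun f => Fintype.piFinset fun _ : {x // ¬ lev x < K} => Icc (univ.sup f) s)).card := by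
    refine card_nbij' (fun f => ⟨fun x => f x.1, fun x => f x.1⟩)
      (fun p => fun x => if h : lev x < K then p.1 ⟨x, h⟩ else p.2 ⟨x, h⟩) ?_ ?_ ?_ ?_
    · intro f hf
      rw [mem_coe, mem_Mf] at hf
      rw [mem_coe, mem_sigma]
      refine ⟨?_, ?_⟩
      · rw [mem_Mf]
        exact ⟨fun x => hf.1 x.1, fun x y h => hf.2 x.1 y.1 h⟩
      · rw [Fintype.mem_piFinset]
        intro y
        rw [mem_Icc]
        refine ⟨Finset.sup_le fun x _ => hf.2 _ _ ?_, hf.1 _⟩
        exact lt_of_lt_of_le x.2 (not_lt.1 y.2)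
    · rintro ⟨f, g⟩ hp
      rw [mem_coe, mem_sigma, mem_Mf, Fintype.mem_piFinset] at hp
      obtain ⟨⟨h1, h2⟩, h3⟩ := hp
      simp only [mem_Icc] at h3
      rw [mem_coe, mem_Mf]
      refine ⟨fun x => ?_, fun x y hxy => ?_⟩
      · by_cases h : lev x < K
        · simp only [dif_pos h]; exact h1 _
        · simp only [dif_neg h]; exact (h3 _).2
      · by_cases hy : lev y < K
        · have hx : lev x < K := hxy.trans hy
          simp only [dif_pos hx, dif_pos hy]
          exact h2 _ _ hxy
        · have hx : lev x < K := by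
            have := hlt y
            omega
          simp only [dif_pos hx, dif_neg hy]
          exact le_trans (le_sup (f := f) (mem_univ (⟨x, hx⟩ : {x // lev x < K}))) (h3 _).1
    · intro f hf
      funext x
      by_cases h : lev x < K
      · simp only [dif_pos h]
      · simp only [dif_neg h]
    · rintro ⟨f, g⟩ hp
      have e1 : (fun x : {x // lev x < K} =>
          (if h : lev x.1 < K then f ⟨x.1, h⟩ else g ⟨x.1, h⟩)) = f := by
        funext x
        rw [dif_pos x.2]
      have e2 : (fun x : {x // ¬ lev x < K} =>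
          (if h : lev x.1 < K then f ⟨x.1, h⟩ else g ⟨x.1, h⟩)) = g := by
        funext x
        rw [dif_neg x.2]
      simp only
      rw [e1, e2]
  rw [h1, card_sigma]
  push_cast
  refine sum_congr rfl fun f hf => ?_
  rw [Fintype.card_piFinset, prod_const, card_univ, Nat.card_Icc]
  rw [mem_Mf] at hf
  have h2 : univ.sup f ≤ s := Finset.sup_le fun x _ => hf.1 x
  push_cast
  rw [Nat.cast_sub (by omega)]
  push_cast
  ring

lemma main_B (K : ℕ) : ∀ (I : Type) [Fintype I] [DecidableEq I] (lev : I → ℕ),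
    (∀ k < K, ∃ x, lev x = k) → (∀ x, lev x < K) →
    K ≤ Fintype.card I ∧ ∃ B ∈ S (Fintype.card I - K),
      (PowerSeries.mk fun s => ((Mf lev s).card : ℤ)) *
        (1 - PowerSeries.X) ^ (Fintype.card I + 1) = ((B : ℤ[X]) : PowerSeries ℤ) := by
  induction K with
  | zero =>
    intro I _ _ lev _ h
    have hI : IsEmpty I := ⟨fun x => absurd (h x) (Nat.not_lt_zero _)⟩
    refine ⟨Nat.zero_le _, 1, ?_, ?_⟩
    · rw [Fintype.card_eq_zero]
      exact one_mem_S
    · rw [Fintype.card_eq_zero, zero_add, pow_one, Polynomial.coe_one]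
      have : (PowerSeries.mk fun s => ((Mf lev s).card : ℤ)) = PowerSeries.mk 1 := by
        ext s
        rw [PowerSeries.coeff_mk, PowerSeries.coeff_mk]
        have h1 : Mf lev s = {fun x => hI.elim x} := by
          ext f
          rw [mem_Mf, mem_singleton]
          constructor
          · intro _
            exact Subsingleton.elim _ _
          · intro _
            exact ⟨fun x => hI.elim x, fun x => hI.elim x⟩
        rw [h1, card_singleton]
        simp
      rw [this]
      exact PowerSeries.mk_one_mul_one_sub_eq_one ℤ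
  | succ K ih =>
    intro I _ _ lev hsurj hlt
    obtain ⟨hK, B, hB, hBe⟩ := ih {x // lev x < K} (fun x => lev x.1)
      (fun k hk => by
        obtain ⟨x, hx⟩ := hsurj k (by omega)
        exact ⟨⟨x, by omega⟩, hx⟩) (fun x => x.2)
    set n₀ := Fintype.card {x // lev x < K} with hn₀
    have hcard : Fintype.card I = n₀ + Fintype.card {x // ¬ lev x < K} := by
      rw [hn₀, Fintype.card_subtype_compl]
      have := Fintype.card_subtype_le (fun x => lev x < K)
      omega
    obtain ⟨r, hr⟩ : ∃ r, Fintype.card {x // ¬ lev x < K} = r + 1 := by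
      obtain ⟨x, hx⟩ := hsurj K (by omega)
      have : 0 < Fintype.card {x // ¬ lev x < K} := Fintype.card_pos_iff.2 ⟨⟨x, by omega⟩⟩
      exact ⟨_, (Nat.succ_pred_eq_of_pos this).symm⟩
    obtain ⟨A, hA, hAe⟩ := eulerian r
    refine ⟨by omega, B * A, ?_, ?_⟩
    · have := mul_mem_S hB hA
      have e : Fintype.card I - (K + 1) = n₀ - K + r := by omega
      rw [e]
      exact this
    · set D : PowerSeries ℤ := PowerSeries.mk fun v =>
        ((Df (fun x : {x // lev x < K} => lev x.1) v).card : ℤ) with hD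
      have h0 : (PowerSeries.mk fun s => ((Mf (fun x : {x // lev x < K} => lev x.1) s).card : ℤ)) =
          D * PowerSeries.mk 1 := by
        ext s
        rw [PowerSeries.coeff_mk, PowerSeries.coeff_mul,
          Nat.sum_antidiagonal_eq_sum_range_succ_mk]
        have := sum_Mf (fun x : {x // lev x < K} => lev x.1) s (fun _ => 1)
        rw [sum_const, nsmul_eq_mul, mul_one] at this
        rw [this]
        refine sum_congr rfl fun v _ => ?_
        rw [hD, PowerSeries.coeff_mk, PowerSeries.coeff_mk]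
        simp
      have h1 : (PowerSeries.mk fun s => ((Mf lev s).card : ℤ)) = D * F (r + 1) := by
        ext s
        rw [PowerSeries.coeff_mk, PowerSeries.coeff_mul,
          Nat.sum_antidiagonal_eq_sum_range_succ_mk, card_Mf_step lev K s hlt, hr]
        have := sum_Mf (fun x : {x // lev x < K} => lev x.1) s
          (fun v => ((s : ℤ) + 1 - (v : ℕ)) ^ (r + 1))
        rw [this]
        refine sum_congr rfl fun v hv => ?_
        rw [mem_range, Nat.lt_succ_iff] at hv
        rw [hD, PowerSeries.coeff_mk, F, PowerSeries.coeff_mk, Nat.cast_sub hv]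
        congr 2
        ring
      have h2 : D = (PowerSeries.mk fun s =>
          ((Mf (fun x : {x // lev x < K} => lev x.1) s).card : ℤ)) * (1 - PowerSeries.X) := by
        rw [h0, mul_assoc, PowerSeries.mk_one_mul_one_sub_eq_one ℤ, mul_one]
      rw [h1, h2, Polynomial.coe_mul, ← hBe, ← hAe, hcard, hr]
      ring

end Pool.Agent.Helper31K9.Ehr
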