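import Mathlib
import Pool.Agent.Helper31K9.EhrB

/-!
Maps `I → {0, …, T}` which increase strictly from level to level and have the parity of the level.
-/

set_option autoImplicit false
set_option linter.unusedSectionVars false

namespace Pool.Agent.Helper31K9.Ehr

open Polynomial Finset

variable {I : Type} [Fintype I] [DecidableEq I]

/-- `g` has the parity of the level and increases strictly from level to level -/
def InCls (lev g : I → ℕ) : Prop :=
  (∀ x, g x % 2 = lev x % 2) ∧ ∀ x y, lev x < lev y → g x < g y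

/-- the maps `I → {0, …, T}` in the class of `lev` -/
noncomputable def Cls (lev : I → ℕ) (T : ℕ) : Finset (I → ℕ) :=
  open Classical in
  (Fintype.piFinset fun _ => range (T + 1)).filter (fun g => InCls lev g)

lemma mem_Cls (lev : I → ℕ) (T : ℕ) (g : I → ℕ) :
    g ∈ Cls lev T ↔ (∀ x, g x ≤ T) ∧ InCls lev g := by
  classical
  unfold Cls
  rw [mem_filter, Fintype.mem_piFinset]
  simp only [mem_range, Nat.lt_succ_iff]

lemma lev_le {lev g : I → ℕ} (h : InCls lev g) (hlev : ∀ x, ∀ k < lev x, ∃ y, lev y = k) :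
    ∀ k x, lev x = k → k ≤ g x := by
  intro k
  induction k with
  | zero => intro x _; exact Nat.zero_le _
  | succ k ih =>
    intro x hx
    obtain ⟨y, hy⟩ := hlev x k (by omega)
    have h1 := ih y hy
    have h2 := h.2 y x (by omega)
    omega

lemma sub_mono {lev g : I → ℕ} (h : InCls lev g) (hlev : ∀ x, ∀ k < lev x, ∃ y, lev y = k) :
    ∀ k x y, lev y = k → lev x < lev y → g x + lev y ≤ g y + lev x := by
  intro k
  induction k with
  | zero => intro x y h1 h2; omega
  | succ k ih =>
    intro x y hy hxy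
    rcases Nat.lt_or_ge (lev x) k with hk | hk
    · obtain ⟨z, hz⟩ := hlev y k (by omega)
      have h1 := ih x z hz (by omega)
      have h2 := h.2 z y (by omega)
      omega
    · have h2 := h.2 x y hxy
      omega

lemma card_Cls (lev : I → ℕ) (K T : ℕ) (hsurj : ∀ k < K + 1, ∃ x, lev x = k)
    (hlt : ∀ x, lev x < K + 1) :
    (Cls lev T).card = if K ≤ T then (Mf lev ((T - K) / 2)).card else 0 := by
  have hlev : ∀ x, ∀ k < lev x, ∃ y, lev y = k := fun x k hk => hsurj k (hk.trans (hlt x))
  obtain ⟨t, ht⟩ := hsurj K (Nat.lt_succ_self K)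
  split_ifs with hKT
  · refine card_nbij' (fun g => fun x => (g x - lev x) / 2) (fun f => fun x => 2 * f x + lev x)
      ?_ ?_ ?_ ?_
    · intro g hg
      rw [mem_coe, mem_Cls] at hg
      rw [mem_coe, mem_Mf]
      have hmono : ∀ x y, lev x < lev y → (g x - lev x) / 2 ≤ (g y - lev y) / 2 := by
        intro x y hxy
        have h1 := sub_mono hg.2 hlev _ x y rfl hxy
        have h2 := lev_le hg.2 hlev _ x rfl
        exact Nat.div_le_div_right (by omega)
      refine ⟨fun x => ?_, hmono⟩
      have h3 : (g t - lev t) / 2 ≤ (T - K) / 2 := Nat.div_le_div_right (by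
        have := hg.1 t
        omega)
      rcases Nat.lt_or_ge (lev x) K with hx | hx
      · exact (hmono x t (by omega)).trans h3
      · have hxe : lev x = K := by have := hlt x; omega
        exact Nat.div_le_div_right (by
          have := hg.1 x
          omega)
    · intro f hf
      rw [mem_coe, mem_Mf] at hf
      rw [mem_coe, mem_Cls]
      refine ⟨fun x => ?_, fun x => ?_, fun x y hxy => ?_⟩
      · have h1 := hf.1 x
        have h2 := hlt x
        show 2 * f x + lev x ≤ T
        omega
      · show (2 * f x + lev x) % 2 = lev x % 2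
        omega
      · have := hf.2 x y hxy
        show 2 * f x + lev x < 2 * f y + lev y
        omega
    · intro g hg
      rw [mem_coe, mem_Cls] at hg
      funext x
      have h1 := hg.2.1 x
      have h2 := lev_le hg.2 hlev _ x rfl
      show 2 * ((g x - lev x) / 2) + lev x = g x
      omega
    · intro f _
      funext x
      show (2 * f x + lev x - lev x) / 2 = f x
      omega
  · rw [card_eq_zero, eq_empty_iff_forall_notMem]
    intro g hg
    rw [mem_Cls] at hg
    have h2 := lev_le hg.2 hlev _ t rfl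
    have := hg.1 t
    omega

lemma coeff_one_add_X_mul_expand (f : PowerSeries ℤ) (j : ℕ) :
    PowerSeries.coeff j ((1 + PowerSeries.X) * PowerSeries.expand 2 two_ne_zero f) =
      PowerSeries.coeff (j / 2) f := by
  rw [add_mul, one_mul, map_add]
  rcases j with _ | j
  · rw [PowerSeries.coeff_zero_X_mul, PowerSeries.coeff_expand]
    simp
  · rw [PowerSeries.coeff_succ_X_mul, PowerSeries.coeff_expand, PowerSeries.coeff_expand]
    rcases Nat.even_or_odd' j with ⟨k, rfl | rfl⟩
    · rw [if_neg (by omega), if_pos (by omega), zero_add]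
      congr 2
      omega
    · rw [if_pos (by omega), if_neg (by omega), add_zero]

lemma gf_Cls (lev : I → ℕ) (K : ℕ) (hsurj : ∀ k < K + 1, ∃ x, lev x = k)
    (hlt : ∀ x, lev x < K + 1) :
    (PowerSeries.mk fun T => ((Cls lev T).card : ℤ)) =
      PowerSeries.X ^ K * ((1 + PowerSeries.X) * PowerSeries.expand 2 two_ne_zero
        (PowerSeries.mk fun s => ((Mf lev s).card : ℤ))) := by
  ext T
  rw [PowerSeries.coeff_mk, PowerSeries.coeff_X_pow_mul', card_Cls lev K T hsurj hlt]
  split_ifs with h
  · rw [coeff_one_add_X_mul_expand, PowerSeries.coeff_mk]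
  · simp

lemma main_C (lev : I → ℕ) (K : ℕ) (hsurj : ∀ k < K + 1, ∃ x, lev x = k)
    (hlt : ∀ x, lev x < K + 1) :
    K + 1 ≤ Fintype.card I ∧ ∃ B ∈ S (Fintype.card I - (K + 1)),
      (PowerSeries.mk fun T => ((Cls lev T).card : ℤ)) *
        (1 - PowerSeries.X ^ 2) ^ (Fintype.card I + 1) =
      ((X ^ K * ((1 + X) * Polynomial.expand ℤ 2 B) : ℤ[X]) : PowerSeries ℤ) := by
  obtain ⟨h1, B, hB, hBe⟩ := main_B (K + 1) I lev hsurj hlt
  refine ⟨h1, B, hB, ?_⟩
  rw [gf_Cls lev K hsurj hlt]
  have h2 := congrArg (PowerSeries.expand 2 two_ne_zero) hBe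
  rw [map_mul, map_pow, map_sub, map_one, PowerSeries.expand_X] at h2
  have h3 : PowerSeries.expand 2 two_ne_zero ((B : ℤ[X]) : PowerSeries ℤ) =
      ((Polynomial.expand ℤ 2 B : ℤ[X]) : PowerSeries ℤ) := by
    ext n
    rw [PowerSeries.coeff_expand, Polynomial.coeff_coe, Polynomial.coeff_coe,
      Polynomial.coeff_expand two_pos]
  rw [h3] at h2
  rw [Polynomial.coe_mul, Polynomial.coe_mul, Polynomial.coe_pow, Polynomial.coe_add,
    Polynomial.coe_one, Polynomial.coe_X, ← h2]
  ring

end Pool.Agent.Helper31K9.Ehr
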