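import Mathlib
import Pool.Agent.Helper31K9.EhrC

/-!
Every map to the natural numbers whose smallest value is even has a unique level function.
-/

set_option autoImplicit false
set_option linter.unusedSectionVars false

namespace Pool.Agent.Helper31K9.Ehr

open Polynomial Finset

variable {I : Type} [Fintype I] [DecidableEq I]

/-- the level of a value: the number of changes of parity among the values of `g` up to `v`,
starting from even -/
noncomputable def ell (g : I → ℕ) : ℕ → ℕ
  | 0 => 0
  | v + 1 => open Classical in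
    if (∃ x, g x = v + 1) ∧ (v + 1 + ell g v) % 2 = 1 then ell g v + 1 else ell g v

lemma ell_succ (g : I → ℕ) (v : ℕ) : ell g (v + 1) =
    open Classical in
    if (∃ x, g x = v + 1) ∧ (v + 1 + ell g v) % 2 = 1 then ell g v + 1 else ell g v := rfl

lemma ell_le_succ (g : I → ℕ) (v : ℕ) : ell g v ≤ ell g (v + 1) := by
  rw [ell_succ]; split_ifs <;> omega

lemma ell_mono (g : I → ℕ) : Monotone (ell g) := monotone_nat_of_le_succ (ell_le_succ g)

lemma ell_parity (g : I → ℕ) (x : I) : ell g (g x) % 2 = g x % 2 := by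
  rcases h : g x with _ | v
  · rfl
  · rw [ell_succ]
    split_ifs with h1
    · omega
    · have : ¬ (v + 1 + ell g v) % 2 = 1 := fun h2 => h1 ⟨⟨x, h⟩, h2⟩
      omega

/-- all levels `k` with `1 ≤ k ≤ ell g v` are attained -/
lemma ell_attained (g : I → ℕ) : ∀ v k, 1 ≤ k → k ≤ ell g v → ∃ y, ell g (g y) = k := by
  intro v
  induction v with
  | zero => intro k h1 h2; rw [ell] at h2; omega
  | succ v ih =>
    intro k h1 h2
    rcases Nat.lt_or_ge (ell g v) k with h3 | h3
    · rw [ell_succ] at h2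
      split_ifs at h2 with h4
      · obtain ⟨⟨y, hy⟩, h5⟩ := h4
        refine ⟨y, ?_⟩
        rw [hy, ell_succ, if_pos ⟨⟨y, hy⟩, h5⟩]
        omega
      · omega
    · exact ih k h1 h3

lemma ell_zero_of_lt (g : I → ℕ) (w : ℕ) (hw : ∀ x, w ≤ g x) : ∀ v, v < w → ell g v = 0 := by
  intro v
  induction v with
  | zero => intro _; rfl
  | succ v ih =>
    intro h
    rw [ell_succ, if_neg]
    · exact ih (by omega)
    · rintro ⟨⟨x, hx⟩, _⟩
      have := hw x
      omega

lemma ell_min (g : I → ℕ) (x : I) (hx : g x % 2 = 0) (hmin : ∀ y, g x ≤ g y) :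
    ell g (g x) = 0 := by
  rcases h : g x with _ | v
  · rfl
  · have h0 : ell g v = 0 := ell_zero_of_lt g (g x) hmin v (by omega)
    rw [ell_succ, if_neg]
    · exact h0
    · rintro ⟨_, h2⟩
      omega

/-- the levels form an initial segment of the natural numbers -/
def IsLev (lev : I → ℕ) : Prop := ∀ x, ∀ k < lev x, ∃ y, lev y = k

lemma isLev_ell (g : I → ℕ) (x₀ : I) (hx : g x₀ % 2 = 0) (hmin : ∀ y, g x₀ ≤ g y) :
    IsLev (fun x => ell g (g x)) := by
  intro x k hk
  rcases Nat.eq_zero_or_pos k with h0 | h0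
  · subst h0
    exact ⟨x₀, ell_min g x₀ hx hmin⟩
  · exact ell_attained g (g x) k h0 hk.le

lemma inCls_ell (g : I → ℕ) : InCls (fun x => ell g (g x)) g := by
  refine ⟨fun x => (ell_parity g x).symm, fun x y h => ?_⟩
  by_contra h1
  exact absurd (ell_mono g (not_lt.1 h1)) (not_le.2 h)

lemma ell_eq_aux {lev g : I → ℕ} (hlev : IsLev lev) (h : InCls lev g) :
    ∀ v, (∀ x, g x ≤ v → lev x ≤ ell g v) ∧ (ell g v = 0 ∨ ∃ x, g x ≤ v ∧ lev x = ell g v) := by
  intro v
  induction v with
  | zero =>
    refine ⟨fun x hx => ?_, Or.inl rfl⟩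
    have := lev_le h hlev _ x rfl
    omega
  | succ v ih =>
    obtain ⟨ih1, ih2⟩ := ih
    by_cases hv : ∃ x, g x = v + 1
    · obtain ⟨x, hx⟩ := hv
      have hpx := h.1 x
      -- level of x
      have hge : ell g v ≤ lev x := by
        rcases ih2 with h0 | ⟨y, hy1, hy2⟩
        · omega
        · by_contra hc
          have := h.2 x y (by omega)
          omega
      have hle : lev x ≤ ell g v + 1 := by
        by_contra hc
        obtain ⟨z, hz⟩ := hlev x (lev x - 1) (by omega)
        have h1 := h.2 z x (by omega)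
        have h2 := ih1 z (by omega)
        omega
      have hle0 : ell g v = 0 → lev x ≤ 1 := by omega
      have hkey : lev x = ell g (v + 1) := by
        rw [ell_succ]
        split_ifs with h1
        · have := h1.2
          omega
        · have : ¬ (v + 1 + ell g v) % 2 = 1 := fun h2 => h1 ⟨⟨x, hx⟩, h2⟩
          omega
      refine ⟨fun y hy => ?_, Or.inr ⟨x, by omega, hkey⟩⟩
      rw [← hkey]
      by_contra hc
      have := h.2 x y (by omega)
      omega
    · have he : ell g (v + 1) = ell g v := by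
        rw [ell_succ, if_neg]
        exact fun h1 => hv h1.1
      rw [he]
      refine ⟨fun x hx => ih1 x ?_, ?_⟩
      · rcases Nat.lt_or_ge v (g x) with h1 | h1
        · exact absurd ⟨x, by omega⟩ hv
        · exact h1
      · rcases ih2 with h0 | ⟨y, hy1, hy2⟩
        · exact Or.inl h0
        · exact Or.inr ⟨y, by omega, hy2⟩

lemma ell_eq {lev g : I → ℕ} (hlev : IsLev lev) (h : InCls lev g) (x : I) :
    ell g (g x) = lev x := by
  obtain ⟨h1, h2⟩ := ell_eq_aux hlev h (g x)
  have h3 := h1 x le_rfl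
  rcases h2 with h0 | ⟨y, hy1, hy2⟩
  · omega
  · by_contra hc
    have := h.2 x y (by omega)
    omega

lemma isLev_lt (lev : I → ℕ) (hlev : IsLev lev) (x : I) : lev x < Fintype.card I := by
  have h1 : range (lev x + 1) ⊆ univ.image lev := by
    intro k hk
    rw [mem_range, Nat.lt_succ_iff] at hk
    rw [mem_image]
    rcases Nat.lt_or_ge k (lev x) with h | h
    · obtain ⟨y, hy⟩ := hlev x k h
      exact ⟨y, mem_univ _, hy⟩
    · exact ⟨x, mem_univ _, by omega⟩
  have h2 := card_le_card h1
  rw [card_range] at h2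
  have h3 := card_image_le (s := (univ : Finset I)) (f := lev)
  rw [card_univ] at h3
  omega

/-- the level functions with the property `C` -/
noncomputable def Lam (C : (I → ℕ) → Prop) : Finset (I → ℕ) :=
  open Classical in
  (Fintype.piFinset fun _ => range (Fintype.card I)).filter (fun lev => IsLev lev ∧ C lev)

lemma mem_Lam (C : (I → ℕ) → Prop) (lev : I → ℕ) : lev ∈ Lam C ↔ IsLev lev ∧ C lev := by
  classical
  unfold Lam
  rw [mem_filter, Fintype.mem_piFinset]
  constructor
  · exact fun h => h.2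
  · intro h
    exact ⟨fun x => mem_range.2 (isLev_lt lev h.1 x), h⟩

/-- the maps to `{0, …, T}` with the property `C` -/
noncomputable def Bd (C : (I → ℕ) → Prop) (T : ℕ) : Finset (I → ℕ) :=
  open Classical in
  (Fintype.piFinset fun _ => range (T + 1)).filter (fun g => C g)

lemma mem_Bd (C : (I → ℕ) → Prop) (T : ℕ) (g : I → ℕ) :
    g ∈ Bd C T ↔ (∀ x, g x ≤ T) ∧ C g := by
  classical
  unfold Bd
  rw [mem_filter, Fintype.mem_piFinset]
  simp only [mem_range, Nat.lt_succ_iff]

lemma card_Bd (C : (I → ℕ) → Prop)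
    (hinv : ∀ lev g : I → ℕ, IsLev lev → InCls lev g → (C g ↔ C lev))
    (hmin : ∀ g, C g → ∃ x, g x % 2 = 0 ∧ ∀ y, g x ≤ g y) (T : ℕ) :
    (Bd C T).card = ∑ lev ∈ Lam C, (Cls lev T).card := by
  rw [card_eq_sum_card_fiberwise (f := fun g => fun x => ell g (g x)) (t := Lam C)]
  · refine sum_congr rfl fun lev hlev => ?_
    rw [mem_Lam] at hlev
    congr 1
    ext g
    rw [mem_filter, mem_Bd, mem_Cls]
    constructor
    · rintro ⟨⟨h1, h2⟩, h3⟩
      refine ⟨h1, ?_⟩
      rw [← h3]
      exact inCls_ell g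
    · rintro ⟨h1, h2⟩
      refine ⟨⟨h1, (hinv lev g hlev.1 h2).2 hlev.2⟩, ?_⟩
      funext x
      exact ell_eq hlev.1 h2 x
  · intro g hg
    rw [mem_coe, mem_Bd] at hg
    obtain ⟨x, hx1, hx2⟩ := hmin g hg.2
    have h1 := isLev_ell g x hx1 hx2
    rw [mem_coe, mem_Lam]
    exact ⟨h1, (hinv _ g h1 (inCls_ell g)).1 hg.2⟩

end Pool.Agent.Helper31K9.Ehr
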