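import Mathlib
import Pool.Agent.Helper31K9.EhrD

/-!
The maps attached to the lattice points of the cyclic block polytopes.
-/

set_option autoImplicit false
set_option linter.unusedSectionVars false

namespace Pool.Agent.Helper31K9.Ehr

open Polynomial Finset

/-- comparison of signed values: `(g, s)` is larger than `(g', s')`, where `false` means positive and
small `g` means large absolute value -/
def Cmp (g g' : ℕ) (s s' : Bool) : Prop :=
  (s = false ∧ s' = true) ∨ (s = false ∧ s' = false ∧ g < g') ∨ (s = true ∧ s' = true ∧ g' < g)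

variable {m b : ℕ} [NeZero m]

/-- the conditions on the maps -/
def CC (σ : Fin m × Fin (b + 1) → Bool) (g : Fin m × Fin (b + 1) → ℕ) : Prop :=
  (∀ x, g x % 2 = (x.2.val + (σ x).toNat) % 2) ∧
  (∀ (i : Fin m) (j : Fin b), Cmp (g (i, j.castSucc)) (g (i, j.succ))
    (σ (i, j.castSucc)) (σ (i, j.succ))) ∧
  ∀ i : Fin m, Cmp (g (i, Fin.last b)) (g (i + 1, Fin.last b))
    (σ (i, Fin.last b)) (!σ (i + 1, Fin.last b))

lemma CC_inv (σ : Fin m × Fin (b + 1) → Bool) (lev g : Fin m × Fin (b + 1) → ℕ)
    (_hlev : IsLev lev) (h : InCls lev g) : CC σ g ↔ CC σ lev := by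
  have key : ∀ x x', lev x % 2 ≠ lev x' % 2 → (g x < g x' ↔ lev x < lev x') := by
    intro x x' hne
    constructor
    · intro h1
      by_contra h2
      have h3 : lev x' < lev x := by
        rcases Nat.lt_trichotomy (lev x') (lev x) with h4 | h4 | h4
        · exact h4
        · rw [h4] at hne; exact absurd rfl hne
        · exact absurd h4 h2
      have := h.2 _ _ h3
      omega
    · exact h.2 _ _
  have hc : (∀ x, g x % 2 = (x.2.val + (σ x).toNat) % 2) ↔
      (∀ x, lev x % 2 = (x.2.val + (σ x).toNat) % 2) :=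
    forall_congr' fun x => by rw [h.1 x]
  unfold CC
  rw [hc]
  refine and_congr_right fun hp => ?_
  refine and_congr ?_ ?_
  · refine forall_congr' fun i => forall_congr' fun j => ?_
    have p1 := hp (i, j.castSucc)
    have p2 := hp (i, j.succ)
    simp only [Fin.val_castSucc, Fin.val_succ] at p1 p2
    unfold Cmp
    cases hs : σ (i, j.castSucc) <;> cases hs' : σ (i, j.succ) <;>
      rw [hs] at p1 <;> rw [hs'] at p2 <;> simp only [Bool.toNat_false, Bool.toNat_true] at p1 p2 <;>
      simp
    · exact key _ _ (by omega)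
    · exact key _ _ (by omega)
  · refine forall_congr' fun i => ?_
    have p1 := hp (i, Fin.last b)
    have p2 := hp (i + 1, Fin.last b)
    simp only [Fin.val_last] at p1 p2
    unfold Cmp
    cases hs : σ (i, Fin.last b) <;> cases hs' : σ (i + 1, Fin.last b) <;>
      rw [hs] at p1 <;> rw [hs'] at p2 <;> simp only [Bool.toNat_false, Bool.toNat_true] at p1 p2 <;>
      simp
    · exact key _ _ (by omega)
    · exact key _ _ (by omega)

lemma CC_min (σ : Fin m × Fin (b + 1) → Bool) (g : Fin m × Fin (b + 1) → ℕ) (h : CC σ g) :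
    ∃ x, g x % 2 = 0 ∧ ∀ y, g x ≤ g y := by
  obtain ⟨h1, h2, h3⟩ := h
  obtain ⟨⟨i, j⟩, -, hx⟩ := exists_min_image (univ : Finset (Fin m × Fin (b + 1))) g
    ⟨(0, 0), mem_univ _⟩
  refine ⟨(i, j), ?_, fun y => hx y (mem_univ _)⟩
  have hp := h1 (i, j)
  cases hs : σ (i, j)
  · -- positive: then `j = 0`
    rw [hs] at hp
    induction j using Fin.cases with
    | zero => simpa using hp
    | succ k =>
      exfalso
      have h4 := h2 i k
      rw [hs] at h4
      rcases h4 with ⟨_, h5⟩ | ⟨_, _, h5⟩ | ⟨_, h5, _⟩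
      · exact Bool.noConfusion h5
      · have := hx (i, k.castSucc) (mem_univ _)
        omega
      · exact Bool.noConfusion h5
  · exfalso
    induction j using Fin.lastCases with
    | last =>
      have h4 := h3 i
      rw [hs] at h4
      rcases h4 with ⟨h5, _⟩ | ⟨h5, _, _⟩ | ⟨_, _, h5⟩
      · exact Bool.noConfusion h5
      · exact Bool.noConfusion h5
      · have := hx (i + 1, Fin.last b) (mem_univ _)
        omega
    | cast k =>
      have h4 := h2 i k
      rw [hs] at h4
      rcases h4 with ⟨h5, _⟩ | ⟨h5, _, _⟩ | ⟨_, _, h5⟩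
      · exact Bool.noConfusion h5
      · exact Bool.noConfusion h5
      · have := hx (i, k.succ) (mem_univ _)
        omega

lemma CC_big (σ : Fin m × Fin (b + 1) → Bool) (g : Fin m × Fin (b + 1) → ℕ) (h : CC σ g) :
    ∃ x, b ≤ g x := by
  obtain ⟨h1, h2, h3⟩ := h
  -- a block with positive last element
  have hpos : ∃ i, σ (i, Fin.last b) = false := by
    by_contra hc
    push Not at hc
    have h4 := h3 0
    have h5 := hc 0
    have h6 := hc (0 + 1)
    rw [Bool.ne_false_iff] at h5 h6
    rw [h5, h6] at h4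
    rcases h4 with ⟨h5, _⟩ | ⟨h5, _, _⟩ | ⟨_, h5, _⟩ <;> exact Bool.noConfusion h5
  obtain ⟨i, hi⟩ := hpos
  have hall : ∀ j : Fin (b + 1), σ (i, j) = false := by
    intro j
    induction j using Fin.reverseInduction with
    | last => exact hi
    | cast k ih =>
      have h4 := h2 i k
      rw [ih] at h4
      rcases h4 with ⟨_, h5⟩ | ⟨h5, _, _⟩ | ⟨_, h5, _⟩
      · exact Bool.noConfusion h5
      · exact h5
      · exact Bool.noConfusion h5
  refine ⟨(i, Fin.last b), ?_⟩
  have : ∀ j : Fin (b + 1), j.val ≤ g (i, j) := by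
    intro j
    induction j using Fin.induction with
    | zero => exact Nat.zero_le _
    | succ k ih =>
      have h4 := h2 i k
      rw [hall, hall] at h4
      rcases h4 with ⟨_, h5⟩ | ⟨_, _, h5⟩ | ⟨h5, _, _⟩
      · exact Bool.noConfusion h5
      · simp only [Fin.val_castSucc] at ih
        simp only [Fin.val_succ]
        omega
      · exact Bool.noConfusion h5
  simpa using this (Fin.last b)

end Pool.Agent.Helper31K9.Ehr
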