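import Mathlib
import Pool.Agent.Helper31K9.EhrE

/-!
The lattice points and the maps.
-/

set_option autoImplicit false
set_option linter.unusedSectionVars false

namespace Pool.Agent.Helper31K9.Ehr

open Polynomial Finset

variable {m b : ℕ} [NeZero m]

/-- the lattice points, as natural number vectors -/
noncomputable def XX (m b : ℕ) [NeZero m] (q : ℕ) : Finset (Fin m → Fin (b + 1) → ℕ) :=
  (Fintype.piFinset fun _ => Fintype.piFinset fun _ => range (q + 1)).filter
    (fun x => ∀ i : Fin m, (∑ j, x i j) + (∑ j, x (i + 1) j) ≤ q)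

lemma mem_XX (q : ℕ) (x : Fin m → Fin (b + 1) → ℕ) :
    x ∈ XX m b q ↔ ∀ i : Fin m, (∑ j, x i j) + (∑ j, x (i + 1) j) ≤ q := by
  unfold XX
  rw [mem_filter]
  constructor
  · exact fun h => h.2
  · intro h
    refine ⟨?_, h⟩
    rw [Fintype.mem_piFinset]
    intro i
    rw [Fintype.mem_piFinset]
    intro j
    rw [mem_range, Nat.lt_succ_iff]
    have h1 := h i
    have h2 : x i j ≤ ∑ j, x i j :=
      single_le_sum (f := fun j => x i j) (fun _ _ => Nat.zero_le _) (mem_univ j)
    omega

/-- partial sums -/
def ps (x : Fin (b + 1) → ℕ) (j : Fin (b + 1)) : ℕ := Fin.partialSum x j.succ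

lemma ps_zero (x : Fin (b + 1) → ℕ) : ps x 0 = x 0 := by
  unfold ps
  rw [Fin.partialSum_succ, Fin.castSucc_zero, Fin.partialSum_zero, zero_add]

lemma ps_succ (x : Fin (b + 1) → ℕ) (k : Fin b) : ps x k.succ = ps x k.castSucc + x k.succ := by
  unfold ps
  rw [Fin.partialSum_succ x k.succ, Fin.succ_castSucc]

lemma ps_last (x : Fin (b + 1) → ℕ) : ps x (Fin.last b) = ∑ j, x j := by
  unfold ps Fin.partialSum
  rw [Fin.val_succ, Fin.val_last, List.take_of_length_le (by simp), List.sum_ofFn]

lemma ps_le (x : Fin (b + 1) → ℕ) (j : Fin (b + 1)) : ps x j ≤ ∑ j, x j := by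
  rw [← ps_last]
  induction j using Fin.reverseInduction with
  | last => exact le_rfl
  | cast k ih =>
    rw [ps_succ] at ih
    omega

/-- recover a vector from the strictly increasing sequence `G j = 2 ps j + j` -/
def unG (G : Fin (b + 1) → ℕ) (j : Fin (b + 1)) : ℕ :=
  Fin.cases (G 0 / 2) (fun k => (G k.succ - G k.castSucc - 1) / 2) j

lemma ps_unG (G : Fin (b + 1) → ℕ) (hp : ∀ j, G j % 2 = j.val % 2)
    (hm : ∀ k : Fin b, G k.castSucc < G k.succ) (j : Fin (b + 1)) :
    2 * ps (unG G) j + j.val = G j := by
  induction j using Fin.induction with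
  | zero =>
    rw [ps_zero]
    have := hp 0
    simp only [Fin.val_zero] at this
    show 2 * (G 0 / 2) + (0 : Fin (b + 1)).val = G 0
    rw [Fin.val_zero]
    omega
  | succ k ih =>
    rw [ps_succ]
    have h1 := hp k.succ
    have h2 := hp k.castSucc
    have h3 := hm k
    have h4 : unG G k.succ = (G k.succ - G k.castSucc - 1) / 2 := rfl
    rw [h4]
    simp only [Fin.val_castSucc, Fin.val_succ] at *
    omega

lemma unG_ps (x : Fin (b + 1) → ℕ) : unG (fun j => 2 * ps x j + j.val) = x := by
  funext j
  induction j using Fin.cases with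
  | zero =>
    show (2 * ps x 0 + (0 : Fin (b + 1)).val) / 2 = x 0
    rw [ps_zero, Fin.val_zero]
    omega
  | succ k =>
    show (2 * ps x k.succ + k.succ.val - (2 * ps x k.castSucc + k.castSucc.val) - 1) / 2 = x k.succ
    rw [ps_succ]
    simp only [Fin.val_castSucc, Fin.val_succ]
    omega

lemma card_XX (q : ℕ) : (XX m b q).card =
    ∑ σ : Fin m × Fin (b + 1) → Bool, (Bd (CC σ) (q + b)).card := by
  rw [← card_sigma (univ : Finset (Fin m × Fin (b + 1) → Bool)) (fun σ => Bd (CC σ) (q + b))]
  refine card_nbij'
    (fun x => ⟨fun p => decide (q + b < 2 * ps (x p.1) p.2 + p.2.val),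
      fun p => if q + b < 2 * ps (x p.1) p.2 + p.2.val then
        2 * (q + b) + 1 - (2 * ps (x p.1) p.2 + p.2.val) else 2 * ps (x p.1) p.2 + p.2.val⟩)
    (fun p => fun i => unG fun j => if p.1 (i, j) = true then 2 * (q + b) + 1 - p.2 (i, j)
      else p.2 (i, j)) ?_ ?_ ?_ ?_
  · intro x hx
    rw [mem_coe, mem_XX] at hx
    rw [mem_coe, mem_sigma]
    refine ⟨mem_univ _, ?_⟩
    rw [mem_Bd]
    have hR : ∀ i, ∑ j, x i j ≤ q := fun i => by have := hx i; omega
    have hj : ∀ j : Fin (b + 1), j.val ≤ b := fun j => Nat.lt_succ_iff.1 j.2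
    have hle : ∀ i j, 2 * ps (x i) j + j.val ≤ 2 * (q + b) := fun i j => by
      have h1 := ps_le (x i) j
      have h2 := hR i
      have h3 := hj j
      omega
    refine ⟨?_, ?_, ?_, ?_⟩
    · rintro ⟨i, j⟩
      simp only
      split_ifs with h
      · omega
      · omega
    · rintro ⟨i, j⟩
      have h1 := hle i j
      simp only
      split_ifs with h
      · simp only [h, decide_true, Bool.toNat_true]
        omega
      · simp only [h, decide_false, Bool.toNat_false]
        omega
    · intro i k
      have h1 := ps_succ (x i) k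
      have h2 := hle i k.succ
      simp only [Fin.val_castSucc, Fin.val_succ] at *
      unfold Cmp
      by_cases ha : q + b < 2 * ps (x i) k.castSucc + k.val <;>
      by_cases hb : q + b < 2 * ps (x i) k.succ + (k.val + 1) <;>
      simp only [ha, hb, decide_true, decide_false, if_true, if_false] <;> simp <;> omega
    · intro i
      have h1 := ps_last (x i)
      have h2 := ps_last (x (i + 1))
      have h3 := hx i
      have h4 := hle i (Fin.last b)
      have h5 := hle (i + 1) (Fin.last b)
      simp only [Fin.val_last] at *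
      unfold Cmp
      by_cases ha : q + b < 2 * ps (x i) (Fin.last b) + b <;>
      by_cases hb : q + b < 2 * ps (x (i + 1)) (Fin.last b) + b <;>
      simp only [ha, hb, decide_true, decide_false, if_true, if_false] <;> simp <;> omega
  · rintro ⟨σ, g⟩ hp
    rw [mem_coe, mem_sigma, mem_Bd] at hp
    obtain ⟨-, h0, h1, h2, h3⟩ := hp
    simp only at h0 h1 h2 h3
    rw [mem_coe, mem_XX]
    intro i
    have hps : ∀ i j, 2 * ps (unG fun j => if σ (i, j) = true then 2 * (q + b) + 1 - g (i, j)
      else g (i, j)) j + j.val = if σ (i, j) = true then 2 * (q + b) + 1 - g (i, j)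
      else g (i, j) := by
      intro i j
      refine ps_unG (fun j => if σ (i, j) = true then 2 * (q + b) + 1 - g (i, j)
        else g (i, j)) ?_ ?_ j
      · intro j
        have := h1 (i, j)
        have := h0 (i, j)
        simp only at *
        cases hs : σ (i, j) <;> simp only [hs, Bool.toNat_true, Bool.toNat_false, if_true,
          Bool.false_eq_true, if_false] at * <;> omega
      · intro k
        have h4 := h2 i k
        have := h0 (i, k.castSucc)
        have := h0 (i, k.succ)
        unfold Cmp at h4
        cases hs : σ (i, k.castSucc) <;> cases hs' : σ (i, k.succ) <;>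
          simp [hs, hs'] at h4 ⊢ <;> omega
    simp only
    rw [← ps_last, ← ps_last]
    have e1 := hps i (Fin.last b)
    have e2 := hps (i + 1) (Fin.last b)
    rw [Fin.val_last] at e1 e2
    have h4 := h3 i
    have h5 := h0 (i, Fin.last b)
    have h6 := h0 (i + 1, Fin.last b)
    unfold Cmp at h4
    cases hs : σ (i, Fin.last b) <;> cases hs' : σ (i + 1, Fin.last b) <;>
      rw [hs] at e1 <;> rw [hs'] at e2 <;>
      simp [hs, hs'] at h4 e1 e2 <;> omega
  · intro x hx
    rw [mem_coe, mem_XX] at hx
    have hR : ∀ i, ∑ j, x i j ≤ q := fun i => by have := hx i; omega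
    have hj : ∀ j : Fin (b + 1), j.val ≤ b := fun j => Nat.lt_succ_iff.1 j.2
    have hle : ∀ i j, 2 * ps (x i) j + j.val ≤ 2 * (q + b) := fun i j => by
      have h1 := ps_le (x i) j
      have h2 := hR i
      have h3 := hj j
      omega
    funext i
    conv_rhs => rw [← unG_ps (x i)]
    simp only
    congr 1
    funext j
    have := hle i j
    by_cases h : q + b < 2 * ps (x i) j + j.val
    · simp only [h, decide_true, if_true]
      omega
    · simp only [h, decide_false, if_false, Bool.false_eq_true]
  · rintro ⟨σ, g⟩ hp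
    rw [mem_coe, mem_sigma, mem_Bd] at hp
    obtain ⟨-, h0, h1, h2, h3⟩ := hp
    simp only at h0 h1 h2 h3
    have hps : ∀ i j, 2 * ps (unG fun j => if σ (i, j) = true then 2 * (q + b) + 1 - g (i, j)
      else g (i, j)) j + j.val = if σ (i, j) = true then 2 * (q + b) + 1 - g (i, j)
      else g (i, j) := by
      intro i j
      refine ps_unG (fun j => if σ (i, j) = true then 2 * (q + b) + 1 - g (i, j)
        else g (i, j)) ?_ ?_ j
      · intro j
        have := h1 (i, j)
        have := h0 (i, j)
        simp only at *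
        cases hs : σ (i, j) <;> simp only [hs, Bool.toNat_true, Bool.toNat_false, if_true,
          Bool.false_eq_true, if_false] at * <;> omega
      · intro k
        have h4 := h2 i k
        have := h0 (i, k.castSucc)
        have := h0 (i, k.succ)
        unfold Cmp at h4
        cases hs : σ (i, k.castSucc) <;> cases hs' : σ (i, k.succ) <;>
          simp [hs, hs'] at h4 ⊢ <;> omega
    simp only [hps]
    have e1 : (fun p : Fin m × Fin (b + 1) => decide (q + b < if σ (p.1, p.2) = true then
        2 * (q + b) + 1 - g (p.1, p.2) else g (p.1, p.2))) = σ := by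
      funext p
      have h4 := h0 p
      cases hs : σ (p.1, p.2)
      · have : ¬ q + b < g p := by omega
        simp [this]
      · have : q + b < 2 * (q + b) + 1 - g p := by omega
        simp [this]
    have e2 : (fun p : Fin m × Fin (b + 1) => if q + b < (if σ (p.1, p.2) = true then
        2 * (q + b) + 1 - g (p.1, p.2) else g (p.1, p.2)) then 2 * (q + b) + 1 -
        (if σ (p.1, p.2) = true then 2 * (q + b) + 1 - g (p.1, p.2) else g (p.1, p.2)) else
        (if σ (p.1, p.2) = true then 2 * (q + b) + 1 - g (p.1, p.2) else g (p.1, p.2))) = g := by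
      funext p
      have h4 := h0 p
      cases hs : σ (p.1, p.2)
      · have : ¬ q + b < g p := by omega
        simp [this]
      · have : q + b < 2 * (q + b) + 1 - g p := by omega
        simp [this]
        omega
    rw [e1, e2]

end Pool.Agent.Helper31K9.Ehr
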