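import Mathlib
import Pool.Agent.Helper31K9.EhrF

/-!
Symmetric unimodal polynomials, and the numerator.
-/

set_option autoImplicit false
set_option linter.unusedSectionVars false

namespace Pool.Agent.Helper31K9.Ehr

open Polynomial Finset

/-- symmetric about `c + 1/2`, nonnegative and increasing up to the middle -/
def Good (c : ℕ) (p : ℤ[X]) : Prop :=
  (∀ k, 0 ≤ p.coeff k) ∧ (∀ k, k ≤ 2 * c + 1 → p.coeff k = p.coeff (2 * c + 1 - k)) ∧
  (∀ k, 2 * c + 1 < k → p.coeff k = 0) ∧ ∀ k, k < c → p.coeff k ≤ p.coeff (k + 1)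

lemma good_zero (c : ℕ) : Good c 0 := by
  refine ⟨?_, ?_, ?_, ?_⟩ <;> simp

lemma Good.add {c : ℕ} {p q : ℤ[X]} (hp : Good c p) (hq : Good c q) : Good c (p + q) := by
  obtain ⟨p1, p2, p3, p4⟩ := hp
  obtain ⟨q1, q2, q3, q4⟩ := hq
  refine ⟨fun k => ?_, fun k hk => ?_, fun k hk => ?_, fun k hk => ?_⟩
  · rw [coeff_add]; exact add_nonneg (p1 k) (q1 k)
  · rw [coeff_add, coeff_add, p2 k hk, q2 k hk]
  · rw [coeff_add, p3 k hk, q3 k hk, add_zero]
  · rw [coeff_add, coeff_add]; exact add_le_add (p4 k hk) (q4 k hk)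

lemma coeff_one_add_X_mul_expand' (f : ℤ[X]) (j : ℕ) :
    ((1 + X) * Polynomial.expand ℤ 2 f).coeff j = f.coeff (j / 2) := by
  rw [add_mul, one_mul, coeff_add]
  rcases j with _ | j
  · rw [mul_comm X, mul_coeff_zero, coeff_X_zero, mul_zero, Polynomial.coeff_expand two_pos]
    simp
  · rw [coeff_X_mul, Polynomial.coeff_expand two_pos, Polynomial.coeff_expand two_pos]
    rcases Nat.even_or_odd' j with ⟨k, rfl | rfl⟩
    · rw [if_neg (by omega), if_pos (by omega), zero_add]
      congr 1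
      omega
    · rw [if_pos (by omega), if_neg (by omega), add_zero]

lemma coeff_gen (e j k : ℕ) :
    ((X : ℤ[X]) ^ e * ((1 + X) * (1 + X ^ 2) ^ j)).coeff k =
      if e ≤ k then ((j.choose ((k - e) / 2) : ℕ) : ℤ) else 0 := by
  have h1 : ((1 : ℤ[X]) + X ^ 2) ^ j = Polynomial.expand ℤ 2 ((1 + X) ^ j) := by
    rw [map_pow, map_add, map_one, expand_X]
  rw [coeff_X_pow_mul', h1]
  split_ifs with h
  · rw [coeff_one_add_X_mul_expand', coeff_one_add_X_pow]
  · rfl

lemma good_gen (e j c : ℕ) (h : e + j = c) :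
    Good c ((X : ℤ[X]) ^ e * ((1 + X) * (1 + X ^ 2) ^ j)) := by
  subst h
  refine ⟨fun k => ?_, fun k hk => ?_, fun k hk => ?_, fun k hk => ?_⟩
  · rw [coeff_gen]; split_ifs <;> positivity
  · rw [coeff_gen, coeff_gen]
    split_ifs with h1 h2 h2
    · have h3 : (k - e) / 2 ≤ j := by omega
      have h4 : (2 * (e + j) + 1 - k - e) / 2 = j - (k - e) / 2 := by omega
      rw [h4, Nat.choose_symm h3]
    · have h3 : j < (k - e) / 2 := by omega
      rw [Nat.choose_eq_zero_of_lt h3]; rfl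
    · have h3 : j < (2 * (e + j) + 1 - k - e) / 2 := by omega
      rw [Nat.choose_eq_zero_of_lt h3]; rfl
    · rfl
  · rw [coeff_gen]
    split_ifs with h1
    · have h3 : j < (k - e) / 2 := by omega
      rw [Nat.choose_eq_zero_of_lt h3]; rfl
    · rfl
  · rw [coeff_gen, coeff_gen]
    split_ifs with h1 h2 h2
    · rcases Nat.even_or_odd' (k - e) with ⟨i, hi | hi⟩
      · have e1 : (k - e) / 2 = i := by omega
        have e2 : (k + 1 - e) / 2 = i := by omega
        rw [e1, e2]
      · have e1 : (k - e) / 2 = i := by omega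
        have e2 : (k + 1 - e) / 2 = i + 1 := by omega
        rw [e1, e2]
        exact_mod_cast Nat.choose_le_succ_of_lt_half_left (by omega)
    · omega
    · positivity
    · exact le_rfl

lemma good_of_mem_S {d : ℕ} {B : ℤ[X]} (hB : B ∈ S d) (e c : ℕ) (h : e + d = c) :
    Good c ((X : ℤ[X]) ^ e * ((1 + X) * Polynomial.expand ℤ 2 B)) := by
  induction hB using AddSubmonoid.closure_induction with
  | mem p hp =>
    obtain ⟨i, j, hij, rfl⟩ := hp
    have h1 : (X : ℤ[X]) ^ e * ((1 + X) * Polynomial.expand ℤ 2 (X ^ i * (1 + X) ^ j)) =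
        X ^ (e + 2 * i) * ((1 + X) * (1 + X ^ 2) ^ j) := by
      rw [map_mul, map_pow, map_pow, map_add, map_one, expand_X]
      ring
    rw [h1]
    exact good_gen _ _ _ (by omega)
  | zero => simpa using good_zero c
  | add p₁ p₂ _ _ h1 h2 =>
    rw [map_add, mul_add, mul_add]
    exact h1.add h2

lemma good_sum {ι : Type} (s : Finset ι) (c : ℕ) (f : ι → ℤ[X]) (h : ∀ i ∈ s, Good c (f i)) :
    Good c (∑ i ∈ s, f i) := by
  classical
  induction s using Finset.induction_on with
  | empty => simpa using good_zero c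
  | insert a s ha ih =>
    rw [sum_insert ha]
    exact (h a (mem_insert_self a s)).add (ih fun i hi => h i (mem_insert_of_mem hi))

/-- coefficients increase up to some point and decrease from there on -/
def Unimodal (h : ℤ[X]) : Prop :=
  ∃ t : ℕ, (∀ i, i < t → h.coeff i ≤ h.coeff (i + 1)) ∧ ∀ i, t ≤ i → h.coeff (i + 1) ≤ h.coeff i

lemma Good.unimodal {c : ℕ} {p : ℤ[X]} (h : Good c p) : Unimodal p := by
  obtain ⟨h1, h2, h3, h4⟩ := h
  refine ⟨c, h4, fun i hi => ?_⟩
  rcases Nat.lt_or_ge (2 * c + 1) (i + 1) with h5 | h5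
  · rw [h3 _ h5]; exact h1 i
  · rw [h2 (i + 1) h5, h2 i (by omega)]
    rcases Nat.eq_or_lt_of_le hi with h6 | h6
    · subst h6
      have e1 : 2 * c + 1 - (c + 1) = c := by omega
      have e2 : 2 * c + 1 - c = c + 1 := by omega
      rw [e1, e2, h2 (c + 1) (by omega), e1]
    · have e1 : 2 * c + 1 - i = 2 * c + 1 - (i + 1) + 1 := by omega
      rw [e1]
      exact h4 _ (by omega)

variable {m b : ℕ} [NeZero m]

theorem numerator (m b : ℕ) [NeZero m] :
    ∃ h : ℤ[X], Good ((b + 1) * m - (b + 1)) h ∧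
      (PowerSeries.mk fun q => ((XX m b q).card : ℤ)) *
        (1 - PowerSeries.X ^ 2) ^ ((b + 1) * m + 1) = (h : PowerSeries ℤ) := by
  classical
  set n := (b + 1) * m with hn
  have hcardI : Fintype.card (Fin m × Fin (b + 1)) = n := by
    rw [Fintype.card_prod, Fintype.card_fin, Fintype.card_fin, hn, mul_comm]
  -- every level function gives a good polynomial
  have hterm : ∀ (σ : Fin m × Fin (b + 1) → Bool) (lev : Fin m × Fin (b + 1) → ℕ),
      ∃ P : ℤ[X], lev ∈ Lam (CC σ) → Good (n - (b + 1)) P ∧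
        (PowerSeries.mk fun T => ((Cls lev T).card : ℤ)) * (1 - PowerSeries.X ^ 2) ^ (n + 1) =
        ((X ^ b * P : ℤ[X]) : PowerSeries ℤ) := by
    intro σ lev
    by_cases hlev : lev ∈ Lam (CC σ)
    · rw [mem_Lam] at hlev
      obtain ⟨hl, hC⟩ := hlev
      obtain ⟨x₀, hx₀, hmax⟩ := exists_max_image (univ : Finset (Fin m × Fin (b + 1))) lev
        ⟨(0, 0), mem_univ _⟩
      obtain ⟨xb, hxb⟩ := CC_big σ lev hC
      have hKb : b ≤ lev x₀ := hxb.trans (hmax xb (mem_univ _))
      obtain ⟨h1, B, hB, hBe⟩ := main_C lev (lev x₀) (fun k hk => by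
        rcases Nat.lt_or_ge k (lev x₀) with h | h
        · exact hl x₀ k h
        · exact ⟨x₀, by omega⟩) (fun x => Nat.lt_succ_of_le (hmax x (mem_univ _)))
      rw [hcardI] at h1 hB hBe
      refine ⟨X ^ (lev x₀ - b) * ((1 + X) * Polynomial.expand ℤ 2 B), fun _ => ⟨?_, ?_⟩⟩
      · exact good_of_mem_S hB _ _ (by omega)
      · rw [hBe]
        have e : (X : ℤ[X]) ^ lev x₀ = X ^ b * X ^ (lev x₀ - b) := by
          rw [← pow_add]
          congr 1
          omega
        rw [e, mul_assoc]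
    · exact ⟨0, fun h => absurd h hlev⟩
  choose P hP using hterm
  refine ⟨∑ σ : Fin m × Fin (b + 1) → Bool, ∑ lev ∈ Lam (CC σ), P σ lev, ?_, ?_⟩
  · exact good_sum _ _ _ fun σ _ => good_sum _ _ _ fun lev hlev => (hP σ lev hlev).1
  · -- generating function of all maps
    set N : ℕ → ℤ := fun T => ∑ σ : Fin m × Fin (b + 1) → Bool, ((Bd (CC σ) T).card : ℤ) with hN
    have hzero : ∀ T, T < b → N T = 0 := by
      intro T hT
      rw [hN]
      refine sum_eq_zero fun σ _ => ?_
      have : Bd (CC σ) T = ∅ := by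
        rw [eq_empty_iff_forall_notMem]
        intro g hg
        rw [mem_Bd] at hg
        obtain ⟨x, hx⟩ := CC_big σ g hg.2
        have := hg.1 x
        omega
      rw [this, card_empty]; rfl
    have hshift : PowerSeries.mk N = PowerSeries.X ^ b *
        PowerSeries.mk (fun q => ((XX m b q).card : ℤ)) := by
      ext T
      rw [PowerSeries.coeff_mk, PowerSeries.coeff_X_pow_mul']
      split_ifs with h
      · rw [PowerSeries.coeff_mk, card_XX, Nat.sub_add_cancel h, hN]
        push_cast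
        rfl
      · exact hzero T (by omega)
    have hsum : PowerSeries.mk N = ∑ σ : Fin m × Fin (b + 1) → Bool, ∑ lev ∈ Lam (CC σ),
        PowerSeries.mk fun T => ((Cls lev T).card : ℤ) := by
      ext T
      rw [PowerSeries.coeff_mk, map_sum, hN]
      refine sum_congr rfl fun σ _ => ?_
      rw [map_sum, card_Bd (CC σ) (CC_inv σ) (CC_min σ) T]
      push_cast
      refine sum_congr rfl fun lev _ => ?_
      rw [PowerSeries.coeff_mk]
    have hfin : PowerSeries.X ^ b * ((PowerSeries.mk fun q => ((XX m b q).card : ℤ)) *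
        (1 - PowerSeries.X ^ 2) ^ (n + 1)) = PowerSeries.X ^ b *
        ((∑ σ : Fin m × Fin (b + 1) → Bool, ∑ lev ∈ Lam (CC σ), P σ lev : ℤ[X]) :
          PowerSeries ℤ) := by
      rw [← mul_assoc, ← hshift, hsum, sum_mul]
      have e1 : PowerSeries.X ^ b *
          ((∑ σ : Fin m × Fin (b + 1) → Bool, ∑ lev ∈ Lam (CC σ), P σ lev : ℤ[X]) :
          PowerSeries ℤ) = ((X ^ b * ∑ σ : Fin m × Fin (b + 1) → Bool,
            ∑ lev ∈ Lam (CC σ), P σ lev : ℤ[X]) : PowerSeries ℤ) := by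
        rw [Polynomial.coe_mul, Polynomial.coe_pow, Polynomial.coe_X]
      rw [e1, mul_sum]
      have e2 : ∀ (s : Finset (Fin m × Fin (b + 1) → Bool))
          (f : (Fin m × Fin (b + 1) → Bool) → ℤ[X]),
          ((∑ i ∈ s, f i : ℤ[X]) : PowerSeries ℤ) = ∑ i ∈ s, (f i : PowerSeries ℤ) := fun s f =>
        map_sum (Polynomial.coeToPowerSeries.ringHom (R := ℤ)) f s
      have e3 : ∀ (s : Finset (Fin m × Fin (b + 1) → ℕ))
          (f : (Fin m × Fin (b + 1) → ℕ) → ℤ[X]),
          ((∑ i ∈ s, f i : ℤ[X]) : PowerSeries ℤ) = ∑ i ∈ s, (f i : PowerSeries ℤ) := fun s f =>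
        map_sum (Polynomial.coeToPowerSeries.ringHom (R := ℤ)) f s
      rw [e2]
      refine sum_congr rfl fun σ _ => ?_
      rw [mul_sum, e3, sum_mul]
      refine sum_congr rfl fun lev hlev => ?_
      exact (hP σ lev hlev).2
    exact mul_left_cancel₀ (pow_ne_zero _ PowerSeries.X_ne_zero) hfin

end Pool.Agent.Helper31K9.Ehr
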