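import Mathlib

/-!
# The rank-symmetric order on subsets (MP_ec2aec_co): definitions, heights, and a supply of edges
-/

namespace Pool.Agent.Helper31K9.SymTree

open Finset

variable {n : ℕ}

/-- `|x ∩ [i,j]| = |[i,j] \ x|`. -/
def Bal (x : Finset (Fin n)) (i j : Fin n) : Prop :=
  (x ∩ Icc i j).card = (Icc i j \ x).card

/-- `i` is matched in the bracket matching of `x`. -/
def Matched (x : Finset (Fin n)) (i : Fin n) : Prop :=
  (i ∈ x ∧ ∃ j, i < j ∧ Bal x i j) ∨ (i ∉ x ∧ ∃ j, j < i ∧ Bal x j i)

open Classical in
/-- `M⁺(x)`: the matched elements of `x`. -/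
noncomputable def Mplus (x : Finset (Fin n)) : Finset (Fin n) := x.filter (Matched x)

open Classical in
/-- The unmatched elements of the ground set. -/
noncomputable def Unm (x : Finset (Fin n)) : Finset (Fin n) :=
  univ.filter (fun i => ¬ Matched x i)

/-- `c ∈ C(x)`: `c` is the union of `M⁺(x)` and a final segment of the unmatched elements. -/
def InChain (x c : Finset (Fin n)) : Prop :=
  ∃ T : Finset (Fin n), T ⊆ Unm x ∧ (∀ u ∈ T, ∀ v ∈ Unm x, u ≤ v → v ∈ T) ∧ c = Mplus x ∪ T

/-- `c = p(x)`: the member `c` of `C(x)` with `|x| + |c| = n`. -/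
def IsP (x c : Finset (Fin n)) : Prop := InChain x c ∧ x.card + c.card = n

/-- The order `y ≺ x` on `Q = {x : |x| ≥ n/2}`. -/
def Prec (y x : Finset (Fin n)) : Prop :=
  n ≤ 2 * y.card ∧ n ≤ 2 * x.card ∧ y ≠ x ∧
    ∃ c d : Finset (Fin n), IsP x c ∧ IsP y d ∧ c ⊆ d ∧ d ⊆ y ∧ y ⊆ x

/-! ### Heights -/

/-- The height of the path of `x` after `j` steps. -/
def ht (x : Finset (Fin n)) (j : ℕ) : ℤ :=
  ∑ i ∈ univ.filter (fun i : Fin n => i.val < j), (if i ∈ x then (1 : ℤ) else -1)

theorem ht_zero (x : Finset (Fin n)) : ht x 0 = 0 := by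
  simp [ht]

theorem ht_succ (x : Finset (Fin n)) (i : Fin n) :
    ht x (i.val + 1) = ht x i.val + (if i ∈ x then 1 else -1) := by
  unfold ht
  have : univ.filter (fun k : Fin n => k.val < i.val + 1)
      = insert i (univ.filter (fun k : Fin n => k.val < i.val)) := by
    ext k
    simp only [mem_filter, mem_univ, true_and, mem_insert]
    constructor
    · intro h
      rcases Nat.lt_succ_iff_lt_or_eq.mp h with h | h
      · exact Or.inr h
      · exact Or.inl (Fin.ext h)
    · rintro (h | h)
      · subst h; omega
      · omega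
  rw [this, sum_insert (by simp)]
  ring

theorem ht_n (x : Finset (Fin n)) : ht x n = 2 * (x.card : ℤ) - n := by
  unfold ht
  have h1 : univ.filter (fun k : Fin n => k.val < n) = univ := by
    ext k; simp
  rw [h1]
  have h2 : ∀ i : Fin n, (if i ∈ x then (1 : ℤ) else -1) = 2 * (if i ∈ x then 1 else 0) - 1 := by
    intro i; split_ifs <;> norm_num
  rw [sum_congr rfl (fun i _ => h2 i), sum_sub_distrib, ← mul_sum]
  simp

theorem ht_sub (x : Finset (Fin n)) (i j : Fin n) (hij : i ≤ j) :
    ht x (j.val + 1) - ht x i.val = ((x ∩ Icc i j).card : ℤ) - ((Icc i j \ x).card : ℤ) := by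
  unfold ht
  have h0 : univ.filter (fun k : Fin n => k.val < j.val + 1)
      = (univ.filter (fun k : Fin n => k.val < i.val)) ∪ Icc i j := by
    ext k
    simp only [mem_filter, mem_univ, true_and, mem_union, mem_Icc, Fin.le_def]
    have : i.val ≤ j.val := hij
    omega
  have hd : Disjoint (univ.filter (fun k : Fin n => k.val < i.val)) (Icc i j) := by
    rw [Finset.disjoint_left]
    intro k hk hk'
    simp only [mem_filter, mem_univ, true_and, mem_Icc, Fin.le_def] at hk hk'
    omega
  rw [h0, sum_union hd, add_sub_cancel_left]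
  rw [← sum_filter_add_sum_filter_not (Icc i j) (fun k => k ∈ x)]
  have e1 : ∑ k ∈ (Icc i j).filter (fun k => k ∈ x), (if k ∈ x then (1 : ℤ) else -1)
      = ((x ∩ Icc i j).card : ℤ) := by
    rw [sum_congr rfl (fun k hk => by rw [if_pos (mem_filter.mp hk).2]), sum_const]
    have : (Icc i j).filter (fun k => k ∈ x) = x ∩ Icc i j := by
      ext k; simp [and_comm]
    rw [this]; simp
  have e2 : ∑ k ∈ (Icc i j).filter (fun k => ¬ k ∈ x), (if k ∈ x then (1 : ℤ) else -1)
      = - ((Icc i j \ x).card : ℤ) := by
    rw [sum_congr rfl (fun k hk => by rw [if_neg (mem_filter.mp hk).2]), sum_const]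
    have : (Icc i j).filter (fun k => ¬ k ∈ x) = Icc i j \ x := by
      ext k; simp
    rw [this]; simp
  rw [e1, e2]; ring

theorem bal_iff (x : Finset (Fin n)) (i j : Fin n) (hij : i ≤ j) :
    Bal x i j ↔ ht x (j.val + 1) = ht x i.val := by
  have := ht_sub x i j hij
  unfold Bal
  constructor
  · intro h
    rw [h] at this; linarith
  · intro h
    have h2 : ((x ∩ Icc i j).card : ℤ) = ((Icc i j \ x).card : ℤ) := by linarith
    exact_mod_cast h2

/-- An element of `x` is unmatched iff the path stays strictly above it afterwards. -/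
theorem unm_in_iff (x : Finset (Fin n)) (u : Fin n) (hu : u ∈ x) :
    ¬ Matched x u ↔ ∀ j, u.val < j → j ≤ n → ht x u.val < ht x j := by
  constructor
  · intro h j hj hjn
    have hno : ∀ j : Fin n, u < j → ht x (j.val + 1) ≠ ht x u.val := by
      intro j hj he
      exact h (Or.inl ⟨hu, j, hj, (bal_iff x u j hj.le).2 he⟩)
    induction j with
    | zero => omega
    | succ j ih =>
      rcases Nat.lt_succ_iff_lt_or_eq.mp hj with h1 | h1
      · have ih' := ih h1 (by omega)
        have hs := ht_succ x ⟨j, by omega⟩
        have hne := hno ⟨j, by omega⟩ (by simpa [Fin.lt_def] using h1)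
        simp only at hs hne
        split_ifs at hs <;> omega
      · have hs := ht_succ x u
        rw [if_pos hu] at hs
        rw [← h1, hs]; omega
  · intro h hm
    rcases hm with ⟨_, j, hj, hb⟩ | ⟨hx, _⟩
    · rw [bal_iff x u j hj.le] at hb
      have := h (j.val + 1) (by have : u.val < j.val := hj; omega) (by have := j.isLt; omega)
      omega
    · exact hx hu

/-- If an element outside `x` is unmatched then the path reaches a new minimum after it. -/
theorem unm_out (x : Finset (Fin n)) (v : Fin n) (hv : v ∉ x) (h : ¬ Matched x v) :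
    ∀ j, j ≤ v.val → ht x (v.val + 1) < ht x j := by
  have hno : ∀ j : Fin n, j < v → ht x (v.val + 1) ≠ ht x j.val := by
    intro j hj he
    exact h (Or.inr ⟨hv, j, hj, (bal_iff x j v hj.le).2 he⟩)
  intro j hj
  obtain ⟨d, rfl⟩ : ∃ d, j = v.val - d := ⟨v.val - j, by omega⟩
  clear hj
  induction d with
  | zero =>
    have hs := ht_succ x v
    rw [if_neg hv] at hs
    rw [Nat.sub_zero, hs]; omega
  | succ d ih =>
    by_cases hd : v.val < d + 1
    · have e : v.val - (d + 1) = v.val - d := by omega
      rw [e]; exact ih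
    · have hlt : v.val - (d + 1) < n := by have := v.isLt; omega
      have hs := ht_succ x ⟨v.val - (d + 1), hlt⟩
      have hne := hno ⟨v.val - (d + 1), hlt⟩ (by simp only [Fin.lt_def]; omega)
      simp only at hs hne
      have e : v.val - (d + 1) + 1 = v.val - d := by omega
      rw [e] at hs
      split_ifs at hs <;> omega

/-- The minimal height. -/
noncomputable def mn (x : Finset (Fin n)) : ℤ := (range (n + 1)).inf' (by simp) (ht x)

theorem mn_le (x : Finset (Fin n)) {j : ℕ} (hj : j ≤ n) : mn x ≤ ht x j :=
  inf'_le _ (by simp; omega)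

theorem exists_mn (x : Finset (Fin n)) : ∃ j, j ≤ n ∧ ht x j = mn x := by
  obtain ⟨j, hj, he⟩ := exists_mem_eq_inf' (s := range (n + 1)) (by simp) (ht x)
  exact ⟨j, by simp at hj; omega, he.symm⟩

theorem mn_nonpos (x : Finset (Fin n)) : mn x ≤ 0 := by
  have := mn_le x (Nat.zero_le n)
  rwa [ht_zero] at this

open Classical in
/-- The explicit form of `p(x)`. -/
noncomputable def pp (x : Finset (Fin n)) : Finset (Fin n) :=
  x.filter (fun i => Matched x i ∨ ht x n + mn x ≤ ht x i.val)

theorem card_sdiff_pp (x : Finset (Fin n)) (hx : n ≤ 2 * x.card) :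
    ((x \ pp x).card : ℤ) = ht x n := by
  have hn := ht_n x
  have h0 : 0 ≤ ht x n := by omega
  have hm := mn_nonpos x
  have key : (x \ pp x).image (fun i : Fin n => ht x i.val) = Ico (mn x) (ht x n + mn x) := by
    ext l
    simp only [mem_image, mem_sdiff, mem_Ico, pp, mem_filter, not_and, not_or]
    constructor
    · rintro ⟨i, ⟨hi, hi'⟩, rfl⟩
      have := hi' hi
      exact ⟨mn_le x i.isLt.le, by omega⟩
    · rintro ⟨h1, h2⟩
      -- last time at level at most `l`
      let S := (range (n + 1)).filter (fun j => ht x j ≤ l)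
      have hS : S.Nonempty := by
        obtain ⟨j, hj, he⟩ := exists_mn x
        exact ⟨j, by simp only [S, mem_filter, mem_range]; omega⟩
      let j0 := S.max' hS
      have hj0 : j0 ∈ S := S.max'_mem hS
      have hj0' : j0 < n + 1 ∧ ht x j0 ≤ l := by
        have := hj0; simp only [S, mem_filter, mem_range] at this; exact this
      have hmax : ∀ j, j0 < j → j ≤ n → l < ht x j := by
        intro j hj hjn
        by_contra hcon
        have : j ∈ S := by simp only [S, mem_filter, mem_range]; omega
        have := S.le_max' j this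
        omega
      have hne : j0 ≠ n := by
        intro h; rw [h] at hj0'; omega
      have hlt : j0 < n := by omega
      have hs := ht_succ x ⟨j0, hlt⟩
      simp only at hs
      have h3 := hmax (j0 + 1) (by omega) (by omega)
      have hin : (⟨j0, hlt⟩ : Fin n) ∈ x := by
        by_contra hcon
        rw [if_neg hcon] at hs; omega
      rw [if_pos hin] at hs
      have hl : ht x j0 = l := by omega
      refine ⟨⟨j0, hlt⟩, ⟨hin, fun _ => ⟨?_, ?_⟩⟩, hl⟩
      · rw [unm_in_iff x _ hin]
        intro j hj hjn
        simp only at hj ⊢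
        rw [hl]; exact hmax j hj hjn
      · simp only; omega
  have hinj : Set.InjOn (fun i : Fin n => ht x i.val) (↑(x \ pp x) : Set (Fin n)) := by
    intro i hi i' hi' he
    simp only [coe_sdiff, Set.mem_sdiff, mem_coe, pp, mem_filter, not_and, not_or] at hi hi'
    have a1 := (unm_in_iff x i hi.1).1 (hi.2 hi.1).1
    have a2 := (unm_in_iff x i' hi'.1).1 (hi'.2 hi'.1).1
    simp only at he
    rcases lt_trichotomy i.val i'.val with h | h | h
    · have := a1 i'.val h i'.isLt.le; omega
    · exact Fin.ext h
    · have := a2 i.val h i.isLt.le; omega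
  rw [← card_image_of_injOn hinj, key, Int.card_Ico]
  rw [Int.toNat_of_nonneg (by omega)]
  ring

theorem isP_pp (x : Finset (Fin n)) (hx : n ≤ 2 * x.card) : IsP x (pp x) := by
  classical
  have hm := mn_nonpos x
  refine ⟨⟨(pp x).filter (fun i => ¬ Matched x i), ?_, ?_, ?_⟩, ?_⟩
  · intro i hi
    simp only [Unm, mem_filter, mem_univ, true_and] at hi ⊢
    exact hi.2
  · intro u hu v hv huv
    simp only [pp, Unm, mem_filter, mem_univ, true_and] at hu hv ⊢
    obtain ⟨⟨hux, hu2⟩, hum⟩ := hu
    have hu3 : ht x n + mn x ≤ ht x u.val := hu2.resolve_left hum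
    rcases eq_or_lt_of_le huv with h | h
    · subst h; exact ⟨⟨hux, hu2⟩, hum⟩
    · have a1 := (unm_in_iff x u hux).1 hum
      have hvx : v ∈ x := by
        by_contra hcon
        have b1 := unm_out x v hcon hv u.val h.le
        have b2 := a1 (v.val + 1) (by have : u.val < v.val := h; omega) v.isLt
        omega
      have b := a1 v.val h v.isLt.le
      exact ⟨⟨hvx, Or.inr (by omega)⟩, hv⟩
  · ext i
    simp only [pp, Mplus, mem_filter, mem_union]
    tauto
  · have h1 := card_sdiff_pp x hx
    have h2 : (x \ pp x).card + (pp x).card = x.card :=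
      card_sdiff_add_card_eq_card (filter_subset _ _)
    have h3 := ht_n x
    omega

/-- **Supply of edges.** If `b ∈ x` and `b ∉ p(x)` then `x \ {b} ≺ x`. -/
theorem prec_erase (x : Finset (Fin n)) (b : Fin n) (hb : b ∈ x) (hbp : b ∉ pp x)
    (hy : n ≤ 2 * (x.erase b).card) : Prec (x.erase b) x := by
  classical
  have hc : (x.erase b).card + 1 = x.card := card_erase_add_one hb
  have hx : n ≤ 2 * x.card := by omega
  have hbn : ¬ Matched x b ∧ ht x b.val < ht x n + mn x := by
    simp only [pp, mem_filter, not_and, not_or, not_le] at hbp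
    exact hbp hb
  have hbu := (unm_in_iff x b hb).1 hbn.1
  set y := x.erase b with hydef
  -- heights of `y`
  have hh : ∀ j, j ≤ n → ht y j = ht x j - (if b.val < j then 2 else 0) := by
    intro j
    induction j with
    | zero => intro _; simp [ht_zero]
    | succ j ih =>
      intro hj
      have hs := ht_succ x ⟨j, hj⟩
      have hs' := ht_succ y ⟨j, hj⟩
      have ih' := ih (by omega)
      simp only at hs hs'
      rw [hs', hs, ih']
      by_cases hjb : j = b.val
      · have e : (⟨j, hj⟩ : Fin n) = b := Fin.ext hjb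
        rw [e]
        have h1 : b ∉ y := by simp [y]
        rw [if_neg h1, if_pos hb, if_neg (by omega), if_pos (by omega)]
        ring
      · have e : (⟨j, hj⟩ : Fin n) ≠ b := fun h => hjb (by rw [← h])
        have h1 : (⟨j, hj⟩ : Fin n) ∈ y ↔ (⟨j, hj⟩ : Fin n) ∈ x := by
          simp [y, e]
        by_cases h2 : (⟨j, hj⟩ : Fin n) ∈ x
        · rw [if_pos (h1.2 h2), if_pos h2]
          by_cases h3 : b.val < j
          · rw [if_pos h3, if_pos (by omega)]; ring
          · rw [if_neg h3, if_neg (by omega)]; ring
        · rw [if_neg (fun h => h2 (h1.1 h)), if_neg h2]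
          by_cases h3 : b.val < j
          · rw [if_pos h3, if_pos (by omega)]; ring
          · rw [if_neg h3, if_neg (by omega)]; ring
  -- the minimum does not increase
  have hmn : mn y ≤ mn x := by
    obtain ⟨j, hj, he⟩ := exists_mn x
    rw [← he]
    have h1 := hh j hj
    have h2 := mn_le y hj
    split_ifs at h1 <;> omega
  have hyn : ht y n = ht x n - 2 := by
    have := hh n le_rfl
    rw [if_pos b.isLt] at this; exact this
  refine ⟨hy, hx, ?_, pp x, pp y, isP_pp x hx, isP_pp y hy, ?_, filter_subset _ _,
    erase_subset _ _⟩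
  · intro h
    have := congrArg Finset.card h
    omega
  · intro i hi
    simp only [pp, mem_filter] at hi ⊢
    obtain ⟨hix, hi2⟩ := hi
    have hib : i ≠ b := by
      rintro rfl
      exact hbp (by simp only [pp, mem_filter]; exact ⟨hix, hi2⟩)
    have hiy : i ∈ y := by simp [y, hib, hix]
    refine ⟨hiy, ?_⟩
    by_cases hm : Matched x i
    · left
      by_contra hcon
      have a1 := (unm_in_iff y i hiy).1 hcon
      apply (unm_in_iff x i hix).2 _ hm
      intro j hj hjn
      have h1 := a1 j hj hjn
      have h2 := hh j hjn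
      have h3 := hh i.val i.isLt.le
      split_ifs at h2 h3 <;> omega
    · right
      have h1 : ht x n + mn x ≤ ht x i.val := hi2.resolve_left hm
      have h3 := hh i.val i.isLt.le
      split_ifs at h3 with h4
      · omega
      · omega

/-- `p(x)` is unique. -/
theorem isP_unique (x c d : Finset (Fin n)) (hc : IsP x c) (hd : IsP x d) : c = d := by
  classical
  obtain ⟨⟨T, hT, hT2, rfl⟩, h1⟩ := hc
  obtain ⟨⟨S, hS, hS2, rfl⟩, h2⟩ := hd
  have hdT : Disjoint (Mplus x) T := by
    rw [Finset.disjoint_left]
    intro i hi hi'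
    have a := hT hi'
    simp only [Mplus, Unm, mem_filter, mem_univ, true_and] at hi a
    exact a hi.2
  have hdS : Disjoint (Mplus x) S := by
    rw [Finset.disjoint_left]
    intro i hi hi'
    have a := hS hi'
    simp only [Mplus, Unm, mem_filter, mem_univ, true_and] at hi a
    exact a hi.2
  rw [card_union_of_disjoint hdT] at h1
  rw [card_union_of_disjoint hdS] at h2
  have hcard : T.card = S.card := by omega
  have : T = S := by
    by_cases hTS : T ⊆ S
    · exact eq_of_subset_of_card_le hTS hcard.ge
    · obtain ⟨u, hu, hu'⟩ := Finset.not_subset.mp hTS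
      have hST : S ⊆ T := by
        intro v hv
        by_contra hcon
        rcases le_total u v with h | h
        · exact hcon (hT2 u hu v (hS hv) h)
        · exact hu' (hS2 v hv u (hT hu) h)
      exact (eq_of_subset_of_card_le hST hcard.le).symm
  rw [this]

end Pool.Agent.Helper31K9.SymTree
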