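import Mathlib

/-!
# Plane forests, words and their slot decomposition (for MP_ec2aec_co)
-/

namespace Pool.Agent.Helper31K9.SymTree

/-- Plane forests: `cons c r` is the forest whose first tree has the forest `c` below its root,
followed by the forest `r`. -/
inductive F where
  | nil : F
  | cons : F → F → F
deriving DecidableEq

namespace F

def app : F → F → F
  | .nil, g => g
  | .cons c r, g => .cons c (app r g)

def sz : F → ℕ
  | .nil => 0
  | .cons c r => sz c + 1 + sz r

def top : F → ℕ
  | .nil => 0
  | .cons _ r => top r + 1

def word : F → List Bool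
  | .nil => []
  | .cons c r => true :: (word c ++ false :: word r)

def flat : ℕ → F
  | 0 => .nil
  | n + 1 => .cons .nil (flat n)

@[simp] theorem nil_app (g : F) : app .nil g = g := rfl
@[simp] theorem cons_app (c r g : F) : app (.cons c r) g = .cons c (app r g) := rfl

@[simp] theorem app_nil (f : F) : app f .nil = f := by
  induction f with
  | nil => rfl
  | cons c r _ ih => simp [ih]

theorem app_assoc (f g h : F) : app (app f g) h = app f (app g h) := by
  induction f with
  | nil => rfl
  | cons c r _ ih => simp [ih]

@[simp] theorem sz_nil : sz .nil = 0 := rfl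
@[simp] theorem sz_cons (c r : F) : sz (.cons c r) = sz c + 1 + sz r := rfl

@[simp] theorem sz_app (f g : F) : sz (app f g) = sz f + sz g := by
  induction f with
  | nil => simp
  | cons c r _ ih => simp [ih]; ring

@[simp] theorem top_nil : top .nil = 0 := rfl
@[simp] theorem top_cons (c r : F) : top (.cons c r) = top r + 1 := rfl

@[simp] theorem top_app (f g : F) : top (app f g) = top f + top g := by
  induction f with
  | nil => simp
  | cons c r _ ih => simp [ih]; ring

theorem top_le_sz (f : F) : top f ≤ sz f := by
  induction f with
  | nil => simp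
  | cons c r _ ih => simp; omega

@[simp] theorem sz_flat (n : ℕ) : sz (flat n) = n := by
  induction n with
  | zero => rfl
  | succ n ih => simp [flat, ih]; ring

theorem flat_succ' (n : ℕ) : app (flat n) (cons nil nil) = flat (n + 1) := by
  induction n with
  | zero => rfl
  | succ n ih => simp only [flat, cons_app, ih]

theorem sz_eq_zero {f : F} : sz f = 0 ↔ f = .nil := by
  cases f with
  | nil => simp
  | cons c r => simp

@[simp] theorem word_nil : word .nil = [] := rfl
@[simp] theorem word_cons (c r : F) : word (.cons c r) = true :: (word c ++ false :: word r) := rfl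

@[simp] theorem word_app (f g : F) : word (app f g) = word f ++ word g := by
  induction f with
  | nil => rfl
  | cons c r _ ih => simp [ih]

theorem word_length (f : F) : (word f).length = 2 * sz f := by
  induction f with
  | nil => rfl
  | cons c r ihc ihr => simp [ihc, ihr]; ring

/-- Decomposition at the last tree. -/
theorem exists_last {f : F} (h : f ≠ .nil) : ∃ P Q, f = app P (.cons Q .nil) := by
  induction f with
  | nil => exact absurd rfl h
  | cons c r _ ih =>
    by_cases hr : r = .nil
    · subst hr; exact ⟨.nil, c, rfl⟩
    · obtain ⟨P, Q, h'⟩ := ih hr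
      exact ⟨.cons c P, Q, by rw [h']; rfl⟩

/-- The decomposition at the last tree, as a function. -/
def lastDec : F → F × F
  | .nil => (.nil, .nil)
  | .cons c .nil => (.nil, c)
  | .cons c (.cons d r) => (.cons c (lastDec (.cons d r)).1, (lastDec (.cons d r)).2)

theorem app_ne_nil (P Q R : F) : app P (.cons Q R) ≠ .nil := by
  cases P <;> simp

theorem lastDec_app (P Q : F) : lastDec (app P (.cons Q .nil)) = (P, Q) := by
  induction P with
  | nil => rfl
  | cons c r _ ih =>
    simp only [cons_app]
    obtain ⟨d, r', h⟩ : ∃ d r', app r (.cons Q .nil) = .cons d r' := by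
      cases h : app r (.cons Q .nil) with
      | nil => exact absurd h (app_ne_nil _ _ _)
      | cons d r' => exact ⟨d, r', rfl⟩
    rw [h] at ih ⊢
    simp only [lastDec, ih]

end F

open F

/-- Height of a word. -/
def wh (w : List Bool) : ℤ := (w.map (fun b => if b then (1 : ℤ) else -1)).sum

@[simp] theorem wh_nil : wh [] = 0 := rfl
@[simp] theorem wh_cons (b : Bool) (w : List Bool) : wh (b :: w) = (if b then 1 else -1) + wh w := by
  simp [wh]
@[simp] theorem wh_append (u v : List Bool) : wh (u ++ v) = wh u + wh v := by
  simp [wh]

/-- All prefixes of `w` have height at least `-c`. -/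
def Low (w : List Bool) (c : ℤ) : Prop := ∀ j, -c ≤ wh (w.take j)

theorem Low.mono {w : List Bool} {c d : ℤ} (h : Low w c) (hcd : c ≤ d) : Low w d :=
  fun j => by have := h j; linarith

theorem Low.nonneg {w : List Bool} {c : ℤ} (h : Low w c) : 0 ≤ c := by
  have := h 0
  simp at this; linarith

theorem low_append {u v : List Bool} {c : ℤ} (hu : Low u c) (hv : Low v (wh u + c)) :
    Low (u ++ v) c := by
  intro j
  rw [List.take_append]
  by_cases h : j ≤ u.length
  · rw [Nat.sub_eq_zero_of_le h]
    simpa using hu j
  · rw [List.take_of_length_le (by omega), wh_append]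
    have := hv (j - u.length)
    linarith

theorem low_cons_true {v : List Bool} {c : ℤ} (hc : 0 ≤ c) (hv : Low v (1 + c)) :
    Low (true :: v) c := by
  intro j
  cases j with
  | zero => simp; linarith
  | succ j =>
    have := hv j
    simp only [List.take_succ_cons, wh_cons, if_true]
    linarith

theorem low_cons_false {v : List Bool} {c : ℤ} (hv : Low v (c - 1)) :
    Low (false :: v) c := by
  have h0 := hv.nonneg
  intro j
  cases j with
  | zero => simp; linarith
  | succ j =>
    have := hv j
    simp only [List.take_succ_cons, wh_cons, Bool.false_eq_true, if_false]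
    linarith

theorem low_nil {c : ℤ} (hc : 0 ≤ c) : Low [] c := by
  intro j; simp; linarith

@[simp] theorem wh_word (f : F) : wh (word f) = 0 := by
  induction f with
  | nil => rfl
  | cons c r ihc ihr => simp [ihc, ihr]

theorem low_word (f : F) : Low (word f) 0 := by
  induction f with
  | nil => exact low_nil le_rfl
  | cons c r ihc ihr =>
    simp only [word_cons]
    apply low_cons_true le_rfl
    apply low_append (ihc.mono (by norm_num))
    rw [wh_word]
    apply low_cons_false
    apply ihr.mono; norm_num

/-- The word `D₀ ) D₁ ) ⋯ D_{s-1} )`. -/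
def lw : List F → List Bool
  | [] => []
  | D :: L => word D ++ false :: lw L

/-- The word `( D₁ ( D₂ ⋯ ( D_t`. -/
def rw' : List F → List Bool
  | [] => []
  | D :: L => true :: (word D ++ rw' L)

@[simp] theorem lw_nil : lw [] = [] := rfl
@[simp] theorem lw_cons (D : F) (L : List F) : lw (D :: L) = word D ++ false :: lw L := rfl
@[simp] theorem rw'_nil : rw' [] = [] := rfl
@[simp] theorem rw'_cons (D : F) (L : List F) : rw' (D :: L) = true :: (word D ++ rw' L) := rfl

@[simp] theorem lw_append (L M : List F) : lw (L ++ M) = lw L ++ lw M := by
  induction L with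
  | nil => rfl
  | cons D L ih => simp [ih]

@[simp] theorem rw'_append (L M : List F) : rw' (L ++ M) = rw' L ++ rw' M := by
  induction L with
  | nil => rfl
  | cons D L ih => simp [ih]

@[simp] theorem wh_lw (L : List F) : wh (lw L) = -(L.length : ℤ) := by
  induction L with
  | nil => rfl
  | cons D L ih => simp [ih]

@[simp] theorem wh_rw' (L : List F) : wh (rw' L) = (L.length : ℤ) := by
  induction L with
  | nil => rfl
  | cons D L ih => simp [ih]; ring

theorem low_lw (L : List F) : Low (lw L) L.length := by
  induction L with
  | nil => exact low_nil (by simp)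
  | cons D L ih =>
    simp only [lw_cons, List.length_cons]
    apply low_append ((low_word D).mono (by positivity))
    apply low_cons_false
    apply ih.mono
    simp

theorem low_rw' (L : List F) : Low (rw' L) 0 := by
  induction L with
  | nil => exact low_nil le_rfl
  | cons D L ih =>
    simp only [rw'_cons]
    apply low_cons_true le_rfl
    apply low_append ((low_word D).mono (by norm_num))
    apply ih.mono
    simp

/-- Total size. -/
def tot (L : List F) : ℕ := (L.map sz).sum

@[simp] theorem tot_nil : tot [] = 0 := rfl
@[simp] theorem tot_cons (D : F) (L : List F) : tot (D :: L) = sz D + tot L := by simp [tot]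
@[simp] theorem tot_append (L M : List F) : tot (L ++ M) = tot L + tot M := by simp [tot]
@[simp] theorem tot_replicate (a : ℕ) : tot (List.replicate a F.nil) = 0 := by simp [tot]

theorem lw_length (L : List F) : (lw L).length = 2 * tot L + L.length := by
  induction L with
  | nil => rfl
  | cons D L ih => simp [ih, word_length]; ring

theorem rw'_length (L : List F) : (rw' L).length = 2 * tot L + L.length := by
  induction L with
  | nil => rfl
  | cons D L ih => simp [ih, word_length]; ring

/-! ### Representations -/

/-- A representation: `(L, M, R)` stands for the word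
`L₀ ) L₁ ) ⋯ L_{s-1} ) M₀ ( M₁ ( ⋯ ( R₁ ( ⋯`. -/
abbrev Rep := List F × List F × List F

/-- The word of a representation. -/
def rword : Rep → List Bool
  | (L, [], R) => lw L ++ rw' R
  | (L, m :: M, R) => lw L ++ (word m ++ rw' (M ++ R))

theorem rword_cons (L : List F) (m : F) (M R : List F) :
    rword (L, m :: M, R) = lw L ++ (word m ++ rw' (M ++ R)) := rfl

/-- Every word has a decomposition. -/
theorem exists_dec (w : List Bool) :
    ∃ (P : List F) (q : F) (Q : List F), w = lw P ++ (word q ++ rw' Q) := by
  induction w using List.reverseRecOn with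
  | nil => exact ⟨[], .nil, [], rfl⟩
  | append_singleton w b ih =>
    obtain ⟨P, q, Q, rfl⟩ := ih
    cases b with
    | true => exact ⟨P, q, Q ++ [.nil], by simp⟩
    | false =>
      rcases List.eq_nil_or_concat Q with h | ⟨Q', d, h⟩
      · subst h
        exact ⟨P ++ [q], .nil, [], by simp⟩
      · subst h
        rw [List.concat_eq_append]
        rcases List.eq_nil_or_concat Q' with h | ⟨Q'', c, h⟩
        · subst h
          exact ⟨P, app q (.cons d .nil), [], by simp⟩
        · subst h
          rw [List.concat_eq_append]
          exact ⟨P, q, Q'' ++ [app c (.cons d .nil)], by simp⟩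

/-- The parser. -/
def step : List F × F × List F → Bool → List F × F × List F
  | (P, q, S), true => (P, .nil, q :: S)
  | (P, q, []), false => (P ++ [q], .nil, [])
  | (P, q, c :: S), false => (P, app c (.cons q .nil), S)

theorem foldl_word (f : F) : ∀ (P : List F) (q : F) (S : List F),
    (word f).foldl step (P, q, S) = (P, app q f, S) := by
  induction f with
  | nil => intro P q S; simp
  | cons c r ihc ihr =>
    intro P q S
    simp only [word_cons, List.foldl_cons, List.foldl_append, step, ihc, ihr, app_assoc,
      nil_app, cons_app]

theorem foldl_lw (L : List F) : ∀ (P : List F),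
    (lw L).foldl step (P, .nil, []) = (P ++ L, .nil, []) := by
  induction L with
  | nil => intro P; simp
  | cons D L ih =>
    intro P
    simp only [lw_cons, List.foldl_cons, List.foldl_append, foldl_word, step, ih, nil_app]
    simp

theorem foldl_rw' (Q : List F) : ∀ (P : List F) (q : F) (S : List F),
    ∃ q' S', (rw' Q).foldl step (P, q, S) = (P, q', S') ∧ q' :: S' = Q.reverse ++ q :: S := by
  induction Q with
  | nil => intro P q S; exact ⟨q, S, by simp, by simp⟩
  | cons D Q ih =>
    intro P q S
    obtain ⟨q', S', h1, h2⟩ := ih P D (q :: S)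
    refine ⟨q', S', ?_, ?_⟩
    · simp only [rw'_cons, List.foldl_cons, List.foldl_append, foldl_word, step, nil_app, h1]
    · rw [h2]; simp

theorem dec_inj {P P' : List F} {q q' : F} {Q Q' : List F}
    (h : lw P ++ (word q ++ rw' Q) = lw P' ++ (word q' ++ rw' Q')) :
    P = P' ∧ q :: Q = q' :: Q' := by
  have h1 := congrArg (fun w => List.foldl step (([] : List F), F.nil, ([] : List F)) w) h
  simp only [List.foldl_append, foldl_lw, foldl_word, List.nil_append, nil_app] at h1
  obtain ⟨a, S, e1, e2⟩ := foldl_rw' Q P q []
  obtain ⟨a', S', e1', e2'⟩ := foldl_rw' Q' P' q' []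
  rw [e1, e1'] at h1
  simp only [Prod.mk.injEq] at h1
  obtain ⟨h2, h3, h4⟩ := h1
  refine ⟨h2, ?_⟩
  rw [h3, h4, e2'] at e2
  have := congrArg List.reverse e2
  simpa using this.symm

/-- `y`-representations with parameters `f` (final height) and `e` (number of `)`). -/
def IsY (f e : ℕ) : Rep → Prop
  | (L, M, R) => L.length = R.length ∧ M.length = f + 1 ∧ tot L + tot M + tot R + L.length = e

/-- `x`-representations. -/
def IsX (f e : ℕ) : Rep → Prop
  | (L, M, R) => L.length = R.length ∧ M.length = f + 3 ∧ tot L + tot M + tot R + L.length + 1 = e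

/-- Common shape: `|L| = |R|`, `|M| = g + 1`. -/
def IsR (g : ℕ) : Rep → Prop
  | (L, M, R) => L.length = R.length ∧ M.length = g + 1

theorem rword_inj {g : ℕ} {r r' : Rep} (h : IsR g r) (h' : IsR g r') (he : rword r = rword r') :
    r = r' := by
  obtain ⟨L, M, R⟩ := r
  obtain ⟨L', M', R'⟩ := r'
  obtain ⟨h1, h2⟩ := h
  obtain ⟨h1', h2'⟩ := h'
  cases M with
  | nil => simp at h2
  | cons m M =>
    cases M' with
    | nil => simp at h2'
    | cons m' M' =>
      rw [rword_cons, rword_cons] at he
      obtain ⟨e1, e2⟩ := dec_inj he
      rw [List.cons.injEq] at e2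
      obtain ⟨e3, e4⟩ := e2
      subst e1 e3
      have hl : M.length = M'.length := by simp at h2 h2'; omega
      obtain ⟨e5, e6⟩ := List.append_inj e4 hl
      subst e5 e6
      rfl

theorem exists_rword {g : ℕ} (w : List Bool) (hw : wh w = g) :
    ∃ r : Rep, IsR g r ∧ rword r = w := by
  obtain ⟨P, q, Q, rfl⟩ := exists_dec w
  simp only [wh_append, wh_lw, wh_word, wh_rw', zero_add] at hw
  have hlen : Q.length = g + P.length := by omega
  refine ⟨(P, q :: Q.take g, Q.drop g), ⟨?_, ?_⟩, ?_⟩
  · simp [hlen]
  · simp [hlen]
  · rw [rword_cons, List.take_append_drop]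

theorem rword_length {g : ℕ} {L M R : List F} (h : IsR g (L, M, R)) :
    (rword (L, M, R)).length = 2 * (tot L + tot M + tot R + L.length) + g := by
  obtain ⟨h1, h2⟩ := h
  cases M with
  | nil => simp at h2
  | cons m M =>
    rw [rword_cons]
    simp only [List.length_append, lw_length, rw'_length, word_length, tot_append, tot_cons,
      List.length_append]
    simp only [List.length_cons] at h2
    omega

theorem rword_wh {g : ℕ} {L M R : List F} (h : IsR g (L, M, R)) :
    wh (rword (L, M, R)) = g := by
  obtain ⟨h1, h2⟩ := h
  cases M with
  | nil => simp at h2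
  | cons m M =>
    rw [rword_cons]
    simp only [wh_append, wh_lw, wh_word, wh_rw', List.length_append]
    simp only [List.length_cons] at h2
    push_cast
    omega

end Pool.Agent.Helper31K9.SymTree
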