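import Pool.Agent.Helper31K9.SymTreeA
import Pool.Agent.Helper31K9.SymTreeB

/-!
# Sets and words, the edges of the representation graph (for MP_ec2aec_co)
-/

namespace Pool.Agent.Helper31K9.SymTree

open Finset F

/-- The subset of `Fin n` of a word. -/
def toSet (n : ℕ) (w : List Bool) : Finset (Fin n) :=
  univ.filter (fun i => w[i.val]? = some true)

theorem mem_toSet {n : ℕ} {w : List Bool} {i : Fin n} : i ∈ toSet n w ↔ w[i.val]? = some true := by
  simp [toSet]

theorem ht_toSet {n : ℕ} {w : List Bool} (hw : w.length = n) :
    ∀ j, j ≤ n → ht (toSet n w) j = wh (w.take j) := by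
  intro j
  induction j with
  | zero => intro _; simp [ht_zero]
  | succ j ih =>
    intro hj
    have hs := ht_succ (toSet n w) ⟨j, hj⟩
    simp only at hs
    rw [hs, ih (by omega)]
    have hlt : j < w.length := by omega
    rw [← List.take_concat_get' w j hlt, wh_append]
    congr 1
    by_cases hb : w[j] = true
    · rw [if_pos (by rw [mem_toSet]; simp [hb, hlt])]
      simp [hb]
    · rw [if_neg (by rw [mem_toSet]; simp [hb, hlt])]
      simp [hb]

theorem toSet_inj {n : ℕ} {w w' : List Bool} (hw : w.length = n) (hw' : w'.length = n)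
    (h : toSet n w = toSet n w') : w = w' := by
  apply List.ext_getElem (by omega)
  intro i h1 h2
  have h3 : (⟨i, by omega⟩ : Fin n) ∈ toSet n w ↔ (⟨i, by omega⟩ : Fin n) ∈ toSet n w' := by
    rw [h]
  simp only [mem_toSet, List.getElem?_eq_getElem h1, List.getElem?_eq_getElem h2,
    Option.some.injEq] at h3
  cases hb : w[i] <;> cases hb' : w'[i] <;> simp_all

theorem exists_toSet {n : ℕ} (x : Finset (Fin n)) :
    ∃ w : List Bool, w.length = n ∧ toSet n w = x := by
  classical
  refine ⟨List.ofFn (fun i => decide (i ∈ x)), by simp, ?_⟩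
  ext i
  simp [mem_toSet]

theorem card_toSet {n : ℕ} {w : List Bool} (hw : w.length = n) :
    2 * ((toSet n w).card : ℤ) = n + wh w := by
  have h1 := ht_n (toSet n w)
  have h2 := ht_toSet hw n le_rfl
  rw [List.take_of_length_le (by omega)] at h2
  linarith

theorem prec_word {n : ℕ} (u v : List Bool) (c : ℤ) (hlen : (u ++ true :: v).length = n)
    (hv : Low v 0) (hlow : Low (u ++ true :: v) c) (hu : wh u < wh (u ++ true :: v) - c)
    (hy : 0 ≤ wh (u ++ false :: v)) :
    Prec (toSet n (u ++ false :: v)) (toSet n (u ++ true :: v)) := by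
  classical
  have hlen' : (u ++ false :: v).length = n := by simpa using hlen
  have hbn : u.length < n := by
    rw [← hlen]; simp
  let b : Fin n := ⟨u.length, hbn⟩
  have hb : b ∈ toSet n (u ++ true :: v) := by
    rw [mem_toSet]; simp [b]
  have hyx : toSet n (u ++ false :: v) = (toSet n (u ++ true :: v)).erase b := by
    ext i
    rw [mem_erase, mem_toSet, mem_toSet]
    rcases lt_trichotomy i.val u.length with h | h | h
    · rw [List.getElem?_append_left h, List.getElem?_append_left h]
      constructor
      · intro h1; exact ⟨fun h2 => by rw [h2] at h; simp [b] at h, h1⟩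
      · intro h1; exact h1.2
    · have e : i = b := Fin.ext h
      subst e
      simp [b]
    · have e : i ≠ b := fun h2 => by rw [h2] at h; simp [b] at h
      obtain ⟨d, hd⟩ : ∃ d, i.val = u.length + (d + 1) := ⟨i.val - u.length - 1, by omega⟩
      rw [hd, List.getElem?_append_right (by omega), List.getElem?_append_right (by omega)]
      simp [e]
  have hcard : n ≤ 2 * (toSet n (u ++ false :: v)).card := by
    have := card_toSet hlen'
    omega
  rw [hyx]
  apply prec_erase _ b hb
  · intro hcon
    simp only [pp, mem_filter] at hcon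
    have hbh : ht (toSet n (u ++ true :: v)) b.val = wh u := by
      rw [ht_toSet hlen b.val b.isLt.le]
      simp [b]
    rcases hcon.2 with h | h
    · apply (unm_in_iff _ b hb).2 _ h
      intro j hj hjn
      rw [hbh, ht_toSet hlen j hjn]
      obtain ⟨d, rfl⟩ : ∃ d, j = u.length + (d + 1) := ⟨j - u.length - 1, by simp [b] at hj; omega⟩
      rw [List.take_append]
      simp only [Nat.add_sub_cancel_left, List.take_succ_cons]
      rw [List.take_of_length_le (by omega)]
      have := hv d
      simp only [wh_append, wh_cons, if_true]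
      linarith
    · rw [hbh] at h
      obtain ⟨j, hj, he⟩ := exists_mn (toSet n (u ++ true :: v))
      rw [ht_toSet hlen j hj] at he
      have h2 := hlow j
      rw [ht_toSet hlen n le_rfl, List.take_of_length_le (by omega)] at h
      omega
  · rw [← hyx]; exact hcard

/-! ### The two kinds of edges on representations -/

/-- Closing an end: `(L, w₀ M wₘ, R) — (L w₀, M, wₘ R)`. -/
inductive Ends : Rep → Rep → Prop
  | mk (L M R : List F) (w0 wm : F) :
      Ends (L, w0 :: (M ++ [wm]), R) (L ++ [w0], M, wm :: R)

/-- Closing in the middle: `(L, U A B C V, R) — (L, U A(B)C V, R)`. -/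
inductive Mid : Rep → Rep → Prop
  | mk (L U : List F) (A B C : F) (V R : List F) :
      Mid (L, U ++ A :: B :: C :: V, R) (L, U ++ app A (cons B C) :: V, R)

theorem ends_isX {f e : ℕ} {x y : Rep} (h : Ends x y) : IsX f e x ↔ IsY f e y := by
  cases h with
  | mk L M R w0 wm =>
    simp only [IsX, IsY, List.length_append, List.length_cons, List.length_nil, tot_cons,
      tot_append, tot_nil]
    omega

theorem mid_isX {f e : ℕ} {x y : Rep} (h : Mid x y) : IsX f e x ↔ IsY f e y := by
  cases h with
  | mk L U A B C V R =>
    simp only [IsX, IsY, List.length_append, List.length_cons, tot_cons,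
      tot_append, sz_app, sz_cons]
    omega

theorem isX_isR {f e : ℕ} {r : Rep} (h : IsX f e r) : IsR (f + 2) r := ⟨h.1, h.2.1⟩
theorem isY_isR {f e : ℕ} {r : Rep} (h : IsY f e r) : IsR f r := ⟨h.1, h.2.1⟩

theorem isX_length {f e : ℕ} {r : Rep} (h : IsX f e r) : (rword r).length = f + 2 * e := by
  obtain ⟨L, M, R⟩ := r
  have h1 := rword_length (isX_isR h)
  obtain ⟨_, _, h2⟩ := h
  omega

theorem isY_length {f e : ℕ} {r : Rep} (h : IsY f e r) : (rword r).length = f + 2 * e := by
  obtain ⟨L, M, R⟩ := r
  have h1 := rword_length (isY_isR h)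
  obtain ⟨_, _, h2⟩ := h
  omega

theorem isX_wh {f e : ℕ} {r : Rep} (h : IsX f e r) : wh (rword r) = (f : ℤ) + 2 := by
  obtain ⟨L, M, R⟩ := r
  have := rword_wh (isX_isR h)
  rw [this]; push_cast; ring

theorem isY_wh {f e : ℕ} {r : Rep} (h : IsY f e r) : wh (rword r) = (f : ℤ) := by
  obtain ⟨L, M, R⟩ := r
  exact rword_wh (isY_isR h)

theorem low_rword {g : ℕ} {L M R : List F} (h : IsR g (L, M, R)) :
    Low (rword (L, M, R)) L.length := by
  obtain ⟨h1, h2⟩ := h
  cases M with
  | nil => simp at h2
  | cons m M =>
    rw [rword_cons]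
    apply low_append (low_lw L)
    apply low_append ((low_word m).mono (by rw [wh_lw]; simp))
    apply (low_rw' _).mono
    simp

theorem ends_prec {f e n : ℕ} (hn : f + 2 * e = n) {x y : Rep} (h : Ends x y) (hx : IsX f e x) :
    Prec (toSet n (rword y)) (toSet n (rword x)) := by
  have hy : IsY f e y := (ends_isX h).1 hx
  have hlen := isX_length hx
  have hwy := isY_wh hy
  have hwx := isX_wh hx
  have hlow : Low (rword x) x.1.length := by
    obtain ⟨L, M, R⟩ := x
    exact low_rword (isX_isR hx)
  cases h with
  | mk L M R w0 wm =>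
    have hM : M.length = f + 1 := by
      have := hx.2.1
      simp at this; omega
    cases M with
    | nil => simp at hM
    | cons m M =>
      have ex : rword (L, w0 :: ((m :: M) ++ [wm]), R)
          = (lw L ++ word w0) ++ true :: (word m ++ rw' (M ++ wm :: R)) := by
        simp [rword]
      have ey : rword (L ++ [w0], m :: M, wm :: R)
          = (lw L ++ word w0) ++ false :: (word m ++ rw' (M ++ wm :: R)) := by
        simp [rword]
      rw [ex] at hlen hwx hlow ⊢
      rw [ey] at hwy ⊢
      apply prec_word _ _ (L.length : ℤ) (by omega) _ hlow _ _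
      · apply low_append (low_word m)
        apply (low_rw' _).mono; simp
      · rw [hwx]
        simp only [wh_append, wh_lw, wh_word]
        omega
      · rw [hwy]; positivity

theorem mid_prec {f e n : ℕ} (hn : f + 2 * e = n) {x y : Rep} (h : Mid x y) (hx : IsX f e x) :
    Prec (toSet n (rword y)) (toSet n (rword x)) := by
  have hy : IsY f e y := (mid_isX h).1 hx
  have hlen := isX_length hx
  have hwy := isY_wh hy
  have hwx := isX_wh hx
  have hlow : Low (rword x) x.1.length := by
    obtain ⟨L, M, R⟩ := x
    exact low_rword (isX_isR hx)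
  cases h with
  | mk L U A B C V R =>
    have hU : U.length + V.length = f := by
      have := hx.2.1
      simp at this; omega
    obtain ⟨u, hu, hwu⟩ : ∃ u, (rword (L, U ++ A :: B :: C :: V, R)
          = u ++ true :: (word C ++ rw' (V ++ R)) ∧ rword (L, U ++ app A (cons B C) :: V, R)
          = u ++ false :: (word C ++ rw' (V ++ R))) ∧ wh u = -(L.length : ℤ) + U.length + 1 := by
      cases U with
      | nil =>
        refine ⟨lw L ++ (word A ++ true :: word B), ⟨?_, ?_⟩, ?_⟩
        · simp [rword]
        · simp [rword]
        · simp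
      | cons m U =>
        refine ⟨lw L ++ (word m ++ (rw' U ++ true :: (word A ++ true :: word B))), ⟨?_, ?_⟩, ?_⟩
        · simp [rword]
        · simp [rword]
        · simp; ring
    obtain ⟨ex, ey⟩ := hu
    rw [ex] at hlen hwx hlow ⊢
    rw [ey] at hwy ⊢
    apply prec_word _ _ (L.length : ℤ) (by omega) _ hlow _ _
    · apply low_append (low_word C)
      apply (low_rw' _).mono; simp
    · rw [hwx, hwu]
      omega
    · rw [hwy]; positivity

end Pool.Agent.Helper31K9.SymTree
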