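import Pool.Agent.Helper31K9.SymTreeC

/-!
# Opening trees with bounded load: an application of Hall's theorem (for MP_ec2aec_co)
-/

namespace Pool.Agent.Helper31K9.SymTree

open Finset F

/-- Open the tree of the forest which contains position `q`. -/
def openF : F → ℕ → F × F × F
  | .nil, _ => (.nil, .nil, .nil)
  | .cons c r, q => if q ≤ sz c then (.nil, c, r)
      else (.cons c (openF r (q - sz c - 1)).1, (openF r (q - sz c - 1)).2.1,
        (openF r (q - sz c - 1)).2.2)

theorem openF_spec (E : F) : ∀ q, q < sz E →
    ∃ A B C, openF E q = (A, B, C) ∧ E = app A (cons B C) ∧ sz A ≤ q ∧ q ≤ sz A + sz B := by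
  induction E with
  | nil => intro q hq; simp at hq
  | cons c r _ ih =>
    intro q hq
    unfold openF
    by_cases h : q ≤ sz c
    · rw [if_pos h]
      exact ⟨.nil, c, r, rfl, rfl, by simp, by simpa using h⟩
    · rw [if_neg h]
      simp only [sz_cons] at hq
      obtain ⟨A, B, C, h1, h2, h3, h4⟩ := ih (q - sz c - 1) (by omega)
      refine ⟨.cons c A, B, C, by rw [h1], by rw [h2]; rfl, ?_, ?_⟩
      · simp only [sz_cons]; omega
      · simp only [sz_cons]; omega

/-- Open the tree of a list of forests which contains position `q`. -/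
def openV : List F → ℕ → List F
  | [], _ => []
  | E :: V, q => if q < sz E then
      (openF E q).1 :: (openF E q).2.1 :: (openF E q).2.2 :: V
      else E :: openV V (q - sz E)

/-- The index of the list entry which is opened. -/
def openI : List F → ℕ → ℕ
  | [], _ => 0
  | E :: V, q => if q < sz E then 0 else openI V (q - sz E) + 1

/-- The inverse operation. -/
def closeV : List F → ℕ → List F × ℕ
  | A :: B :: C :: V, q => if q ≤ sz A + sz B then (app A (cons B C) :: V, q)
      else (A :: (closeV (B :: C :: V) (q - sz A - 1)).1,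
        (closeV (B :: C :: V) (q - sz A - 1)).2 + sz A)
  | [A, B], q => ([A, B], q)
  | [A], q => ([A], q)
  | [], q => ([], q)

theorem openV_spec (V : List F) : ∀ q, q < tot V → ∃ U A B C W,
    V = U ++ app A (cons B C) :: W ∧ openV V q = U ++ A :: B :: C :: W ∧ openI V q = U.length := by
  induction V with
  | nil => intro q hq; simp at hq
  | cons E V ih =>
    intro q hq
    unfold openV openI
    by_cases h : q < sz E
    · obtain ⟨A, B, C, h1, h2, _, _⟩ := openF_spec E q h
      rw [if_pos h, if_pos h, h1]
      exact ⟨[], A, B, C, V, by rw [h2]; rfl, rfl, rfl⟩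
    · rw [if_neg h, if_neg h]
      simp only [tot_cons] at hq
      obtain ⟨U, A, B, C, W, h1, h2, h3⟩ := ih (q - sz E) (by omega)
      exact ⟨E :: U, A, B, C, W, by rw [h1]; rfl, by rw [h2]; rfl, by rw [h3]; rfl⟩

theorem openV_head (V : List F) (q : ℕ) (hq : q < tot V) :
    ∃ H T, openV V q = H :: T ∧ sz H ≤ q := by
  cases V with
  | nil => simp at hq
  | cons E V =>
    unfold openV
    by_cases h : q < sz E
    · obtain ⟨A, B, C, h1, _, h3, _⟩ := openF_spec E q h
      rw [if_pos h, h1]
      exact ⟨A, B :: C :: V, rfl, h3⟩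
    · rw [if_neg h]
      exact ⟨E, _, rfl, by omega⟩

theorem close_open (V : List F) : ∀ q, q < tot V →
    closeV (openV V q) (q + openI V q) = (V, q) := by
  induction V with
  | nil => intro q hq; simp at hq
  | cons E V ih =>
    intro q hq
    by_cases h : q < sz E
    · obtain ⟨A, B, C, h1, h2, h3, h4⟩ := openF_spec E q h
      have e1 : openV (E :: V) q = A :: B :: C :: V := by
        rw [openV, if_pos h, h1]
      have e2 : openI (E :: V) q = 0 := by
        rw [openI, if_pos h]
      rw [e1, e2, closeV, if_pos (by omega), h2, Nat.add_zero]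
    · have hq' : q - sz E < tot V := by simp only [tot_cons] at hq; omega
      obtain ⟨H, T, e3, hH⟩ := openV_head V (q - sz E) hq'
      obtain ⟨U, A, B, C, W, _, e4, _⟩ := openV_spec V (q - sz E) hq'
      have e1 : openV (E :: V) q = E :: openV V (q - sz E) := by
        rw [openV, if_neg h]
      have e2 : openI (E :: V) q = openI V (q - sz E) + 1 := by
        rw [openI, if_neg h]
      have hlen : 3 ≤ (openV V (q - sz E)).length := by
        rw [e4]; simp only [List.length_append, List.length_cons]; omega
      obtain ⟨T1, T2, hT⟩ : ∃ T1 T2, T = T1 :: T2 := by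
        cases T with
        | nil => rw [e3] at hlen; simp at hlen
        | cons T1 T2 => exact ⟨T1, T2, rfl⟩
      have ih' := ih (q - sz E) hq'
      rw [e1, e2, e3, hT, closeV, if_neg (by omega)]
      rw [e3, hT] at ih'
      have e5 : q + (openI V (q - sz E) + 1) - sz E - 1 = q - sz E + openI V (q - sz E) := by omega
      rw [e5, ih']
      simp only [Prod.mk.injEq, true_and]
      omega

theorem openI_lt (V : List F) : ∀ q, q < tot V → openI V q < V.length := by
  intro q hq
  obtain ⟨U, A, B, C, W, h1, _, h3⟩ := openV_spec V q hq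
  rw [h3, h1]; simp

/-- The relation: `V'` arises from `V` by opening a tree. -/
def OpenRel (V V' : List F) : Prop :=
  ∃ U A B C W, V = U ++ app A (cons B C) :: W ∧ V' = U ++ A :: B :: C :: W

/-- **Hall's theorem** for opening trees. -/
theorem exists_tau (f m : ℕ) (hfm : f ≤ m) : ∃ τ : List F → List F × Fin 2,
    (∀ V, V.length ≤ f → tot V = m → 0 < m → OpenRel V (τ V).1) ∧
    (∀ V V', V.length ≤ f → tot V = m → V'.length ≤ f → tot V' = m → τ V = τ V' → V = V') := by
  classical
  rcases Nat.eq_zero_or_pos m with hm | hm
  · -- trivial case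
    subst hm
    have hf : f = 0 := by omega
    subst hf
    refine ⟨fun V => (V, 0), fun V _ _ h => absurd h (lt_irrefl _), ?_⟩
    intro V V' h1 _ h2 _ _
    have e1 : V = [] := List.length_eq_zero_iff.mp (by omega)
    have e2 : V' = [] := List.length_eq_zero_iff.mp (by omega)
    rw [e1, e2]
  let ι := {V : List F // V.length ≤ f ∧ tot V = m}
  let nbr : ι → Finset (List F) := fun V => (range m).image (fun q => openV V.1 q)
  let t : ι → Finset (List F × Fin 2) := fun V => nbr V ×ˢ univ
  have hall : ∀ S : Finset ι, S.card ≤ (S.biUnion t).card := by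
    intro S
    let Nb : Finset (List F) := S.biUnion nbr
    have ht : S.biUnion t = Nb ×ˢ univ := by
      ext ⟨V, i⟩
      simp only [t, Nb, mem_biUnion, mem_product, mem_univ, and_true]
    rw [ht, card_product]
    simp only [card_univ, Fintype.card_fin]
    -- the injection
    have key : (S ×ˢ range m).card ≤ (Nb ×ˢ range (m + f)).card := by
      apply card_le_card_of_injOn
        (fun p => (openV p.1.1 p.2, p.2 + openI p.1.1 p.2))
      · rintro ⟨V, q⟩ hp
        simp only [coe_product, Set.mem_prod, mem_coe, mem_range] at hp ⊢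
        obtain ⟨hV, hq⟩ := hp
        have hq' : q < tot V.1 := by rw [V.2.2]; exact hq
        refine ⟨?_, ?_⟩
        · simp only [Nb, mem_biUnion, nbr, mem_image, mem_range]
          exact ⟨V, hV, q, hq, rfl⟩
        · have := openI_lt V.1 q hq'
          have := V.2.1
          omega
      · rintro ⟨V, q⟩ hp ⟨V', q'⟩ hp' he
        simp only [coe_product, Set.mem_prod, mem_coe, mem_range] at hp hp'
        have hq1 : q < tot V.1 := by rw [V.2.2]; exact hp.2
        have hq2 : q' < tot V'.1 := by rw [V'.2.2]; exact hp'.2
        have h1 := close_open V.1 q hq1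
        have h2 := close_open V'.1 q' hq2
        simp only [Prod.mk.injEq] at he
        rw [he.1, he.2, h2] at h1
        simp only [Prod.mk.injEq] at h1
        exact Prod.ext (Subtype.ext h1.1.symm) h1.2.symm
    rw [card_product, card_product, card_range, card_range] at key
    have h3 : S.card * m ≤ (Nb.card * 2) * m := by
      calc S.card * m ≤ Nb.card * (m + f) := key
        _ ≤ Nb.card * (2 * m) := Nat.mul_le_mul_left _ (by omega)
        _ = (Nb.card * 2) * m := by ring
    exact Nat.le_of_mul_le_mul_right h3 hm
  obtain ⟨g, hg, hg'⟩ := (Finset.all_card_le_biUnion_card_iff_exists_injective t).1 hall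
  refine ⟨fun V => if h : V.length ≤ f ∧ tot V = m then g ⟨V, h⟩ else (V, 0), ?_, ?_⟩
  · intro V h1 h2 _
    have h : V.length ≤ f ∧ tot V = m := ⟨h1, h2⟩
    simp only [dif_pos h]
    have hmem := hg' ⟨V, h⟩
    simp only [t, mem_product, mem_univ, and_true, nbr, mem_image, mem_range] at hmem
    obtain ⟨q, hq, he⟩ := hmem
    rw [← he]
    obtain ⟨U, A, B, C, W, e1, e2, _⟩ := openV_spec V q (by omega)
    exact ⟨U, A, B, C, W, e1, e2⟩
  · intro V V' h1 h2 h1' h2' he
    have h : V.length ≤ f ∧ tot V = m := ⟨h1, h2⟩
    have h' : V'.length ≤ f ∧ tot V' = m := ⟨h1', h2'⟩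
    simp only [dif_pos h, dif_pos h'] at he
    have := hg he
    exact congrArg Subtype.val this

end Pool.Agent.Helper31K9.SymTree
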