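import Pool.Agent.Helper31K9.SymTreeD

/-!
# The bounded degree graph on representations is connected (for MP_ec2aec_co)
-/

namespace Pool.Agent.Helper31K9.SymTree

open F

/-- The edges `x — y` of the bounded degree graph. -/
inductive E (τ : List F → List F × Fin 2) : Rep → Rep → Prop
  | ends {x y : Rep} : Ends x y → E τ x y
  | near (L U : List F) (A B C : F) (V R : List F) : U.length ≤ 3 → (A = .nil ∨ C = .nil) →
      E τ (L, U ++ A :: B :: C :: V, R) (L, U ++ app A (cons B C) :: V, R)
  | far (U : List F) (a : ℕ) (A B C : F) (V : List F) : U.length = 4 → (A = .nil ∨ C = .nil) →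
      ¬ (A = .nil ∧ B = .nil ∧ C = .nil) →
      E τ ([], (U ++ List.replicate a F.nil) ++ A :: B :: C :: V, [])
        ([], (U ++ List.replicate a F.nil) ++ app A (cons B C) :: V, [])
  | bad (a : ℕ) (V : List F) :
      E τ ([], List.replicate (4 + a) F.nil ++ cons .nil .nil :: (τ V).1, [])
        ([], List.replicate (4 + a) F.nil ++ cons .nil .nil :: V, [])

/-- The specification of the choice function. -/
def TauSpec (f e : ℕ) (τ : List F → List F × Fin 2) : Prop :=
  (∀ V, V.length ≤ f → tot V + 1 = e → OpenRel V (τ V).1) ∧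
    (∀ V V', V.length ≤ f → tot V + 1 = e → V'.length ≤ f → tot V' + 1 = e →
      τ V = τ V' → V = V')

/-- Edges between valid representations. -/
def HE (f e : ℕ) (τ : List F → List F × Fin 2) (x y : Rep) : Prop :=
  IsX f e x ∧ IsY f e y ∧ E τ x y

/-- Connection. -/
def Conn (f e : ℕ) (τ : List F → List F × Fin 2) : Rep → Rep → Prop :=
  Relation.EqvGen (HE f e τ)

/-- Conditional connection. -/
def CC (f e : ℕ) (τ : List F → List F × Fin 2) (y y' : Rep) : Prop :=
  (IsY f e y ↔ IsY f e y') ∧ (IsY f e y → Conn f e τ y y')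

variable {f e : ℕ} {τ : List F → List F × Fin 2}

theorem CC.refl (y : Rep) : CC f e τ y y := ⟨Iff.rfl, fun _ => Relation.EqvGen.refl _⟩

theorem CC.symm {y y' : Rep} (h : CC f e τ y y') : CC f e τ y' y :=
  ⟨h.1.symm, fun h' => Relation.EqvGen.symm _ _ (h.2 (h.1.2 h'))⟩

theorem CC.trans {y y' y'' : Rep} (h : CC f e τ y y') (h' : CC f e τ y' y'') : CC f e τ y y'' :=
  ⟨h.1.trans h'.1, fun h0 => Relation.EqvGen.trans _ _ _ (h.2 h0) (h'.2 (h.1.1 h0))⟩

theorem cc_of {x y y' : Rep} (m : IsX f e x ↔ IsY f e y) (m' : IsX f e x ↔ IsY f e y')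
    (h : E τ x y) (h' : E τ x y') : CC f e τ y y' := by
  refine ⟨m.symm.trans m', fun hy => ?_⟩
  have hx : IsX f e x := m.2 hy
  exact Relation.EqvGen.trans _ _ _ (Relation.EqvGen.symm _ _ (Relation.EqvGen.rel _ _ ⟨hx, hy, h⟩))
    (Relation.EqvGen.rel _ _ ⟨hx, m'.1 hx, h'⟩)

/-- Connection of middle parts. -/
def NN (f e : ℕ) (τ : List F → List F × Fin 2) (M M' : List F) : Prop :=
  ∀ L R, CC f e τ (L, M, R) (L, M', R)

theorem NN.refl (M : List F) : NN f e τ M M := fun _ _ => CC.refl _
theorem NN.symm {M M' : List F} (h : NN f e τ M M') : NN f e τ M' M := fun L R => (h L R).symm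
theorem NN.trans {M M' M'' : List F} (h : NN f e τ M M') (h' : NN f e τ M' M'') :
    NN f e τ M M'' := fun L R => (h L R).trans (h' L R)

theorem nn_of (X : List F) (U : List F) (A B C : F) (V U' : List F) (A' B' C' : F) (V' : List F)
    (hX : X = U ++ A :: B :: C :: V) (hX' : X = U' ++ A' :: B' :: C' :: V')
    (hU : U.length ≤ 3) (hU' : U'.length ≤ 3) (h : A = .nil ∨ C = .nil)
    (h' : A' = .nil ∨ C' = .nil) :
    NN f e τ (U ++ app A (cons B C) :: V) (U' ++ app A' (cons B' C') :: V') := by
  intro L R
  have e1 : E τ (L, X, R) (L, U ++ app A (cons B C) :: V, R) := by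
    rw [hX]; exact E.near L U A B C V R hU h
  have e2 : E τ (L, X, R) (L, U' ++ app A' (cons B' C') :: V', R) := by
    rw [hX']; exact E.near L U' A' B' C' V' R hU' h'
  have m1 : Mid (L, X, R) (L, U ++ app A (cons B C) :: V, R) := by
    rw [hX]; exact Mid.mk L U A B C V R
  have m2 : Mid (L, X, R) (L, U' ++ app A' (cons B' C') :: V', R) := by
    rw [hX']; exact Mid.mk L U' A' B' C' V' R
  exact cc_of (mid_isX m1) (mid_isX m2) e1 e2

/-- Move (v). -/
theorem move5 (U : List F) (hU : U.length ≤ 1) (A B C D : F) (V : List F) :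
    NN f e τ (U ++ app A (cons B .nil) :: C :: D :: V) (U ++ A :: B :: cons C D :: V) := by
  have := nn_of (f := f) (e := e) (τ := τ) (U ++ A :: B :: .nil :: C :: D :: V) U A B .nil (C :: D :: V)
    (U ++ [A, B]) .nil C D V rfl (by simp) (by omega) (by simp; omega) (Or.inr rfl) (Or.inl rfl)
  simpa using this

/-- Move (iii). -/
theorem move3 (U : List F) (hU : U.length ≤ 2) (A Y : F) (V : List F) :
    NN f e τ (U ++ app A (cons .nil .nil) :: Y :: V) (U ++ A :: cons .nil Y :: V) := by
  have := nn_of (f := f) (e := e) (τ := τ) (U ++ A :: .nil :: .nil :: Y :: V) U A .nil .nil (Y :: V)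
    (U ++ [A]) .nil .nil Y V rfl (by simp) (by omega) (by simp; omega) (Or.inr rfl) (Or.inl rfl)
  simpa using this

/-- Move (ii). -/
theorem move2 (U : List F) (hU : U.length ≤ 2) (B C : F) (V : List F) :
    NN f e τ (U ++ cons B C :: .nil :: V) (U ++ .nil :: app B (cons C .nil) :: V) := by
  have := nn_of (f := f) (e := e) (τ := τ) (U ++ .nil :: B :: C :: .nil :: V) U .nil B C (.nil :: V)
    (U ++ [.nil]) B C .nil V rfl (by simp) (by omega) (by simp; omega) (Or.inl rfl) (Or.inr rfl)
  simpa using this

/-- Move (iv). -/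
theorem move4 (U : List F) (hU : U.length ≤ 2) (A B : F) (V : List F) :
    NN f e τ (U ++ app A (cons B .nil) :: .nil :: V) (U ++ A :: app B (cons .nil .nil) :: V) := by
  have := nn_of (f := f) (e := e) (τ := τ) (U ++ A :: B :: .nil :: .nil :: V) U A B .nil (.nil :: V)
    (U ++ [A]) B .nil .nil V rfl (by simp) (by omega) (by simp; omega) (Or.inr rfl) (Or.inr rfl)
  simpa using this

theorem sweep (U : List F) (hU : U.length ≤ 1) (P : F) : ∀ (A R Q : F) (V : List F),
    NN f e τ (U ++ A :: R :: app P (cons Q .nil) :: V)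
      (U ++ app (app A (cons R .nil)) P :: Q :: .nil :: V) := by
  induction P with
  | nil =>
    intro A R Q V
    simpa using (move5 (f := f) (e := e) (τ := τ) U hU A R Q .nil V).symm
  | cons P1 P2 _ ih =>
    intro A R Q V
    have h1 := (move5 (f := f) (e := e) (τ := τ) U hU A R P1 (app P2 (cons Q .nil)) V).symm
    have h2 := ih (app A (cons R .nil)) P1 Q V
    have h3 := h1.trans h2
    have e1 : app (app (app A (cons R .nil)) (cons P1 .nil)) P2
        = app (app A (cons R .nil)) (cons P1 P2) := by
      rw [app_assoc (app A (cons R .nil))]; rfl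
    rw [e1] at h3
    exact h3

theorem step1 (U : List F) (hU : U.length ≤ 1) (A P Q : F) (V : List F) :
    NN f e τ (U ++ A :: cons P Q :: .nil :: V)
      (U ++ app (app A (cons .nil .nil)) P :: Q :: .nil :: V) := by
  have h1 := move2 (f := f) (e := e) (τ := τ) (U ++ [A]) (by simp; omega) P Q V
  have h2 := sweep (f := f) (e := e) (τ := τ) U hU P A .nil Q V
  have h1' : NN f e τ (U ++ A :: cons P Q :: .nil :: V)
      (U ++ A :: .nil :: app P (cons Q .nil) :: V) := by simpa using h1
  exact h1'.trans h2

theorem step2 (U : List F) (hU : U.length ≤ 1) (B : F) : ∀ (A : F) (V : List F),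
    ∃ A', sz A' = sz A + sz B ∧ top A + top B ≤ top A' ∧
      NN f e τ (U ++ A :: B :: .nil :: V) (U ++ A' :: .nil :: .nil :: V) := by
  induction B with
  | nil => intro A V; exact ⟨A, by simp, by simp, NN.refl _⟩
  | cons P Q _ ih =>
    intro A V
    obtain ⟨A', h1, h2, h3⟩ := ih (app (app A (cons .nil .nil)) P) V
    refine ⟨A', ?_, ?_, (step1 U hU A P Q V).trans h3⟩
    · rw [h1]; simp; ring
    · simp at h2 ⊢; omega

theorem step3 (U : List F) (hU : U.length ≤ 1) (C : F) : ∀ (A B : F) (V : List F),
    ∃ X, sz X = sz A + sz B + sz C ∧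
      NN f e τ (U ++ A :: B :: C :: V) (U ++ X :: .nil :: .nil :: V) := by
  induction C with
  | nil =>
    intro A B V
    obtain ⟨A', h1, _, h3⟩ := step2 (f := f) (e := e) (τ := τ) U hU B A V
    exact ⟨A', by rw [h1]; simp, h3⟩
  | cons C1 C2 _ ih =>
    intro A B V
    obtain ⟨X, h1, h2⟩ := ih (app A (cons B .nil)) C1 V
    refine ⟨X, by rw [h1]; simp; ring, (move5 U hU A B C1 C2 V).symm.trans h2⟩

theorem step4 : ∀ (m : ℕ) (X : F) (j : ℕ) (V : List F), 2 * sz X - top X ≤ m →
    NN f e τ (X :: .nil :: .nil :: flat j :: V) (.nil :: .nil :: .nil :: flat (sz X + j) :: V) := by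
  intro m
  induction m using Nat.strong_induction_on with
  | _ m ih =>
    intro X j V hm
    by_cases hX : X = .nil
    · subst hX; simpa using NN.refl _
    · obtain ⟨A, B, hAB⟩ := exists_last hX
      have htop := top_le_sz A
      have htopB := top_le_sz B
      by_cases hB : B = .nil
      · subst hB
        have h1 := move3 (f := f) (e := e) (τ := τ) [] (by simp) A .nil (.nil :: flat j :: V)
        have h2 := move3 (f := f) (e := e) (τ := τ) [A] (by simp) .nil .nil (flat j :: V)
        have h3 := move3 (f := f) (e := e) (τ := τ) [A, .nil] (by simp) .nil (flat j) V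
        simp only [List.nil_append, List.cons_append, nil_app] at h1 h2 h3
        have hlt : 2 * sz A - top A < m := by
          rw [hAB] at hm; simp at hm; omega
        have h4 := ih (2 * sz A - top A) hlt A (j + 1) V le_rfl
        have e1 : sz A + (j + 1) = sz X + j := by rw [hAB]; simp; ring
        rw [e1] at h4
        rw [← hAB] at h1
        exact ((h1.trans h2).trans h3).trans h4
      · have h1 := move4 (f := f) (e := e) (τ := τ) [] (by simp) A B (.nil :: flat j :: V)
        obtain ⟨A', a1, a2, a3⟩ := step2 (f := f) (e := e) (τ := τ) [] (by simp)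
          (app B (cons .nil .nil)) A (flat j :: V)
        simp only [List.nil_append] at h1 a3
        rw [← hAB] at h1
        have hBt : 0 < top B := by
          cases B with
          | nil => exact absurd rfl hB
          | cons c r => simp
        have hs : sz A' = sz X := by rw [a1, hAB]; simp
        have hlt : 2 * sz A' - top A' < m := by
          rw [hs]
          have e1 : top X = top A + 1 := by rw [hAB]; simp
          have e2 : top A + (top B + 1) ≤ top A' := by simpa using a2
          have e3 := top_le_sz A'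
          rw [hs] at e3
          omega
        have h4 := ih _ hlt A' j V le_rfl
        rw [hs] at h4
        exact (h1.trans a3).trans h4

/-- The near lemma. -/
theorem near_normal (A0 A1 A2 A3 : F) (V : List F) :
    NN f e τ (A0 :: A1 :: A2 :: A3 :: V)
      (.nil :: .nil :: .nil :: flat (sz A0 + sz A1 + sz A2 + sz A3) :: V) := by
  obtain ⟨X1, h1, h2⟩ := step3 (f := f) (e := e) (τ := τ) [A0] (by simp) A3 A1 A2 V
  obtain ⟨X, h3, h4⟩ := step3 (f := f) (e := e) (τ := τ) [] (by simp) .nil A0 X1 (.nil :: V)
  have h5 := step4 (f := f) (e := e) (τ := τ) _ X 0 V le_rfl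
  simp only [List.cons_append, List.nil_append, flat, sz_nil, Nat.add_zero] at h2 h4 h5 h3
  rw [h3, h1] at h5
  have e1 : sz A0 + (sz A1 + sz A2 + sz A3) = sz A0 + sz A1 + sz A2 + sz A3 := by ring
  rw [e1] at h5
  exact (h2.trans h4).trans h5

theorem near_any {A0 A1 A2 A3 B0 B1 B2 B3 : F} (V : List F)
    (h : sz A0 + sz A1 + sz A2 + sz A3 = sz B0 + sz B1 + sz B2 + sz B3) :
    NN f e τ (A0 :: A1 :: A2 :: A3 :: V) (B0 :: B1 :: B2 :: B3 :: V) := by
  have h1 := near_normal (f := f) (e := e) (τ := τ) A0 A1 A2 A3 V
  have h2 := near_normal (f := f) (e := e) (τ := τ) B0 B1 B2 B3 V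
  rw [h] at h1
  exact h1.trans h2.symm

/-! ### Far moves -/

/-- Connection of representations without ends. -/
def ZZ (f e : ℕ) (τ : List F → List F × Fin 2) (M M' : List F) : Prop :=
  CC f e τ ([], M, []) ([], M', [])

theorem NN.zz {M M' : List F} (h : NN f e τ M M') : ZZ f e τ M M' := h [] []
theorem ZZ.trans {M M' M'' : List F} (h : ZZ f e τ M M') (h' : ZZ f e τ M' M'') :
    ZZ f e τ M M'' := CC.trans h h'
theorem ZZ.symm {M M' : List F} (h : ZZ f e τ M M') : ZZ f e τ M' M := CC.symm h

theorem zz_of (X : List F) (M M' : List F)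
    (m : Mid ([], X, []) ([], M, [])) (m' : Mid ([], X, []) ([], M', []))
    (h : E τ ([], X, []) ([], M, [])) (h' : E τ ([], X, []) ([], M', [])) : ZZ f e τ M M' :=
  cc_of (mid_isX m) (mid_isX m') h h'

theorem replicate_comm (a : ℕ) (V : List F) :
    List.replicate a F.nil ++ F.nil :: V = F.nil :: (List.replicate a F.nil ++ V) := by
  induction a with
  | zero => rfl
  | succ a ih => simp only [List.replicate_succ, List.cons_append, ih]

/-- Moving a big slot to the left and absorbing it. -/
theorem far_left : ∀ (a : ℕ) (X : F) (V : List F) (A0 A1 A2 A3 : F), 2 ≤ sz X →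
    ∃ B0 B1 B2 B3, sz B0 + sz B1 + sz B2 + sz B3 = sz A0 + sz A1 + sz A2 + sz A3 + sz X ∧
      ZZ f e τ (A0 :: A1 :: A2 :: A3 :: (List.replicate a F.nil ++ X :: V))
        (B0 :: B1 :: B2 :: B3 :: (List.replicate (a + 1) F.nil ++ V)) := by
  intro a
  induction a with
  | zero =>
    intro X V A0 A1 A2 A3 hX
    have hne : X ≠ .nil := by rintro rfl; simp at hX
    obtain ⟨P, Q, hPQ⟩ := exists_last hne
    have hPQ' : ¬ (P = .nil ∧ Q = .nil ∧ F.nil = F.nil) := by
      rintro ⟨rfl, rfl, _⟩
      rw [hPQ] at hX; simp at hX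
    set N := sz A0 + sz A1 + sz A2 + sz A3 with hN
    have h1 := near_any (f := f) (e := e) (τ := τ) (A0 := A0) (A1 := A1) (A2 := A2) (A3 := A3)
      (B0 := flat N) (B1 := .nil) (B2 := .nil) (B3 := .nil) (X :: V) (by simp [hN])
    have h2 : ZZ f e τ (flat N :: .nil :: .nil :: .nil :: X :: V)
        (flat N :: .nil :: .nil :: cons P Q :: .nil :: V) := by
      apply zz_of (flat N :: .nil :: .nil :: .nil :: P :: Q :: .nil :: V)
      · rw [hPQ]
        exact Mid.mk [] [flat N, .nil, .nil, .nil] P Q .nil V []
      · exact Mid.mk [] [flat N, .nil, .nil] .nil P Q (.nil :: V) []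
      · rw [hPQ]
        exact E.far [flat N, .nil, .nil, .nil] 0 P Q .nil V rfl (Or.inr rfl) hPQ'
      · exact E.near [] [flat N, .nil, .nil] .nil P Q (.nil :: V) [] (by simp) (Or.inl rfl)
    refine ⟨flat N, .nil, .nil, cons P Q, ?_, ?_⟩
    · rw [hPQ]; simp; ring
    · exact h1.zz.trans h2
  | succ a ih =>
    intro X V A0 A1 A2 A3 hX
    have hne : X ≠ .nil := by rintro rfl; simp at hX
    obtain ⟨P, Q, hPQ⟩ := exists_last hne
    have hPQ' : ¬ (P = .nil ∧ Q = .nil) := by
      rintro ⟨rfl, rfl⟩
      rw [hPQ] at hX; simp at hX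
    have h2 : ZZ f e τ (A0 :: A1 :: A2 :: A3 :: (List.replicate (a + 1) F.nil ++ X :: V))
        (A0 :: A1 :: A2 :: A3 :: (List.replicate a F.nil ++ cons P Q :: .nil :: V)) := by
      have eX : (([A0, A1, A2, A3] ++ List.replicate (a + 1) F.nil) ++ P :: Q :: .nil :: V)
          = (([A0, A1, A2, A3] ++ List.replicate a F.nil) ++ .nil :: P :: Q :: .nil :: V) := by
        rw [List.replicate_succ']
        simp
      have e1 : (A0 :: A1 :: A2 :: A3 :: (List.replicate (a + 1) F.nil ++ X :: V))
          = (([A0, A1, A2, A3] ++ List.replicate (a + 1) F.nil) ++ app P (cons Q .nil) :: V) := by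
        rw [hPQ]; simp
      have e2 : (A0 :: A1 :: A2 :: A3 :: (List.replicate a F.nil ++ cons P Q :: .nil :: V))
          = (([A0, A1, A2, A3] ++ List.replicate a F.nil) ++ app .nil (cons P Q) :: .nil :: V) := by
        simp
      rw [e1, e2]
      apply zz_of (([A0, A1, A2, A3] ++ List.replicate (a + 1) F.nil) ++ P :: Q :: .nil :: V)
      · exact Mid.mk [] _ P Q .nil V []
      · rw [eX]; exact Mid.mk [] _ .nil P Q (.nil :: V) []
      · exact E.far [A0, A1, A2, A3] (a + 1) P Q .nil V rfl (Or.inr rfl) (fun h => hPQ' ⟨h.1, h.2.1⟩)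
      · rw [eX]
        exact E.far [A0, A1, A2, A3] a .nil P Q (.nil :: V) rfl (Or.inl rfl)
          (fun h => hPQ' ⟨h.2.1, h.2.2⟩)
    obtain ⟨B0, B1, B2, B3, h3, h4⟩ := ih (cons P Q) (.nil :: V) A0 A1 A2 A3 (by
      rw [hPQ] at hX; simp at hX ⊢; omega)
    refine ⟨B0, B1, B2, B3, ?_, ?_⟩
    · rw [h3, hPQ]; simp; ring
    · have e3 : List.replicate (a + 1) F.nil ++ F.nil :: V = List.replicate (a + 1 + 1) F.nil ++ V := by
        rw [replicate_comm, List.replicate_succ (n := a + 1)]; rfl
      rw [e3] at h4
      exact h2.trans h4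

/-- A single tree far away, with something near. -/
theorem far_single (a : ℕ) (V : List F) (A0 A1 A2 A3 : F)
    (hN : 1 ≤ sz A0 + sz A1 + sz A2 + sz A3) :
    ∃ B0 B1 B2 B3, sz B0 + sz B1 + sz B2 + sz B3 = sz A0 + sz A1 + sz A2 + sz A3 + 1 ∧
      ZZ f e τ (A0 :: A1 :: A2 :: A3 :: (List.replicate a F.nil ++ cons .nil .nil :: V))
        (B0 :: B1 :: B2 :: B3 :: (List.replicate (a + 1) F.nil ++ V)) := by
  obtain ⟨N, hN'⟩ : ∃ N, sz A0 + sz A1 + sz A2 + sz A3 = N + 1 :=
    ⟨sz A0 + sz A1 + sz A2 + sz A3 - 1, by omega⟩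
  have h1 := near_any (f := f) (e := e) (τ := τ) (A0 := A0) (A1 := A1) (A2 := A2) (A3 := A3)
    (B0 := app (flat N) (cons .nil .nil)) (B1 := .nil) (B2 := .nil) (B3 := .nil)
    (List.replicate a F.nil ++ cons .nil .nil :: V) (by simp [hN'])
  have h2 : ZZ f e τ (app (flat N) (cons .nil .nil) :: .nil :: .nil :: .nil ::
        (List.replicate a F.nil ++ cons .nil .nil :: V))
      (flat N :: .nil :: .nil :: .nil ::
        (List.replicate a F.nil ++ cons .nil (cons .nil .nil) :: V)) := by
    have eX : (flat N :: F.nil :: .nil :: .nil :: .nil :: .nil ::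
          (List.replicate a F.nil ++ cons .nil .nil :: V))
        = (([flat N, .nil, .nil, .nil] ++ List.replicate a F.nil)
            ++ .nil :: .nil :: cons .nil .nil :: V) := by
      simp only [List.cons_append, List.nil_append, replicate_comm]
    have e2 : (flat N :: F.nil :: .nil :: .nil ::
          (List.replicate a F.nil ++ cons .nil (cons .nil .nil) :: V))
        = (([flat N, .nil, .nil, .nil] ++ List.replicate a F.nil)
            ++ app .nil (cons .nil (cons .nil .nil)) :: V) := by
      simp
    apply zz_of (flat N :: F.nil :: .nil :: .nil :: .nil :: .nil ::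
          (List.replicate a F.nil ++ cons .nil .nil :: V))
    · exact Mid.mk [] [] (flat N) .nil .nil _ []
    · rw [eX, e2]; exact Mid.mk [] _ .nil .nil (cons .nil .nil) V []
    · exact E.near [] [] (flat N) .nil .nil _ [] (by simp) (Or.inr rfl)
    · rw [eX, e2]
      exact E.far [flat N, .nil, .nil, .nil] a .nil .nil (cons .nil .nil) V rfl (Or.inl rfl)
        (by simp)
  obtain ⟨B0, B1, B2, B3, h3, h4⟩ := far_left (f := f) (e := e) (τ := τ) a
    (cons .nil (cons .nil .nil)) V (flat N) .nil .nil .nil (by simp)
  refine ⟨B0, B1, B2, B3, ?_, (h1.zz.trans h2).trans h4⟩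
  rw [h3, hN']; simp

/-- Decomposition of a list of forests at the first nonempty entry. -/
theorem first_nonempty (Z : List F) : (∃ a, Z = List.replicate a F.nil) ∨
    ∃ a X V, X ≠ F.nil ∧ Z = List.replicate a F.nil ++ X :: V := by
  induction Z with
  | nil => exact Or.inl ⟨0, rfl⟩
  | cons D Z ih =>
    by_cases hD : D = .nil
    · subst hD
      rcases ih with ⟨a, h⟩ | ⟨a, X, V, h1, h2⟩
      · exact Or.inl ⟨a + 1, by rw [h, List.replicate_succ]⟩
      · exact Or.inr ⟨a + 1, X, V, h1, by rw [h2, List.replicate_succ]; rfl⟩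
    · exact Or.inr ⟨0, D, Z, hD, rfl⟩

/-- The root. -/
def root (f e : ℕ) : Rep := ([], flat e :: List.replicate f F.nil, [])

theorem to_root (hτ : TauSpec f e τ) (hf : 3 ≤ f) :
    ∀ (m : ℕ) (A0 A1 A2 A3 : F) (Z : List F), tot Z = m →
      IsY f e ([], A0 :: A1 :: A2 :: A3 :: Z, []) →
      Conn f e τ ([], A0 :: A1 :: A2 :: A3 :: Z, []) (root f e) := by
  intro m
  induction m using Nat.strong_induction_on with
  | _ m ih =>
    intro A0 A1 A2 A3 Z hm hY
    have hY' := hY
    simp only [IsY, List.length_nil, List.length_cons, tot_nil, tot_cons, true_and] at hY'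
    obtain ⟨hlen, htot⟩ := hY'
    rcases first_nonempty Z with ⟨a, h⟩ | ⟨a, X, V, hX, h⟩
    · -- everything is near
      subst h
      rw [tot_replicate] at htot
      rw [List.length_replicate] at hlen
      have h1 := near_any (f := f) (e := e) (τ := τ) (A0 := A0) (A1 := A1) (A2 := A2) (A3 := A3)
        (B0 := flat e) (B1 := .nil) (B2 := .nil) (B3 := .nil) (List.replicate a F.nil)
        (by simp; omega)
      have e1 : root f e = ([], flat e :: F.nil :: .nil :: .nil :: List.replicate a F.nil, []) := by
        have : f = a + 1 + 1 + 1 := by omega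
        rw [root, this]
        simp only [List.replicate_succ]
      rw [e1]
      exact h1.zz.2 hY
    · subst h
      rw [tot_append, tot_replicate, tot_cons] at hm htot
      have hszX : 1 ≤ sz X := by
        cases X with
        | nil => exact absurd rfl hX
        | cons c r => simp; omega
      by_cases hX2 : 2 ≤ sz X
      · obtain ⟨B0, B1, B2, B3, h3, h4⟩ := far_left (f := f) (e := e) (τ := τ) a X V A0 A1 A2 A3 hX2
        have h5 := ih (tot (List.replicate (a + 1) F.nil ++ V))
          (by rw [tot_append, tot_replicate]; omega) B0 B1 B2 B3 _ rfl (h4.1.1 hY)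
        exact Relation.EqvGen.trans _ _ _ (h4.2 hY) h5
      · have hX1 : X = cons .nil .nil := by
          cases X with
          | nil => exact absurd rfl hX
          | cons c r =>
            simp only [sz_cons] at hX2
            have h1 : c = .nil := sz_eq_zero.1 (by omega)
            have h2 : r = .nil := sz_eq_zero.1 (by omega)
            rw [h1, h2]
        subst hX1
        by_cases hN : 1 ≤ sz A0 + sz A1 + sz A2 + sz A3
        · obtain ⟨B0, B1, B2, B3, h3, h4⟩ := far_single (f := f) (e := e) (τ := τ) a V A0 A1 A2 A3 hN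
          have h5 := ih (tot (List.replicate (a + 1) F.nil ++ V))
            (by rw [tot_append, tot_replicate]; simp at hm; omega) B0 B1 B2 B3 _ rfl (h4.1.1 hY)
          exact Relation.EqvGen.trans _ _ _ (h4.2 hY) h5
        · -- the bad case
          have z0 : A0 = .nil := sz_eq_zero.1 (by omega)
          have z1 : A1 = .nil := sz_eq_zero.1 (by omega)
          have z2 : A2 = .nil := sz_eq_zero.1 (by omega)
          have z3 : A3 = .nil := sz_eq_zero.1 (by omega)
          subst z0 z1 z2 z3
          simp only [sz_nil, sz_cons] at htot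
          have hVlen : V.length ≤ f := by
            simp only [List.length_append, List.length_cons, List.length_replicate] at hlen
            omega
          have hVtot : tot V + 1 = e := by omega
          obtain ⟨U, A, B, C, W, hV, hV'⟩ := hτ.1 V hVlen hVtot
          have ey : (F.nil :: .nil :: .nil :: .nil :: (List.replicate a F.nil ++ cons .nil .nil :: V))
              = List.replicate (4 + a) F.nil ++ cons .nil .nil :: V := by
            rw [Nat.add_comm 4 a]
            simp only [List.replicate_succ, List.cons_append]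
          rw [ey] at hY ⊢
          set x : Rep := ([], List.replicate (4 + a) F.nil ++ cons .nil .nil :: (τ V).1, [])
            with hx
          have hm1 : Mid x ([], List.replicate (4 + a) F.nil ++ cons .nil .nil :: V, []) := by
            have e1 : List.replicate (4 + a) F.nil ++ cons .nil .nil :: (τ V).1
                = (List.replicate (4 + a) F.nil ++ cons .nil .nil :: U) ++ A :: B :: C :: W := by
              rw [hV']; simp
            have e2 : List.replicate (4 + a) F.nil ++ cons .nil .nil :: V
                = (List.replicate (4 + a) F.nil ++ cons .nil .nil :: U)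
                    ++ app A (cons B C) :: W := by
              rw [hV]; simp
            rw [hx, e1, e2]
            exact Mid.mk _ _ _ _ _ _ _
          have htotV' : tot (τ V).1 + 1 = tot V := by
            rw [hV', hV]; simp; ring
          -- the other neighbour of `x`
          have hrep : List.replicate (4 + a) F.nil = List.replicate (2 + a) F.nil ++ [.nil, .nil] := by
            have : 4 + a = (2 + a) + 2 := by omega
            rw [this, List.replicate_add]; rfl
          have hxe : x = ([], List.replicate (2 + a) F.nil ++ .nil :: .nil :: cons .nil .nil :: (τ V).1,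
              []) := by
            rw [hx, hrep]; simp
          have hm2 : Mid x ([], List.replicate (2 + a) F.nil ++ app .nil (cons .nil (cons .nil .nil))
              :: (τ V).1, []) := by
            rw [hxe]; exact Mid.mk _ _ _ _ _ _ _
          have he1 : E τ x ([], List.replicate (4 + a) F.nil ++ cons .nil .nil :: V, []) :=
            E.bad a V
          have he2 : E τ x ([], List.replicate (2 + a) F.nil ++ app .nil (cons .nil (cons .nil .nil))
              :: (τ V).1, []) := by
            rw [hxe]
            by_cases ha : a < 2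
            · exact E.near [] _ .nil .nil (cons .nil .nil) _ [] (by simp; omega) (Or.inl rfl)
            · obtain ⟨b, rfl⟩ : ∃ b, a = b + 2 := ⟨a - 2, by omega⟩
              have e1 : List.replicate (2 + (b + 2)) F.nil
                  = List.replicate 4 F.nil ++ List.replicate b F.nil := by
                rw [← List.replicate_add]; congr 1; omega
              rw [e1]
              exact E.far (List.replicate 4 F.nil) b .nil .nil (cons .nil .nil) _ (by simp)
                (Or.inl rfl) (by simp)
          have hcc := cc_of (f := f) (e := e) (mid_isX hm1) (mid_isX hm2) he1 he2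
          have hY2 := hcc.1.1 hY
          refine Relation.EqvGen.trans _ _ _ (hcc.2 hY) ?_
          simp only [nil_app] at hY2 ⊢
          by_cases ha : a < 2
          · -- the pair is now near
            have hlen2 := hY2.2.1
            simp only [List.length_append, List.length_replicate, List.length_cons] at hlen2
            interval_cases a
            · -- a = 0 : `nil nil ()() V'`
              have hl : 1 ≤ (τ V).1.length := by omega
              obtain ⟨H, T, hHT⟩ : ∃ H T, (τ V).1 = H :: T := by
                cases h : (τ V).1 with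
                | nil => rw [h] at hl; simp at hl
                | cons H T => exact ⟨H, T, rfl⟩
              rw [hHT] at hY2 ⊢ htotV'
              simp only [tot_cons] at htotV'
              exact ih (tot T) (by simp only [sz_cons, sz_nil] at hm; omega) .nil .nil
                (cons .nil (cons .nil .nil)) H T rfl hY2
            · exact ih (tot (τ V).1) (by simp only [sz_cons, sz_nil] at hm; omega) .nil .nil .nil
                (cons .nil (cons .nil .nil)) _ rfl hY2
          · obtain ⟨b, rfl⟩ : ∃ b, a = b + 2 := ⟨a - 2, by omega⟩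
            have e1 : List.replicate (2 + (b + 2)) F.nil ++ cons .nil (cons .nil .nil) :: (τ V).1
                = (F.nil :: .nil :: .nil :: .nil ::
                  (List.replicate b F.nil ++ cons .nil (cons .nil .nil) :: (τ V).1)) := by
              have : 2 + (b + 2) = b + 1 + 1 + 1 + 1 := by omega
              rw [this]
              simp only [List.replicate_succ, List.cons_append]
            rw [e1] at hY2 ⊢
            obtain ⟨B0, B1, B2, B3, h3, h4⟩ := far_left (f := f) (e := e) (τ := τ) b
              (cons .nil (cons .nil .nil)) (τ V).1 .nil .nil .nil .nil (by simp)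
            have h5 := ih (tot (List.replicate (b + 1) F.nil ++ (τ V).1))
              (by rw [tot_append, tot_replicate]; simp only [sz_cons, sz_nil] at hm; omega)
              B0 B1 B2 B3 _ rfl (h4.1.1 hY2)
            exact Relation.EqvGen.trans _ _ _ (h4.2 hY2) h5

/-- Every `y`-representation is connected to the root. -/
theorem y_to_root (hτ : TauSpec f e τ) (hf : 3 ≤ f) :
    ∀ (s : ℕ) (L M R : List F), L.length = s → IsY f e (L, M, R) →
      Conn f e τ (L, M, R) (root f e) := by
  intro s
  induction s with
  | zero =>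
    intro L M R hL hY
    have hL' : L = [] := List.length_eq_zero_iff.mp hL
    subst hL'
    have hR : R = [] := List.length_eq_zero_iff.mp (by have := hY.1; simp at this; omega)
    subst hR
    have hM := hY.2.1
    match M, hM with
    | A0 :: A1 :: A2 :: A3 :: Z, _ => exact to_root hτ hf _ A0 A1 A2 A3 Z rfl hY
    | [], h => simp at h
    | [_], h => simp at h; omega
    | [_, _], h => simp at h; omega
    | [_, _, _], h => simp at h; omega
  | succ s ih =>
    intro L M R hL hY
    obtain ⟨L', l, rfl⟩ : ∃ L' l, L = L' ++ [l] := by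
      rcases List.eq_nil_or_concat L with h | ⟨L', l, h⟩
      · subst h; simp at hL
      · exact ⟨L', l, by rw [h, List.concat_eq_append]⟩
    obtain ⟨r, R', rfl⟩ : ∃ r R', R = r :: R' := by
      cases R with
      | nil => have := hY.1; rw [hL] at this; simp at this
      | cons r R' => exact ⟨r, R', rfl⟩
    have hM := hY.2.1
    obtain ⟨A0, A1, A2, A3, Z, rfl⟩ : ∃ A0 A1 A2 A3 Z, M = A0 :: A1 :: A2 :: A3 :: Z := by
      match M, hM with
      | A0 :: A1 :: A2 :: A3 :: Z, _ => exact ⟨A0, A1, A2, A3, Z, rfl⟩
      | [], h => simp at h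
      | [_], h => simp at h; omega
      | [_, _], h => simp at h; omega
      | [_, _, _], h => simp at h; omega
    have h1 := near_any (f := f) (e := e) (τ := τ) (A0 := A0) (A1 := A1) (A2 := A2) (A3 := A3)
      (B0 := flat (sz A0 + sz A1 + sz A2 + sz A3)) (B1 := .nil) (B2 := .nil) (B3 := .nil) Z
      (by simp) (L' ++ [l]) (r :: R')
    set N := sz A0 + sz A1 + sz A2 + sz A3
    refine Relation.EqvGen.trans _ _ _ (h1.2 hY) ?_
    have hY1 := h1.1.1 hY
    -- the vertex above
    have hen : Ends (L', l :: ((flat N :: .nil :: .nil :: .nil :: Z) ++ [r]), R')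
        (L' ++ [l], flat N :: .nil :: .nil :: .nil :: Z, r :: R') := Ends.mk _ _ _ _ _
    have hmi : Mid (L', l :: ((flat N :: .nil :: .nil :: .nil :: Z) ++ [r]), R')
        (L', app l (cons (flat N) .nil) :: .nil :: .nil :: (Z ++ [r]), R') :=
      Mid.mk L' [] l (flat N) .nil (.nil :: .nil :: (Z ++ [r])) R'
    have he2 : E τ (L', l :: ((flat N :: .nil :: .nil :: .nil :: Z) ++ [r]), R')
        (L', app l (cons (flat N) .nil) :: .nil :: .nil :: (Z ++ [r]), R') :=
      E.near L' [] l (flat N) .nil (.nil :: .nil :: (Z ++ [r])) R' (by simp) (Or.inr rfl)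
    have hcc := cc_of (f := f) (e := e) (ends_isX hen) (mid_isX hmi) (E.ends hen) he2
    refine Relation.EqvGen.trans _ _ _ (hcc.2 hY1) ?_
    exact ih L' _ R' (by simp at hL; omega) (hcc.1.1 hY1)

/-- Every `x`-representation is connected to the root. -/
theorem x_to_root (hτ : TauSpec f e τ) (hf : 3 ≤ f) (x : Rep) (hx : IsX f e x) :
    Conn f e τ x (root f e) := by
  obtain ⟨L, M, R⟩ := x
  have hM := hx.2.1
  obtain ⟨w0, M', wm, rfl⟩ : ∃ w0 M' wm, M = w0 :: (M' ++ [wm]) := by
    cases M with
    | nil => simp at hM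
    | cons w0 M1 =>
      rcases List.eq_nil_or_concat M1 with h | ⟨M', wm, h⟩
      · subst h; simp at hM
      · exact ⟨w0, M', wm, by rw [h, List.concat_eq_append]⟩
  have hen : Ends (L, w0 :: (M' ++ [wm]), R) (L ++ [w0], M', wm :: R) := Ends.mk _ _ _ _ _
  have hy := (ends_isX hen).1 hx
  exact Relation.EqvGen.trans _ _ _ (Relation.EqvGen.rel _ _ ⟨hx, hy, E.ends hen⟩)
    (y_to_root hτ hf _ _ _ _ rfl hy)

end Pool.Agent.Helper31K9.SymTree
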