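import Pool.Agent.Helper31K9.SymTreeE

/-!
# Degree bounds on representations (for MP_ec2aec_co)
-/

namespace Pool.Agent.Helper31K9.SymTree

open F

variable {f e : ℕ} {τ : List F → List F × Fin 2}

/-! ### Neighbours of `x` -/

def endsOf : Rep → Rep
  | (L, M, R) => (L ++ [M.headD .nil], M.tail.dropLast, M.getLastD .nil :: R)

def closeAt (u : ℕ) : Rep → Rep
  | (L, M, R) => (L, M.take u ++ app (M.getD u .nil) (cons (M.getD (u + 1) .nil)
      (M.getD (u + 2) .nil)) :: M.drop (u + 3), R)

def lidx : Rep → ℕ
  | (_, M, _) => (M.drop 4).findIdx (fun D => decide (D ≠ F.nil))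

theorem endsOf_eq {x y : Rep} (h : Ends x y) : endsOf x = y := by
  cases h with
  | mk L M R w0 wm =>
    have h1 : (w0 :: (M ++ [wm])).getLastD .nil = wm := by
      rw [← List.cons_append, List.getLastD_concat]
    simp only [endsOf, h1, List.headD_cons, List.tail_cons, List.dropLast_concat]

theorem closeAt_eq (L U : List F) (A B C : F) (V R : List F) :
    closeAt U.length (L, U ++ A :: B :: C :: V, R) = (L, U ++ app A (cons B C) :: V, R) := by
  simp [closeAt, List.drop_append]

theorem findIdx_replicate (a : ℕ) (X : F) (V : List F) (hX : X ≠ .nil) :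
    (List.replicate a F.nil ++ X :: V).findIdx (fun D => decide (D ≠ F.nil)) = a := by
  induction a with
  | zero => simp [List.findIdx_cons, hX]
  | succ a ih =>
    rw [List.replicate_succ, List.cons_append, List.findIdx_cons, ih]
    simp

theorem rep_inj (a : ℕ) : ∀ (b : ℕ) (X Y : F) (V W : List F), X ≠ .nil → Y ≠ .nil →
    List.replicate a F.nil ++ X :: V = List.replicate b F.nil ++ Y :: W → a = b ∧ X = Y ∧ V = W := by
  intro b X Y V W hX hY h
  have h1 := findIdx_replicate a X V hX
  have h2 := findIdx_replicate b Y W hY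
  rw [h, h2] at h1
  subst h1
  have h3 := List.append_cancel_left h
  rw [List.cons.injEq] at h3
  exact ⟨rfl, h3.1, h3.2⟩

/-- `x` and `y` are joined by an edge of the last kind, with index `i`. -/
def BadE (f e : ℕ) (τ : List F → List F × Fin 2) (x y : Rep) (i : Fin 2) : Prop :=
  ∃ a V, IsY f e y ∧ x = ([], List.replicate (4 + a) F.nil ++ cons .nil .nil :: (τ V).1, []) ∧
    y = ([], List.replicate (4 + a) F.nil ++ cons .nil .nil :: V, []) ∧ (τ V).2 = i

theorem bad_len {a : ℕ} {V : List F}
    (h : IsY f e ([], List.replicate (4 + a) F.nil ++ cons .nil .nil :: V, [])) :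
    V.length ≤ f ∧ tot V + 1 = e := by
  obtain ⟨_, h1, h2⟩ := h
  simp only [List.length_append, List.length_replicate, List.length_cons, tot_nil, tot_append,
    tot_replicate, tot_cons, sz_cons, sz_nil, List.length_nil] at h1 h2
  omega

theorem badE_unique (hτ : TauSpec f e τ) {x y y' : Rep} {i : Fin 2} (h : BadE f e τ x y i)
    (h' : BadE f e τ x y' i) : y = y' := by
  obtain ⟨a, V, hy, hx, rfl, hi⟩ := h
  obtain ⟨a', V', hy', hx', rfl, hi'⟩ := h'
  rw [hx] at hx'
  simp only [Prod.mk.injEq, and_true, true_and] at hx'
  obtain ⟨h1, _, h2⟩ := rep_inj _ _ _ _ _ _ (by simp) (by simp) hx'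
  obtain ⟨l1, t1⟩ := bad_len hy
  obtain ⟨l2, t2⟩ := bad_len hy'
  have hV : V = V' := hτ.2 V V' l1 t1 l2 t2 (Prod.ext h2 (by rw [hi, hi']))
  have ha : a = a' := by omega
  rw [hV, ha]

open Classical in
/-- The neighbour of the last kind with index `i`. -/
noncomputable def badN (f e : ℕ) (τ : List F → List F × Fin 2) (x : Rep) (i : Fin 2) : Rep :=
  if h : ∃ y, BadE f e τ x y i then h.choose else x

theorem badN_eq (hτ : TauSpec f e τ) {x y : Rep} {i : Fin 2} (h : BadE f e τ x y i) :
    badN f e τ x i = y := by
  have h' : ∃ y, BadE f e τ x y i := ⟨y, h⟩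
  unfold badN
  rw [dif_pos h']
  exact badE_unique hτ h'.choose_spec h

/-- The candidates for the neighbours of `x`. -/
noncomputable def candX (f e : ℕ) (τ : List F → List F × Fin 2) (x : Rep) : List Rep :=
  [endsOf x, closeAt 0 x, closeAt 1 x, closeAt 2 x, closeAt 3 x, closeAt (4 + lidx x) x,
    closeAt (4 + lidx x - 1) x, closeAt (4 + lidx x - 2) x, badN f e τ x 0, badN f e τ x 1]

theorem mem_candX (hτ : TauSpec f e τ) {x y : Rep} (h : HE f e τ x y) : y ∈ candX f e τ x := by
  obtain ⟨hx, hy, hE⟩ := h
  cases hE with
  | ends h => rw [← endsOf_eq h]; simp [candX]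
  | near L U A B C V R hU h =>
    have := closeAt_eq L U A B C V R
    have h3 : U.length = 0 ∨ U.length = 1 ∨ U.length = 2 ∨ U.length = 3 := by omega
    rcases h3 with h3 | h3 | h3 | h3 <;> rw [h3] at this <;> rw [← this] <;> simp [candX]
  | far U a A B C V hU h h' =>
    have h1 := closeAt_eq [] (U ++ List.replicate a F.nil) A B C V []
    have h2 : (U ++ List.replicate a F.nil).length = 4 + a := by simp [hU]
    rw [h2] at h1
    have hd : ((U ++ List.replicate a F.nil) ++ A :: B :: C :: V).drop 4
        = List.replicate a F.nil ++ A :: B :: C :: V := by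
      rw [List.append_assoc, ← hU, List.drop_left]
    have hl : lidx ([], (U ++ List.replicate a F.nil) ++ A :: B :: C :: V, []) = a ∨
        lidx ([], (U ++ List.replicate a F.nil) ++ A :: B :: C :: V, []) = a + 1 ∨
        lidx ([], (U ++ List.replicate a F.nil) ++ A :: B :: C :: V, []) = a + 2 := by
      simp only [lidx, hd]
      by_cases hA : A = .nil
      · subst hA
        by_cases hB : B = .nil
        · subst hB
          have hC : C ≠ .nil := fun hC => h' ⟨rfl, rfl, hC⟩
          right; right
          have e1 : List.replicate a F.nil ++ F.nil :: F.nil :: C :: V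
              = List.replicate (a + 2) F.nil ++ C :: V := by
            rw [List.replicate_add]; simp
          rw [e1]; exact findIdx_replicate _ _ _ hC
        · right; left
          have e1 : List.replicate a F.nil ++ F.nil :: B :: C :: V
              = List.replicate (a + 1) F.nil ++ B :: C :: V := by
            rw [List.replicate_add]; simp
          rw [e1]; exact findIdx_replicate _ _ _ hB
      · left; exact findIdx_replicate _ _ _ hA
    rw [← h1]
    rcases hl with hl | hl | hl
    · simp only [candX, hl]; simp
    · simp only [candX, hl]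
      have : 4 + (a + 1) - 1 = 4 + a := by omega
      rw [this]; simp
    · simp only [candX, hl]
      have : 4 + (a + 2) - 2 = 4 + a := by omega
      rw [this]; simp
  | bad a V =>
    have hb : BadE f e τ ([], List.replicate (4 + a) F.nil ++ cons .nil .nil :: (τ V).1, [])
        ([], List.replicate (4 + a) F.nil ++ cons .nil .nil :: V, []) (τ V).2 :=
      ⟨a, V, hy, rfl, rfl, rfl⟩
    have h1 := badN_eq hτ hb
    rcases Fin.exists_fin_two.mp ⟨(τ V).2, rfl⟩ with h2 | h2
    · rw [h2] at h1
      rw [← h1]; simp [candX]
    · rw [h2] at h1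
      rw [← h1]; simp [candX]

/-! ### Neighbours of `y` -/

def endsInv : Rep → Rep
  | (L, M, R) => (L.dropLast, L.getLastD .nil :: (M ++ [R.headD .nil]), R.tail)

theorem endsInv_eq {x y : Rep} (h : Ends x y) : endsInv y = x := by
  cases h with
  | mk L M R w0 wm => simp [endsInv, List.getLastD_eq_getLast?]

def openFirst (u : ℕ) : Rep → Rep
  | (L, M, R) => match M.getD u .nil with
    | .nil => (L, M, R)
    | .cons c r => (L, M.take u ++ .nil :: c :: r :: M.drop (u + 1), R)

def openLast (u : ℕ) : Rep → Rep
  | (L, M, R) => (L, M.take u ++ (lastDec (M.getD u .nil)).1 :: (lastDec (M.getD u .nil)).2 ::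
      .nil :: M.drop (u + 1), R)

theorem openFirst_eq (L U : List F) (B C : F) (V R : List F) :
    openFirst U.length (L, U ++ cons B C :: V, R) = (L, U ++ .nil :: B :: C :: V, R) := by
  simp [openFirst, List.drop_append]

theorem openLast_eq (L U : List F) (A B : F) (V R : List F) :
    openLast U.length (L, U ++ app A (cons B .nil) :: V, R) = (L, U ++ A :: B :: .nil :: V, R) := by
  simp [openLast, List.drop_append, lastDec_app]

def badInv (τ : List F → List F × Fin 2) : Rep → Rep
  | (_, M, _) => ([], M.take (M.findIdx (fun D => decide (D ≠ F.nil)) + 1) ++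
      (τ (M.drop (M.findIdx (fun D => decide (D ≠ F.nil)) + 1))).1, [])

theorem badInv_eq (a : ℕ) (V : List F) :
    badInv τ ([], List.replicate (4 + a) F.nil ++ cons .nil .nil :: V, [])
      = ([], List.replicate (4 + a) F.nil ++ cons .nil .nil :: (τ V).1, []) := by
  simp only [badInv]
  rw [findIdx_replicate (4 + a) (cons .nil .nil) V (by simp)]
  have e1 : List.replicate (4 + a) F.nil ++ cons .nil .nil :: V
      = (List.replicate (4 + a) F.nil ++ [cons .nil .nil]) ++ V := by simp
  have e2 : (List.replicate (4 + a) F.nil ++ [cons F.nil .nil]).length = 4 + a + 1 := by simp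
  rw [e1, ← e2, List.take_left, List.drop_left]
  simp

/-- The candidates for the neighbours of `y`. -/
def candY (τ : List F → List F × Fin 2) (y : Rep) : List Rep :=
  [endsInv y, openFirst 0 y, openFirst 1 y, openFirst 2 y, openFirst 3 y,
    openLast 0 y, openLast 1 y, openLast 2 y, openLast 3 y,
    openFirst (4 + lidx y) y, openLast (4 + lidx y) y, badInv τ y]

theorem mem_candY {x y : Rep} (h : HE f e τ x y) : x ∈ candY τ y := by
  obtain ⟨hx, hy, hE⟩ := h
  cases hE with
  | ends h => rw [← endsInv_eq h]; simp [candY]
  | near L U A B C V R hU h =>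
    have h3 : U.length = 0 ∨ U.length = 1 ∨ U.length = 2 ∨ U.length = 3 := by omega
    rcases h with rfl | rfl
    · have := openFirst_eq L U B C V R
      rw [nil_app]
      rcases h3 with h3 | h3 | h3 | h3 <;> rw [h3] at this <;> rw [← this] <;> simp [candY]
    · have := openLast_eq L U A B V R
      rcases h3 with h3 | h3 | h3 | h3 <;> rw [h3] at this <;> rw [← this] <;> simp [candY]
  | far U a A B C V hU h h' =>
    have h2 : (U ++ List.replicate a F.nil).length = 4 + a := by simp [hU]
    have hd : ((U ++ List.replicate a F.nil) ++ app A (cons B C) :: V).drop 4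
        = List.replicate a F.nil ++ app A (cons B C) :: V := by
      rw [List.append_assoc, ← hU, List.drop_left]
    have hl : lidx ([], (U ++ List.replicate a F.nil) ++ app A (cons B C) :: V, []) = a := by
      simp only [lidx, hd]
      exact findIdx_replicate _ _ _ (app_ne_nil _ _ _)
    rcases h with rfl | rfl
    · have h1 := openFirst_eq [] (U ++ List.replicate a F.nil) B C V []
      rw [h2] at h1
      rw [nil_app] at hl ⊢
      rw [← h1]
      simp only [candY, hl]; simp
    · have h1 := openLast_eq [] (U ++ List.replicate a F.nil) A B V []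
      rw [h2] at h1
      rw [← h1]
      simp only [candY, hl]; simp
  | bad a V =>
    rw [← badInv_eq a V]; simp [candY]

end Pool.Agent.Helper31K9.SymTree
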