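import Mathlib
import Pool.Agent.R93.TotDom.Basic

/-!
Connected claw-free graphs with minimum degree at least two: `FTD(G) ≥ 2 n / (n + 2)`.
-/

set_option autoImplicit false
set_option linter.unusedSectionVars false

namespace Pool.Agent.Helper31K9.TDom

open Finset R93.TotDom

universe u

open Classical in
/-- family of total dominating sets from colourings which are good outside of a small set -/
lemma ftd_of_colourings {V : Type u} [Fintype V] {G : SimpleGraph V} [Nonempty V] (k : ℕ) (hk : 0 < k) (c : Fin k → V → Bool)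
    (X : Fin k → Finset V) (hX : ∀ w : V, (univ.filter (fun j => w ∈ X j)).card ≤ 1)
    (hc : ∀ j v, (∃ a b, G.Adj v a ∧ G.Adj v b ∧ c j a ≠ c j b) ∨ ∃ a ∈ X j, G.Adj v a) :
    2 * (k : ℝ) / (k + 1) ≤ FTD G := by
  have : Nonempty (Fin k) := ⟨⟨0, hk⟩⟩
  have h := le_FTD_of_family (G := G) (ι := Fin k × Bool)
    (fun p => univ.filter (fun w => c p.1 w = p.2) ∪ X p.1) ?_ (k + 1) ?_
  · rw [Fintype.card_prod, Fintype.card_fin, Fintype.card_bool] at h
    push_cast at h
    rwa [mul_comm (k : ℝ) 2] at h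
  · rintro ⟨j, β⟩ v
    rcases hc j v with ⟨a, b, ha, hb, hab⟩ | ⟨a, ha, hva⟩
    · by_cases h1 : c j a = β
      · exact ⟨a, by simp [h1], ha⟩
      · refine ⟨b, ?_, hb⟩
        have : c j b = β := by
          revert h1 hab
          cases c j a <;> cases c j b <;> cases β <;> simp
        simp [this]
    · exact ⟨a, by simp [ha], hva⟩
  · intro w
    refine le_trans (card_le_card (t := (univ : Finset (Fin k)).image (fun j => (j, c j w)) ∪
        (univ.filter (fun j => w ∈ X j)).image (fun j => (j, !c j w))) ?_) ?_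
    · rintro ⟨j, β⟩ hp
      have hp2 := (Finset.mem_filter.1 hp).2
      rw [mem_union, mem_filter] at hp2
      rw [mem_union, mem_image, mem_image]
      by_cases h2 : c j w = β
      · left
        exact ⟨j, mem_univ _, by rw [h2]⟩
      · right
        refine ⟨j, ?_, ?_⟩
        · rcases hp2 with h3 | h3
          · exact absurd h3.2 h2
          · rw [mem_filter]; exact ⟨mem_univ _, h3⟩
        · have : (!c j w) = β := by
            revert h2
            cases c j w <;> cases β <;> simp
          rw [this]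
    · refine (card_union_le _ _).trans (Nat.add_le_add ?_ ?_)
      · exact card_image_le.trans (by simp)
      · exact card_image_le.trans (hX w)

section
variable {V : Type u} [Fintype V] [DecidableEq V] {G : SimpleGraph V} [DecidableRel G.Adj]

lemma dcount (A B : Finset V) :
    ∑ a ∈ A, (B.filter (fun b => G.Adj a b)).card = ∑ b ∈ B, (A.filter (fun a => G.Adj b a)).card := by
  simp_rw [card_filter]
  rw [sum_comm]
  exact sum_congr rfl fun b _ => sum_congr rfl fun a _ => if_congr (G.adj_comm a b) rfl rfl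

lemma sum_nb (A : Finset V) :
    ∑ a ∈ A, (nb G a).card = ∑ b ∈ Nb G A, (A.filter (fun a => G.Adj b a)).card := by
  rw [← dcount]
  refine sum_congr rfl fun a ha => ?_
  congr 1
  ext y
  simp only [mem_nb, mem_filter, mem_Nb]
  exact ⟨fun h => ⟨⟨a, ha, h⟩, h⟩, fun h => h.2⟩

lemma two_mul_le (hc : ClawFree G) (hd : ∀ v, 2 ≤ (nb G v).card) {I : Finset V}
    (hI : Indep G I) : 2 * I.card ≤ 2 * (Nb G I).card := by
  calc 2 * I.card = ∑ _i ∈ I, 2 := by simp [mul_comm]
    _ ≤ ∑ i ∈ I, (nb G i).card := sum_le_sum fun i _ => hd i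
    _ = ∑ b ∈ Nb G I, (I.filter (fun a => G.Adj b a)).card := sum_nb I
    _ ≤ ∑ _b ∈ Nb G I, 2 := sum_le_sum fun b _ => card_nb_inter_le_two hc hI b
    _ = 2 * (Nb G I).card := by simp [mul_comm]

lemma hall (hc : ClawFree G) (hd : ∀ v, 2 ≤ (nb G v).card) (U : Finset V) :
    U.card ≤ (Nb G U).card := by
  have h1 := card_Nb_ge (G := G) U
  have h2 := two_mul_le hc hd (iso_indep (G := G) U)
  have h3 := iso_card_add (G := G) U
  omega

/-- the structure of the exceptional graphs -/
structure Exc (G : SimpleGraph V) [DecidableRel G.Adj] (J : Finset V) : Prop where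
  ne : J.Nonempty
  indep : Indep G J
  card : (Nb G J).card = J.card
  univ : J ∪ Nb G J = univ
  deg : ∀ v ∈ J, (nb G v).card = 2
  two : ∀ y ∈ Nb G J, (J.filter (fun a => G.Adj y a)).card = 2

lemma exc_of_tight (hconn : G.Connected) (hc : ClawFree G) (hd : ∀ v, 2 ≤ (nb G v).card)
    (U : Finset V) (hU : U.Nonempty) (hU' : U ≠ univ) (ht : (Nb G U).card ≤ U.card) :
    ∃ J, Exc G J := by
  have h1 := card_Nb_ge (G := G) U
  have hI := iso_indep (G := G) U
  have h2 := two_mul_le hc hd hI
  have h3 := iso_card_add (G := G) U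
  set J := iso G U with hJ
  have hne : J.Nonempty := by
    rw [nonempty_iff_ne_empty]
    intro h0
    apply hU'
    have h4 : U ⊆ Nb G U := by
      have := sdiff_iso_subset (G := G) U
      rwa [← hJ, h0, sdiff_empty] at this
    have h5 : U = Nb G U := eq_of_subset_of_card_le h4 ht
    refine closed_eq_univ hconn hU fun v hv w hw => ?_
    rw [h5]
    exact mem_Nb.2 ⟨v, hv, hw⟩
  have hcard : (Nb G J).card = J.card := by omega
  have e1 : ∑ _i ∈ J, 2 = ∑ i ∈ J, (nb G i).card := by
    apply le_antisymm (sum_le_sum fun i _ => hd i)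
    rw [sum_nb]
    calc ∑ b ∈ Nb G J, (J.filter (fun a => G.Adj b a)).card ≤ ∑ _b ∈ Nb G J, 2 :=
          sum_le_sum fun b _ => card_nb_inter_le_two hc hI b
      _ = ∑ _i ∈ J, 2 := by simp [hcard]
  have e2 : ∑ b ∈ Nb G J, (J.filter (fun a => G.Adj b a)).card = ∑ _b ∈ Nb G J, 2 := by
    rw [← sum_nb, ← e1]
    simp [hcard]
  have f1 := (sum_eq_sum_iff_of_le (fun i _ => hd i)).1 e1
  have f2 := (sum_eq_sum_iff_of_le (fun b _ => card_nb_inter_le_two hc hI b)).1 e2
  refine ⟨J, hne, hI, hcard, ?_, fun v hv => (f1 v hv).symm, f2⟩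
  refine closed_eq_univ hconn (hne.mono subset_union_left) fun v hv w hw => ?_
  rw [mem_union] at hv ⊢
  by_cases hvJ : v ∈ J
  · exact Or.inr (mem_Nb.2 ⟨v, hvJ, hw⟩)
  · have hvN := hv.resolve_left hvJ
    by_cases hwJ : w ∈ J
    · exact Or.inl hwJ
    right
    obtain ⟨a, b, hab, hJ2⟩ := card_eq_two.1 (f2 v hvN)
    have ha : a ∈ J ∧ G.Adj v a := by
      have : a ∈ J.filter (fun a => G.Adj v a) := by rw [hJ2]; simp
      simpa using this
    have hb : b ∈ J ∧ G.Adj v b := by
      have : b ∈ J.filter (fun a => G.Adj v a) := by rw [hJ2]; simp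
      simpa using this
    by_contra hcon
    apply hc
    refine ⟨v, a, b, w, ha.2, hb.2, hw, hab, ?_, ?_, hI a ha.1 b hb.1, ?_, ?_⟩
    · rintro rfl; exact hwJ ha.1
    · rintro rfl; exact hwJ hb.1
    · intro h; exact hcon (mem_Nb.2 ⟨a, ha.1, h⟩)
    · intro h; exact hcon (mem_Nb.2 ⟨b, hb.1, h⟩)

lemma bij_of_hall (hH : ∀ U : Finset V, U.card ≤ (Nb G U).card) :
    ∃ φ : V → V, Function.Injective φ ∧ ∀ v, G.Adj v (φ v) := by
  obtain ⟨φ, h1, -, h2⟩ := exists_bij (G := G) ∅ ∅ id (by simp) (by simp)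
    (fun U _ => by simpa using hH U)
  exact ⟨φ, h1, fun v => h2 v (by simp)⟩

/-- the generic case -/
lemma ftd_generic [Nonempty V] (hH : ∀ U : Finset V, U.card ≤ (Nb G U).card)
    (hS : ∀ U : Finset V, U.Nonempty → U ≠ univ → U.card < (Nb G U).card) :
    2 * (Fintype.card V : ℝ) / (Fintype.card V + 1) ≤ FTD G := by
  classical
  obtain ⟨φ, hφ, hadj⟩ := bij_of_hall hH
  have hcol : ∀ u : V, ∃ c : V → Bool, ∀ v, v ≠ u →
      ∃ a b, G.Adj v a ∧ G.Adj v b ∧ c a ≠ c b := by
    intro u
    obtain ⟨c, -, hc⟩ := ext_coloring (G := G) φ hφ {u} (fun v _ => hadj v) (fun U hU hd => by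
      have h1 : U ≠ univ := by
        rintro rfl
        exact (disjoint_left.1 hd (mem_univ u)) (mem_singleton_self u)
      have h2 := hS U hU h1
      by_contra hcon
      push Not at hcon
      have h3 : Nb G U ⊆ U.image φ := fun y hy => hcon y hy
      have h4 := card_le_card h3
      have h5 := card_image_le (s := U) (f := φ)
      omega) (fun _ => true)
    exact ⟨c, fun v hv => hc v (by simpa using hv)⟩
  choose c hc using hcol
  let e := (Fintype.equivFin V).symm
  refine ftd_of_colourings (G := G) (Fintype.card V) Fintype.card_pos (fun j => c (e j))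
    (fun j => {φ (e j)}) ?_ ?_
  · intro w
    rw [card_le_one]
    intro a ha b hb
    simp only [mem_filter, mem_univ, true_and, mem_singleton] at ha hb
    exact e.injective (hφ (ha.symm.trans hb))
  · intro j v
    by_cases hv : v = e j
    · right
      exact ⟨φ (e j), mem_singleton_self _, hv ▸ hadj v⟩
    · left
      exact hc (e j) v hv

/-- the exceptional case: `V = J ∪ N(J)` -/
lemma ftd_exc [Nonempty V] (hconn : G.Connected) (hc : ClawFree G) {J : Finset V}
    (hJ : Exc G J) :
    2 * (J.card : ℝ) / (J.card + 1) ≤ FTD G := by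
  classical
  -- the two parts
  have hdisj : ∀ v, v ∈ J → v ∉ Nb G J := by
    intro v hv hv'
    obtain ⟨w, hw, h⟩ := mem_Nb.1 hv'
    exact hJ.indep w hw v hv h
  have hor : ∀ v, v ∈ J ∨ v ∈ Nb G J := fun v => by
    have := mem_univ v
    rw [← hJ.univ, mem_union] at this
    exact this
  -- neighbours inside `N(J)` of a vertex of `N(J)` share a neighbour in `J`
  have hshare : ∀ y ∈ Nb G J, ∀ w ∈ Nb G J, G.Adj y w → ∃ a ∈ J, G.Adj y a ∧ G.Adj a w := by
    intro y hy w hw hyw
    obtain ⟨a, b, hab, hJ2⟩ := card_eq_two.1 (hJ.two y hy)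
    have ha : a ∈ J ∧ G.Adj y a := by
      have : a ∈ J.filter (fun a => G.Adj y a) := by rw [hJ2]; simp
      simpa using this
    have hb : b ∈ J ∧ G.Adj y b := by
      have : b ∈ J.filter (fun a => G.Adj y a) := by rw [hJ2]; simp
      simpa using this
    by_contra hcon
    push Not at hcon
    apply hc
    refine ⟨y, a, b, w, ha.2, hb.2, hyw, hab, ?_, ?_, hJ.indep a ha.1 b hb.1, ?_, ?_⟩
    · rintro rfl; exact hdisj _ ha.1 hw
    · rintro rfl; exact hdisj _ hb.1 hw
    · exact hcon a ha.1 ha.2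
    · exact hcon b hb.1 hb.2
  -- strong Hall property in the two halves
  have hs1 : ∀ U ⊆ J, U.Nonempty → U ≠ J → U.card < (Nb G U).card := by
    intro U hUJ hU hne
    by_contra hlt
    push Not at hlt
    have hUi : Indep G U := fun a ha b hb => hJ.indep a (hUJ ha) b (hUJ hb)
    have e1 : ∑ b ∈ Nb G U, (U.filter (fun a => G.Adj b a)).card = ∑ _b ∈ Nb G U, 2 := by
      apply le_antisymm (sum_le_sum fun b _ => card_nb_inter_le_two hc hUi b)
      rw [← sum_nb]
      calc ∑ _b ∈ Nb G U, 2 = 2 * (Nb G U).card := by simp [mul_comm]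
        _ ≤ 2 * U.card := by omega
        _ = ∑ _a ∈ U, 2 := by simp [mul_comm]
        _ = ∑ a ∈ U, (nb G a).card := sum_congr rfl fun a ha => (hJ.deg a (hUJ ha)).symm
        _ ≤ _ := le_rfl
    have f1 := (sum_eq_sum_iff_of_le (fun b _ => card_nb_inter_le_two hc hUi b)).1 e1
    have hin : ∀ y ∈ Nb G U, ∀ a ∈ J, G.Adj y a → a ∈ U := by
      intro y hy a ha hya
      have h1 : U.filter (fun a => G.Adj y a) ⊆ J.filter (fun a => G.Adj y a) :=
        filter_subset_filter _ hUJ
      have h2 := eq_of_subset_of_card_le h1 (by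
        rw [f1 y hy, hJ.two y (Nb_mono hUJ hy)])
      have h3 : a ∈ J.filter (fun a => G.Adj y a) := by simp [ha, hya]
      rw [← h2] at h3
      exact (mem_filter.1 h3).1
    have hcl : U ∪ Nb G U = univ := by
      refine closed_eq_univ hconn (hU.mono subset_union_left) fun v hv w hw => ?_
      rw [mem_union] at hv ⊢
      rcases hv with hv | hv
      · exact Or.inr (mem_Nb.2 ⟨v, hv, hw⟩)
      · rcases hor w with hwJ | hwN
        · exact Or.inl (hin v hv w hwJ hw)
        · obtain ⟨a, ha, hva, haw⟩ := hshare v (Nb_mono hUJ hv) w hwN hw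
          exact Or.inr (mem_Nb.2 ⟨a, hin v hv a ha hva, haw⟩)
    apply hne
    refine Subset.antisymm hUJ fun a ha => ?_
    have := mem_univ a
    rw [← hcl, mem_union] at this
    rcases this with h | h
    · exact h
    · exact absurd (Nb_mono hUJ h) (hdisj a ha)
  have hs2 : ∀ W ⊆ Nb G J, W.Nonempty → W ≠ Nb G J → W.card < (Nb G W ∩ J).card := by
    intro W hWN hW hne
    by_contra hlt
    push Not at hlt
    have hle : ∀ b ∈ Nb G W ∩ J, (W.filter (fun a => G.Adj b a)).card ≤ 2 := by
      intro b hb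
      rw [mem_inter] at hb
      rw [← hJ.deg b hb.2]
      refine card_le_card fun x hx => ?_
      rw [mem_filter] at hx
      exact mem_nb.2 hx.2
    have e0 : ∑ a ∈ W, (J.filter (fun b => G.Adj a b)).card =
        ∑ b ∈ Nb G W ∩ J, (W.filter (fun a => G.Adj b a)).card := by
      rw [dcount]
      symm
      refine sum_subset inter_subset_right fun b hb hb' => ?_
      rw [card_eq_zero, filter_eq_empty_iff]
      intro a ha hba
      exact hb' (mem_inter.2 ⟨mem_Nb.2 ⟨a, ha, hba.symm⟩, hb⟩)
    have e1 : ∑ b ∈ Nb G W ∩ J, (W.filter (fun a => G.Adj b a)).card =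
        ∑ _b ∈ Nb G W ∩ J, 2 := by
      apply le_antisymm (sum_le_sum hle)
      rw [← e0]
      calc ∑ _b ∈ Nb G W ∩ J, 2 = 2 * (Nb G W ∩ J).card := by simp [mul_comm]
        _ ≤ 2 * W.card := by omega
        _ = ∑ _a ∈ W, 2 := by simp [mul_comm]
        _ = ∑ a ∈ W, (J.filter (fun b => G.Adj a b)).card :=
          sum_congr rfl fun a ha => (hJ.two a (hWN ha)).symm
        _ ≤ _ := le_rfl
    have f1 := (sum_eq_sum_iff_of_le hle).1 e1
    have hin : ∀ a ∈ Nb G W ∩ J, ∀ y, G.Adj a y → y ∈ W := by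
      intro a ha y hay
      have h1 : W.filter (fun y => G.Adj a y) ⊆ nb G a := fun x hx => by
        rw [mem_filter] at hx
        exact mem_nb.2 hx.2
      have h2 := eq_of_subset_of_card_le h1 (by
        rw [f1 a ha, hJ.deg a (mem_inter.1 ha).2])
      have h3 : y ∈ nb G a := mem_nb.2 hay
      rw [← h2] at h3
      exact (mem_filter.1 h3).1
    have hcl : W ∪ (Nb G W ∩ J) = univ := by
      refine closed_eq_univ hconn (hW.mono subset_union_left) fun v hv w hw => ?_
      rw [mem_union] at hv ⊢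
      rcases hv with hv | hv
      · rcases hor w with hwJ | hwN
        · exact Or.inr (mem_inter.2 ⟨mem_Nb.2 ⟨v, hv, hw⟩, hwJ⟩)
        · obtain ⟨a, ha, hva, haw⟩ := hshare v (hWN hv) w hwN hw
          exact Or.inl (hin a (mem_inter.2 ⟨mem_Nb.2 ⟨v, hv, hva⟩, ha⟩) w haw)
      · exact Or.inl (hin v hv w hw)
    apply hne
    refine Subset.antisymm hWN fun y hy => ?_
    have := mem_univ y
    rw [← hcl, mem_union] at this
    rcases this with h | h
    · exact h
    · exact absurd hy (hdisj y (mem_inter.1 h).2)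
  -- the bijection
  have hNJ : ∀ v ∈ Nb G J, ∃ a ∈ J, G.Adj v a := fun v hv => by
    obtain ⟨a, ha, h⟩ := mem_Nb.1 hv
    exact ⟨a, ha, h.symm⟩
  have hJN : ∀ v ∈ J, ∀ w, G.Adj v w → w ∈ Nb G J := fun v hv w hw => mem_Nb.2 ⟨v, hv, hw⟩
  -- matchings of the two halves
  have hle1 : ∀ U ⊆ J, U.card ≤ (Nb G U).card := by
    intro U hU
    rcases U.eq_empty_or_nonempty with h | h
    · subst h; simp
    · by_cases h' : U = J
      · rw [h']; exact hJ.card.ge
      · exact (hs1 U hU h h').le
  have hNNJ : Nb G (Nb G J) ∩ J = J := by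
    refine Subset.antisymm inter_subset_right fun v hv => mem_inter.2 ⟨?_, hv⟩
    have hne : (nb G v).Nonempty := card_pos.1 (by rw [hJ.deg v hv]; norm_num)
    obtain ⟨w, hw⟩ := hne
    exact mem_Nb.2 ⟨w, hJN v hv w (mem_nb.1 hw), (mem_nb.1 hw).symm⟩
  have hle2 : ∀ W ⊆ Nb G J, W.card ≤ (Nb G W ∩ J).card := by
    intro W hW
    rcases W.eq_empty_or_nonempty with h | h
    · subst h; simp
    · by_cases h' : W = Nb G J
      · rw [h', hNNJ, hJ.card]
      · exact (hs2 W hW h h').le
  obtain ⟨ψ, hψi, hψ⟩ := (Finset.all_card_le_biUnion_card_iff_exists_injective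
    (fun v : V => if v ∈ J then nb G v else nb G v ∩ J)).1 (by
      intro s
      have h1 : (s ∩ J).card ≤ (Nb G (s ∩ J)).card := hle1 _ inter_subset_right
      have h2 : (s ∩ Nb G J).card ≤ (Nb G (s ∩ Nb G J) ∩ J).card := hle2 _ inter_subset_right
      have h3 : s.card = (s ∩ J).card + (s ∩ Nb G J).card := by
        rw [← card_union_of_disjoint]
        · congr 1
          ext v
          rw [mem_union, mem_inter, mem_inter]
          constructor
          · intro hv
            rcases hor v with h | h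
            · exact Or.inl ⟨hv, h⟩
            · exact Or.inr ⟨hv, h⟩
          · rintro (h | h) <;> exact h.1
        · rw [disjoint_left]
          intro v hv hv'
          exact hdisj v (mem_inter.1 hv).2 (mem_inter.1 hv').2
      have h4 : Nb G (s ∩ J) ∪ (Nb G (s ∩ Nb G J) ∩ J) ⊆
          s.biUnion (fun v : V => if v ∈ J then nb G v else nb G v ∩ J) := by
        intro y hy
        rw [mem_union] at hy
        rw [mem_biUnion]
        rcases hy with hy | hy
        · obtain ⟨v, hv, hvy⟩ := mem_Nb.1 hy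
          rw [mem_inter] at hv
          exact ⟨v, hv.1, by rw [if_pos hv.2]; exact mem_nb.2 hvy⟩
        · rw [mem_inter] at hy
          obtain ⟨v, hv, hvy⟩ := mem_Nb.1 hy.1
          rw [mem_inter] at hv
          refine ⟨v, hv.1, ?_⟩
          rw [if_neg (fun h => hdisj v h hv.2), mem_inter]
          exact ⟨mem_nb.2 hvy, hy.2⟩
      have h5 : Disjoint (Nb G (s ∩ J)) (Nb G (s ∩ Nb G J) ∩ J) := by
        rw [disjoint_left]
        intro y hy hy'
        exact hdisj y (mem_inter.1 hy').2 (Nb_mono inter_subset_right hy)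
      calc s.card = (s ∩ J).card + (s ∩ Nb G J).card := h3
        _ ≤ (Nb G (s ∩ J)).card + (Nb G (s ∩ Nb G J) ∩ J).card := Nat.add_le_add h1 h2
        _ = (Nb G (s ∩ J) ∪ (Nb G (s ∩ Nb G J) ∩ J)).card := (card_union_of_disjoint h5).symm
        _ ≤ _ := card_le_card h4)
  have hψa : ∀ v, G.Adj v (ψ v) := by
    intro v
    have := hψ v
    split_ifs at this with h
    · exact mem_nb.1 this
    · exact mem_nb.1 (mem_inter.1 this).1
  have hψ1 : ∀ v ∈ J, ψ v ∈ Nb G J := fun v hv => hJN v hv _ (hψa v)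
  have hψ2 : ∀ v ∈ Nb G J, ψ v ∈ J := by
    intro v hv
    have := hψ v
    rw [if_neg (fun h => hdisj v h hv)] at this
    exact (mem_inter.1 this).2
  have hcol : ∀ u : J, ∃ c : V → Bool, ∀ v, v ≠ u.1 → v ≠ ψ u.1 →
      ∃ a b, G.Adj v a ∧ G.Adj v b ∧ c a ≠ c b := by
    intro u
    obtain ⟨c, -, hc'⟩ := ext_coloring (G := G) ψ hψi {u.1, ψ u.1} (fun v _ => hψa v)
      (fun U hU hd => by
        have hu1 : u.1 ∉ U := fun h => disjoint_left.1 hd h (by simp)
        have hu2 : ψ u.1 ∉ U := fun h => disjoint_left.1 hd h (by simp)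
        by_contra hcon
        push Not at hcon
        rcases (U ∩ J).eq_empty_or_nonempty with h0 | h0
        · have hsub : U ⊆ Nb G J := by
            intro v hv
            rcases hor v with h | h
            · exact absurd (mem_inter.2 ⟨hv, h⟩) (by rw [h0]; simp)
            · exact h
          have h1 := hs2 U hsub hU (fun h => hu2 (h ▸ hψ1 _ u.2))
          have h2 : Nb G U ∩ J ⊆ U.image ψ := fun y hy => hcon y (mem_inter.1 hy).1
          have h3 := card_le_card h2
          have h4 := card_image_le (s := U) (f := ψ)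
          omega
        · have h1 := hs1 (U ∩ J) inter_subset_right h0
            (fun h => hu1 (mem_inter.1 (by rw [h]; exact u.2 : u.1 ∈ U ∩ J)).1)
          have h2 : Nb G (U ∩ J) ⊆ (U ∩ J).image ψ := by
            intro y hy
            obtain ⟨v, hv, hvy⟩ := mem_image.1 (hcon y (Nb_mono inter_subset_left hy))
            rcases hor v with h | h
            · exact mem_image.2 ⟨v, mem_inter.2 ⟨hv, h⟩, hvy⟩
            · exfalso
              exact hdisj y (hvy ▸ hψ2 v h) (Nb_mono inter_subset_right hy)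
          have h3 := card_le_card h2
          have h4 := card_image_le (s := U ∩ J) (f := ψ)
          omega) (fun _ => true)
    exact ⟨c, fun v hv hv' => hc' v (by simp [hv, hv'])⟩
  choose c hc' using hcol
  let e := J.equivFin.symm
  refine ftd_of_colourings (G := G) J.card hJ.ne.card_pos (fun j => c (e j))
    (fun j => {ψ (e j).1, ψ (ψ (e j).1)}) ?_ ?_
  · intro w
    rw [card_le_one]
    intro a ha b hb
    simp only [mem_filter, mem_univ, true_and, mem_insert, mem_singleton] at ha hb
    rcases ha with ha | ha <;> rcases hb with hb | hb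
    · exact e.injective (Subtype.ext (hψi (ha.symm.trans hb)))
    · exfalso
      have h1 : w ∈ Nb G J := ha ▸ hψ1 _ (e a).2
      have h2 : w ∈ J := hb ▸ hψ2 _ (hψ1 _ (e b).2)
      exact hdisj w h2 h1
    · exfalso
      have h1 : w ∈ Nb G J := hb ▸ hψ1 _ (e b).2
      have h2 : w ∈ J := ha ▸ hψ2 _ (hψ1 _ (e a).2)
      exact hdisj w h2 h1
    · exact e.injective (Subtype.ext (hψi (hψi (ha.symm.trans hb))))
  · intro j v
    by_cases hv : v = (e j).1
    · right
      exact ⟨ψ (e j).1, by simp, hv ▸ hψa v⟩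
    · by_cases hv' : v = ψ (e j).1
      · right
        exact ⟨ψ (ψ (e j).1), by simp, hv' ▸ hψa v⟩
      · left
        exact hc' (e j) v hv hv'

theorem main [Nonempty V] (hconn : G.Connected) (hc : ClawFree G)
    (hd : ∀ v, 2 ≤ (nb G v).card) :
    2 - 4 / ((Fintype.card V : ℝ) + 2) ≤ FTD G := by
  classical
  have hn : (0 : ℝ) < Fintype.card V := by exact_mod_cast Fintype.card_pos
  by_cases ht : ∃ U : Finset V, U.Nonempty ∧ U ≠ univ ∧ (Nb G U).card ≤ U.card
  · obtain ⟨U, h1, h2, h3⟩ := ht
    obtain ⟨J, hJ⟩ := exc_of_tight hconn hc hd U h1 h2 h3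
    have h4 := ftd_exc hconn hc hJ
    have h5 : (Fintype.card V : ℝ) = 2 * J.card := by
      have h6 : Fintype.card V = J.card + (Nb G J).card := by
        rw [← card_univ, ← hJ.univ, card_union_of_disjoint]
        rw [disjoint_left]
        intro v hv hv'
        obtain ⟨w, hw, h⟩ := mem_Nb.1 hv'
        exact hJ.indep w hw v hv h
      rw [h6, hJ.card]
      push_cast
      ring
    refine le_trans (le_of_eq ?_) h4
    rw [h5]
    have hJ0 : (0 : ℝ) < J.card := by exact_mod_cast hJ.ne.card_pos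
    field_simp
    ring
  · push Not at ht
    have h4 := ftd_generic (G := G) (hall hc hd) (fun U h1 h2 => ht U h1 h2)
    refine le_trans ?_ h4
    rw [sub_le_iff_le_add, div_add_div _ _ (by positivity) (by positivity),
      le_div_iff₀ (by positivity)]
    nlinarith

end

end Pool.Agent.Helper31K9.TDom
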